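import Pool.Agent.H772R2.NS.Space3

/-!
The alternating product of two velocity fields and the trilinear form.
-/

set_option autoImplicit false
set_option linter.unusedSectionVars false

open MeasureTheory Set Filter Topology
open scoped InnerProductSpace ENNReal ContDiff NNReal

namespace Pool.Agent.TH301.EQ

open H772R2.NS

/-- the alternating tensor `v ⊗ w - w ⊗ v` -/
noncomputable def alt (v w : E3) : M3 := WithLp.toLp 2 fun p => v p.1 * w p.2 - w p.1 * v p.2

theorem alt_apply (v w : E3) (p : Fin 3 × Fin 3) :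
    alt v w p = v p.1 * w p.2 - w p.1 * v p.2 := rfl

theorem norm_sq_alt (v w : E3) : ‖alt v w‖ ^ 2 = 2 * (‖v‖ ^ 2 * ‖w‖ ^ 2 - ⟪v, w⟫_ℝ ^ 2) := by
  rw [norm_sq_M3, norm_sq_E3, norm_sq_E3, inner_E3]
  simp only [alt_apply, Fin.sum_univ_three]
  ring

theorem norm_alt_le (v w : E3) : ‖alt v w‖ ≤ 2 * (‖v‖ * ‖w‖) := by
  have h := norm_sq_alt v w
  have h1 : 0 ≤ ⟪v, w⟫_ℝ ^ 2 := sq_nonneg _
  refine abs_le_of_sq_le_sq' ?_ (by positivity) |>.2
  nlinarith [mul_nonneg (norm_nonneg v) (norm_nonneg w), sq_nonneg (‖v‖ * ‖w‖)]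

theorem alt_sub_left (v v' w : E3) : alt (v - v') w = alt v w - alt v' w := by
  ext p
  simp only [PiLp.sub_apply, alt_apply]
  ring

theorem alt_sub_right (v w w' : E3) : alt v (w - w') = alt v w - alt v w' := by
  ext p
  simp only [PiLp.sub_apply, alt_apply]
  ring

theorem continuous_alt : Continuous (fun q : E3 × E3 => alt q.1 q.2) := by
  unfold alt
  refine (PiLp.continuous_toLp 2 _).comp ?_
  refine continuous_pi (fun p => ?_)
  fun_prop

theorem aesm_alt {α : Type*} {mα : MeasurableSpace α} {μ : Measure α} {v w : α → E3}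
    (hv : AEStronglyMeasurable v μ) (hw : AEStronglyMeasurable w μ) :
    AEStronglyMeasurable (fun x => alt (v x) (w x)) μ :=
  continuous_alt.comp_aestronglyMeasurable (hv.prodMk hw)

instance holder442 : ENNReal.HolderTriple 4 4 2 := ⟨by
    rw [← two_mul]
    have h4 : (4 : ℝ≥0∞) = 2 * 2 := by norm_num
    rw [h4, ENNReal.mul_inv (by norm_num) (by norm_num), ← mul_assoc,
      ENNReal.mul_inv_cancel (by norm_num) (by norm_num), one_mul]⟩

/-- Hoelder's inequality for the product of the norms. -/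
theorem eLpNorm_mul_le {α : Type*} {mα : MeasurableSpace α} {μ : Measure α} {v w : α → E3}
    {b d : ℝ≥0∞} [ENNReal.HolderTriple b d 2]
    (hv : AEStronglyMeasurable v μ) (hw : AEStronglyMeasurable w μ) :
    eLpNorm (fun x => ‖v x‖ * ‖w x‖) 2 μ ≤ eLpNorm v b μ * eLpNorm w d μ := by
  have h2 := eLpNorm_le_eLpNorm_mul_eLpNorm'_of_norm (p := b) (q := d) (r := 2) hv.norm hw.norm
    (fun a b => a * b) 1 (Eventually.of_forall (fun x => by
      rw [norm_mul]; simp)) (μ := μ)
  refine h2.trans ?_
  rw [ENNReal.coe_one, one_mul, eLpNorm_norm, eLpNorm_norm]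

theorem eLpNorm_alt_le {α : Type*} {mα : MeasurableSpace α} {μ : Measure α} {v w : α → E3}
    (hv : AEStronglyMeasurable v μ) (hw : AEStronglyMeasurable w μ) :
    eLpNorm (fun x => alt (v x) (w x)) 2 μ ≤ 2 * (eLpNorm v 4 μ * eLpNorm w 4 μ) := by
  have h1 : eLpNorm (fun x => alt (v x) (w x)) 2 μ
      ≤ 2 * eLpNorm (fun x => ‖v x‖ * ‖w x‖) 2 μ := by
    have := eLpNorm_le_nnreal_smul_eLpNorm_of_ae_le_mul (μ := μ) (p := 2)
      (f := fun x => alt (v x) (w x)) (g := fun x => ‖v x‖ * ‖w x‖) (c := 2)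
      (Eventually.of_forall fun x => by
        have := norm_alt_le (v x) (w x)
        rw [← NNReal.coe_le_coe]
        simpa [abs_of_nonneg (mul_nonneg (norm_nonneg (v x)) (norm_nonneg (w x)))] using this)
    simpa [ENNReal.smul_def] using this
  refine h1.trans ?_
  gcongr
  exact eLpNorm_mul_le hv hw

section test

variable {Ω : Set E3} {φ ψ : E3 → E3}

/-- `∫ ∑ φ_a ψ_b ∂_b φ_a = 0` for a divergence free test field `ψ`. -/
theorem transport_zero (h : IsTest Ω φ) (k : IsTest Ω ψ) :
    ∫ x, (∑ a, ∑ b, φ x a * ψ x b * jac φ x (a, b)) = 0 := by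
  let g : E3 → ℝ := fun x => ∑ i, φ x i ^ 2
  have hg : ContDiff ℝ ∞ g := ContDiff.sum (fun i _ => (contDiff_coord h.smooth i).pow 2)
  have hgc : HasCompactSupport g := by
    refine h.compact.mono (fun x hx => ?_)
    intro h0
    apply hx
    simp [g, h0]
  have hgd : ∀ x j, fderiv ℝ g x (ev j) = ∑ i, 2 * φ x i * jac φ x (i, j) := by
    intro x j
    have h1 : ∀ i ∈ Finset.univ, DifferentiableAt ℝ (fun x => φ x i ^ 2) x := fun i _ =>
      (((contDiff_coord h.smooth i).pow 2).differentiable (by simp)) x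
    have h2 : fderiv ℝ g x = ∑ i, fderiv ℝ (fun x => φ x i ^ 2) x := by
      have : g = fun x => ∑ i, φ x i ^ 2 := rfl
      rw [this, fderiv_fun_sum h1]
    rw [h2, ContinuousLinearMap.sum_apply]
    refine Finset.sum_congr rfl (fun i _ => ?_)
    have h3 : DifferentiableAt ℝ (fun x => φ x i) x :=
      ((contDiff_coord h.smooth i).differentiable (by simp)) x
    rw [fderiv_fun_pow 2 h3]
    simp only [ContinuousLinearMap.smul_apply, smul_eq_mul]
    rw [fderiv_coord h.smooth, jac_apply]
    simp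
  have hcont : ∀ j, Continuous (fun x => fderiv ℝ g x (ev j)) := fun j =>
    (hg.continuous_fderiv (by simp)).clm_apply continuous_const
  have hcontψ : ∀ j, Continuous (fun x => fderiv ℝ (fun y => ψ y j) x (ev j)) := fun j =>
    ((contDiff_coord k.smooth j).continuous_fderiv (by simp)).clm_apply continuous_const
  have hψc : ∀ j, Continuous (fun x => ψ x j) := fun j => (contDiff_coord k.smooth j).continuous
  have hibp : ∀ j, ∫ x, ψ x j * fderiv ℝ g x (ev j)
      = - ∫ x, fderiv ℝ (fun y => ψ y j) x (ev j) * g x := by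
    intro j
    apply integral_mul_fderiv_eq_neg_fderiv_mul_of_integrable
    · exact ((hcontψ j).mul hg.continuous).integrable_of_hasCompactSupport (hgc.mul_left)
    · exact ((hψc j).mul (hcont j)).integrable_of_hasCompactSupport
        ((hasCompactSupport_coord k.compact j).mul_right)
    · exact ((hψc j).mul hg.continuous).integrable_of_hasCompactSupport (hgc.mul_left)
    · intro x _
      exact ((contDiff_coord k.smooth j).differentiable (by simp)) x
    · intro x _
      exact (hg.differentiable (by simp)) x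
  have hpt : ∀ x, (∑ a, ∑ b, φ x a * ψ x b * jac φ x (a, b))
      = (1 / 2) * ∑ j, ψ x j * fderiv ℝ g x (ev j) := by
    intro x
    simp only [hgd, Finset.mul_sum]
    rw [Finset.sum_comm]
    refine Finset.sum_congr rfl (fun j _ => Finset.sum_congr rfl (fun i _ => ?_))
    ring
  have hint1 : ∀ j ∈ Finset.univ, Integrable (fun x => ψ x j * fderiv ℝ g x (ev j)) := fun j _ =>
    ((hψc j).mul (hcont j)).integrable_of_hasCompactSupport
        ((hasCompactSupport_coord k.compact j).mul_right)
  have hint2 : ∀ j ∈ Finset.univ, Integrable (fun x => fderiv ℝ (fun y => ψ y j) x (ev j) * g x) :=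
    fun j _ => ((hcontψ j).mul hg.continuous).integrable_of_hasCompactSupport (hgc.mul_left)
  simp_rw [hpt]
  rw [integral_const_mul, integral_finsetSum _ hint1]
  simp_rw [hibp]
  rw [Finset.sum_neg_distrib, ← integral_finsetSum _ hint2]
  have hz : ∀ x, ∑ j, fderiv ℝ (fun y => ψ y j) x (ev j) * g x = 0 := by
    intro x
    rw [← Finset.sum_mul]
    have : ∑ j, fderiv ℝ (fun y => ψ y j) x (ev j) = 0 := by
      simp_rw [fderiv_coord k.smooth]
      exact k.divfree x
    rw [this, zero_mul]
  simp [hz]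

/-- the integrand of the trilinear form is integrable -/
theorem int_tri {χ : E3 → E3} (h : IsTest Ω φ) (k : IsTest Ω ψ) (l : IsTest Ω χ) :
    Integrable (fun x => ∑ a, ∑ b, φ x a * ψ x b * jac χ x (a, b)) := by
  refine Continuous.integrable_of_hasCompactSupport ?_ ?_
  · refine continuous_finset_sum _ fun a _ => continuous_finset_sum _ fun b _ => ?_
    have hj : Continuous fun x => jac χ x (a, b) :=
      (EuclideanSpace.proj (𝕜 := ℝ) (a, b) : M3 →L[ℝ] ℝ).continuous.comp (continuous_jac l.smooth)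
    exact ((contDiff_coord h.smooth a).continuous.mul (contDiff_coord k.smooth b).continuous).mul hj
  · refine h.compact.mono (fun x hx => ?_)
    intro h0
    apply hx
    simp [h0]

/-- the trilinear form of test fields in terms of the alternating product -/
theorem test_identity (h : IsTest Ω φ) (k : IsTest Ω ψ) :
    ∫ x, ⟪tens (φ x), jac ψ x⟫_ℝ = ∫ x, ⟪alt (φ x) (ψ x), jac φ x⟫_ℝ := by
  have t1 := transport_zero h k
  have t2 := transport_zero (h.add k) h
  have t3 := transport_zero h h
  have t4 := transport_zero k h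
  have e2 : ∀ x, (∑ a, ∑ b, (φ + ψ) x a * φ x b * jac (φ + ψ) x (a, b))
      = (∑ a, ∑ b, φ x a * φ x b * jac φ x (a, b)) + (∑ a, ∑ b, ψ x a * φ x b * jac ψ x (a, b))
        + (∑ a, ∑ b, φ x a * φ x b * jac ψ x (a, b))
        + (∑ a, ∑ b, ψ x a * φ x b * jac φ x (a, b)) := by
    intro x
    rw [jac_add h.smooth k.smooth]
    simp only [← Finset.sum_add_distrib, PiLp.add_apply, Pi.add_apply]
    refine Finset.sum_congr rfl fun a _ => Finset.sum_congr rfl fun b _ => ?_
    ring
  simp_rw [e2] at t2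
  have i1 := int_tri h h h
  have i2 := int_tri k h k
  have i3 := int_tri h h k
  have i4 := int_tri k h h
  have i5 := int_tri h k h
  have i12 := i1.add i2
  have i123 := i12.add i3
  have s1 := integral_add i1 i2
  have s2 := integral_add i12 i3
  have s3 := integral_add i123 i4
  simp only [Pi.add_apply] at s1 s2 s3
  rw [s3, s2, s1, t3, t4] at t2
  have e5 : ∀ x, ⟪tens (φ x), jac ψ x⟫_ℝ = ∑ a, ∑ b, φ x a * φ x b * jac ψ x (a, b) := by
    intro x
    rw [inner_M3]
    simp only [tens_apply]
  have e6 : ∀ x, ⟪alt (φ x) (ψ x), jac φ x⟫_ℝ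
      = (∑ a, ∑ b, φ x a * ψ x b * jac φ x (a, b)) - (∑ a, ∑ b, ψ x a * φ x b * jac φ x (a, b)) := by
    intro x
    rw [inner_M3]
    simp only [alt_apply, ← Finset.sum_sub_distrib]
    refine Finset.sum_congr rfl fun a _ => Finset.sum_congr rfl fun b _ => ?_
    ring
  simp_rw [e5, e6]
  rw [integral_sub i5 i4, t1]
  linarith

end test

end Pool.Agent.TH301.EQ
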