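import Pool.Agent.TH301.EQ.Forward

/-!
One-sided conditions: times which are tame from the left.
-/

set_option autoImplicit false
set_option linter.unusedSectionVars false

open MeasureTheory Set Filter Topology
open scoped InnerProductSpace ENNReal ContDiff NNReal

namespace Pool.Agent.TH301.EQ

open H772R2.NS Pool.Agent.TH340.FF

/-- the times in `[0,T]` near which `D` is not nondecreasing -/
def falling (T : ℝ) (D : ℝ → ℝ) : Set ℝ :=
  {t | t ∈ Icc 0 T ∧ ∀ δ > 0, ∃ s₁ ∈ Icc 0 T, ∃ s₂ ∈ Icc 0 T,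
    s₁ < s₂ ∧ |s₁ - t| < δ ∧ |s₂ - t| < δ ∧ D s₂ < D s₁}

theorem mem_rising_refl {T : ℝ} {D : ℝ → ℝ} {t : ℝ} :
    t ∈ rising T (fun r => D (T - r)) ↔ T - t ∈ falling T D := by
  constructor
  · rintro ⟨ht, h⟩
    refine ⟨⟨by linarith [ht.2], by linarith [ht.1]⟩, fun δ hδ => ?_⟩
    obtain ⟨s₁, h1, s₂, h2, h3, h4, h5, h6⟩ := h δ hδ
    refine ⟨T - s₂, ⟨by linarith [h2.2], by linarith [h2.1]⟩, T - s₁,
      ⟨by linarith [h1.2], by linarith [h1.1]⟩, by linarith, ?_, ?_, h6⟩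
    · rw [show T - s₂ - (T - t) = -(s₂ - t) by ring, abs_neg]; exact h5
    · rw [show T - s₁ - (T - t) = -(s₁ - t) by ring, abs_neg]; exact h4
  · rintro ⟨ht, h⟩
    refine ⟨⟨by linarith [ht.2], by linarith [ht.1]⟩, fun δ hδ => ?_⟩
    obtain ⟨s₁, h1, s₂, h2, h3, h4, h5, h6⟩ := h δ hδ
    refine ⟨T - s₂, ⟨by linarith [h2.2], by linarith [h2.1]⟩, T - s₁,
      ⟨by linarith [h1.2], by linarith [h1.1]⟩, by linarith, ?_, ?_, ?_⟩
    · rw [show T - s₂ - t = -(s₂ - (T - t)) by ring, abs_neg]; exact h5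
    · rw [show T - s₁ - t = -(s₁ - (T - t)) by ring, abs_neg]; exact h4
    · simp only [sub_sub_cancel]
      exact h6

theorem leftOK_refl {T : ℝ} {D : ℝ → ℝ} {p : ℝ} (h : RightOK T D (T - p)) :
    LeftOK (fun r => D (T - r)) p := by
  intro ε hε hp
  obtain ⟨σ, h1, h2, h3⟩ := h ε hε (by linarith)
  refine ⟨T - σ, ⟨by linarith [h1.2], by linarith [h1.1]⟩, by linarith, ?_⟩
  simp only [sub_sub_cancel]
  exact h3

theorem rightOK_refl {T : ℝ} {D : ℝ → ℝ} {p : ℝ} (h : LeftOK D (T - p)) :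
    RightOK T (fun r => D (T - r)) p := by
  intro ε hε hp
  obtain ⟨σ, h1, h2, h3⟩ := h ε hε (by linarith)
  refine ⟨T - σ, ⟨by linarith [h1.2], by linarith [h1.1]⟩, by linarith, ?_⟩
  simp only [sub_sub_cancel]
  exact h3

theorem deriv_refl {T : ℝ} {D : ℝ → ℝ}
    (hd : ∀ᵐ x : ℝ, x ∈ Icc 0 T → ∀ d, HasDerivAt D d x → d = 0) :
    ∀ᵐ x : ℝ, x ∈ Icc 0 T → ∀ d, HasDerivAt (fun r => D (T - r)) d x → d = 0 := by
  have h := (Measure.measurePreserving_sub_left (volume : Measure ℝ) T).quasiMeasurePreserving.ae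
    hd
  filter_upwards [h] with x hx hxI d hdx
  have h1 : HasDerivAt (fun y => T - y) (-1 : ℝ) (T - x) := by
    simpa using (hasDerivAt_id (T - x)).const_sub T
  have h2 : HasDerivAt (fun r => D (T - r)) d (T - (T - x)) := by
    rwa [sub_sub_cancel]
  have h3 := h2.comp (T - x) h1
  have e : (fun r => D (T - r)) ∘ (fun y => T - y) = D := by
    funext y
    simp
  rw [e] at h3
  have := hx ⟨by linarith [hxI.2], by linarith [hxI.1]⟩ _ h3
  linarith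

/-- the times `t` of `[0,T]` such that `(∫_J g)^5 ≤ |J| (∫_J θ)^3` for all intervals
`J ⊆ [0,t)` with distance less than `|J|` from `t` -/
def tameL (T : ℝ) (g θ : ℝ → ℝ) : Set ℝ :=
  {t | t ∈ Icc 0 T ∧ ∀ x y, 0 ≤ x → x < y → y < t → t < 2 * y - x →
    (∫ τ in x..y, g τ) ^ 5 ≤ (y - x) * (∫ τ in x..y, θ τ) ^ 3}

theorem tameL_closed (T : ℝ) (g θ : ℝ → ℝ) : IsClosed (tameL T g θ) := by
  refine isClosed_of_closure_subset fun t ht => ?_
  refine ⟨?_, fun x y hx hxy hy h1 => ?_⟩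
  · have h1 : t ∈ closure (Icc 0 T) := closure_mono (fun s hs => hs.1) ht
    rwa [isClosed_Icc.closure_eq] at h1
  · rw [mem_closure_iff] at ht
    obtain ⟨b, hb1, hb2⟩ := ht (Ioo y (2 * y - x)) isOpen_Ioo ⟨hy, h1⟩
    exact hb2.2 x y hx hxy hb1.1 hb1.2

/-- The pointwise condition from the left: `(∫_J g)^5 ≤ C |J| (∫_J θ)^3` for all intervals
`J ⊆ [t - δ, t]` with distance less than `|J|` from `t`. -/
def TameLeft (g θ : ℝ → ℝ) (t : ℝ) : Prop :=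
  ∃ C δ : ℝ, 0 < δ ∧ ∀ x y, 0 ≤ x → x < y → y ≤ t → t - x ≤ δ → t - y < y - x →
    (∫ τ in x..y, g τ) ^ 5 ≤ C * (y - x) * (∫ τ in x..y, θ τ) ^ 3

theorem tameL_of_tameLeft {T : ℝ} {g θ : ℝ → ℝ} (hg0 : ∀ t, 0 ≤ g t)
    (hgi : IntervalIntegrable g volume 0 T) (hθ0 : ∀ t, 0 ≤ θ t)
    (hθi : IntervalIntegrable θ volume 0 T) {t : ℝ} (ht : t ∈ Icc 0 T)
    (h : TameLeft g θ t) : ∃ m : ℕ, t ∈ tameL T g (fun τ => m * (θ τ + 1)) := by
  obtain ⟨C, δ, hδ, h⟩ := h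
  obtain ⟨m, hm⟩ := absorb hg0 hgi hθ0 hθi C (half_pos hδ)
  refine ⟨m, ht, fun x y hx hxy hy h1 => hm x y hx hxy (hy.le.trans ht.2) ?_⟩
  rcases le_total (t - x) δ with h3 | h3
  · exact Or.inl (h x y hx hxy hy.le h3 (by linarith))
  · exact Or.inr (by linarith)

/-- backward type I implies tame from the left -/
theorem tameLeft_of_typeI {T : ℝ} {g : ℝ → ℝ} (hg0 : ∀ t, 0 ≤ g t)
    (hgi : IntervalIntegrable g volume 0 T) {t C δ : ℝ} (ht : t ∈ Icc 0 T) (hδ : 0 < δ)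
    (h : ∀ x, 0 ≤ x → x < t → t - x ≤ δ → ∫ τ in x..t, g τ ≤ C * Real.sqrt (t - x)) :
    TameLeft g g t := by
  refine ⟨2 * C ^ 2, δ, hδ, fun x y hx hxy hy h1 h2 => ?_⟩
  have hyx : 0 < y - x := by linarith
  have hyt : 0 ≤ t - x := by linarith
  have k3 := h x hx (by linarith) h1
  have k4 : ∫ τ in x..y, g τ ≤ ∫ τ in x..t, g τ :=
    int_mono_set hgi hg0 hx le_rfl hxy.le hy ht.2
  have b0 : 0 ≤ ∫ τ in x..y, g τ := intervalIntegral.integral_nonneg hxy.le fun τ _ => hg0 τ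
  have k5 := pow_le_pow_left₀ b0 (k4.trans k3) 2
  rw [mul_pow, Real.sq_sqrt hyt] at k5
  have k6 : C ^ 2 * (t - x) ≤ C ^ 2 * (2 * (y - x)) :=
    mul_le_mul_of_nonneg_left (by linarith) (by positivity)
  calc (∫ τ in x..y, g τ) ^ 5 = (∫ τ in x..y, g τ) ^ 2 * (∫ τ in x..y, g τ) ^ 3 := by ring
    _ ≤ (C ^ 2 * (2 * (y - x))) * (∫ τ in x..y, g τ) ^ 3 :=
      mul_le_mul_of_nonneg_right (k5.trans k6) (by positivity)
    _ = _ := by ring

/-- the limit case of the intervals which end at `t` -/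
theorem tameL_limit {T : ℝ} {g θ : ℝ → ℝ} (hgi : IntervalIntegrable g volume 0 T)
    (hθi : IntervalIntegrable θ volume 0 T) {t x : ℝ} (ht : t ∈ tameL T g θ) (hxt : x < t)
    (hx : 0 ≤ x) : (∫ τ in x..t, g τ) ^ 5 ≤ (t - x) * (∫ τ in x..t, θ τ) ^ 3 := by
  have hle : 𝓝[<] t ≤ 𝓝[Icc x t] t := nhdsWithin_le_of_mem (Icc_mem_nhdsLT hxt)
  have prim : ∀ {k : ℝ → ℝ}, IntervalIntegrable k volume 0 T →
      Tendsto (fun y => ∫ τ in x..y, k τ) (𝓝[<] t) (𝓝 (∫ τ in x..t, k τ)) := by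
    intro k hk
    have hc : ContinuousOn (fun y => ∫ τ in x..y, k τ) (uIcc x t) :=
      intervalIntegral.continuousOn_primitive_interval' (sub_int hk hx hxt.le ht.1.2) left_mem_uIcc
    have h1 := hc t right_mem_uIcc
    rw [uIcc_of_le hxt.le] at h1
    exact h1.tendsto.mono_left hle
  have t1 := (prim hgi).pow 5
  have t2 : Tendsto (fun y => y - x) (𝓝[<] t) (𝓝 (t - x)) :=
    ((continuous_id.sub continuous_const).tendsto t).mono_left nhdsWithin_le_nhds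
  have t3 := t2.mul ((prim hθi).pow 3)
  refine le_of_tendsto_of_tendsto t1 t3 ?_
  have hev : Ioo ((x + t) / 2) t ∈ 𝓝[<] t := Ioo_mem_nhdsLT (by linarith)
  filter_upwards [hev] with y hy
  exact ht.2 x y hx (by linarith [hy.1]) hy.2 (by linarith [hy.1])

variable {Ω : Set E3} {ν T M : ℝ} {u : ℝ → L2V Ω} {G : ℝ → L2M Ω} {f : ℝ → L2V Ω} {θ : ℝ → ℝ}

theorem chL_tameL (hΩ : IsOpen Ω) (hν : 0 ≤ ν) (hT : 0 < T) (h : IsWeakSolution Ω ν T u G f)
    (hM : ∀ t ∈ Icc 0 T, ‖u t‖ ≤ M) (hθ0 : ∀ t, 0 ≤ θ t)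
    (hθ : IntervalIntegrable θ volume 0 T) {t : ℝ} (ht : t ∈ tameL T (fun τ => ‖G τ‖ ^ 2) θ) :
    ChL T (fun t => ‖u t‖ ^ 2 / 2) (fun r q => ⟪u r - u q, u r⟫_ℝ) (fun τ => ‖G τ‖ ^ 2)
      (wt1 ν M G f θ) t where
  ec := ec_norm u
  γ0 := fun τ => by positivity
  γi := G2_ii hΩ hν hT h hM
  ψ0 := wt1_nonneg hν hT hM hθ0
  ψi := wt1_ii hΩ hν hT h hM hθ
  lim := lim_norm h ht.1
  loc := fun x y h1 h2 h3 h4 => by
    refine loc_of_ineq hΩ hν hT h hM hθ0 hθ h1 h2 (h3.trans ht.1.2) ?_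
    rcases eq_or_lt_of_le h3 with h5 | h5
    · rw [h5]
      exact tameL_limit (G2_ii hΩ hν hT h hM) hθ ht (h5 ▸ h2) h1
    · exact ht.2 x y h1 h2 h5 (by linarith)

/-- the increments of the defect to the left of a time which is tame from the left -/
theorem backward_bound (hΩ : IsOpen Ω) (hν : 0 ≤ ν) (hT : 0 < T) (h : IsWeakSolution Ω ν T u G f)
    (hM : ∀ t ∈ Icc 0 T, ‖u t‖ ≤ M) (hθ0 : ∀ t, 0 ≤ θ t)
    (hθ : IntervalIntegrable θ volume 0 T) {s t : ℝ} (ht : t ∈ tameL T (fun τ => ‖G τ‖ ^ 2) θ)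
    (h0 : 0 ≤ s) (hst : s ≤ t) (htT : t ≤ T) :
    defect ν u G f s - defect ν u G f t ≤ ∫ τ in s..t, wt2 ν M u G f θ τ := by
  have S := h.toSol hΩ hν hT hM
  rcases eq_or_lt_of_le hst with h1 | h1
  · rw [h1]; simp
  obtain ⟨ρ, a1, a3, a4⟩ := (chL_tameL hΩ hν hT h hM hθ0 hθ ht).left h0 h1 htT
  have c1 := a3 s ⟨le_rfl, h1.le⟩
  have c2 := ec_norm u ρ s
  have c3 := sq_increment (u ρ) (u s)
  have c4 : 0 ≤ ‖u ρ - u s‖ ^ 2 := by positivity
  have c5 := le_abs_self ⟪u ρ - u s, u ρ⟫_ℝ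
  have c6 := neg_abs_le (‖u ρ‖ ^ 2 / 2 - ‖u t‖ ^ 2 / 2)
  have e0 := S.defect_sub h0 hst htT
  rw [wt2_eq hΩ hν hT h hM hθ h0 hst htT]
  have d1 : |∫ τ in s..t, pow ν u G f τ| ≤ ∫ τ in s..t, |pow ν u G f τ| :=
    intervalIntegral.abs_integral_le_integral_abs hst
  have d2 := neg_abs_le (∫ τ in s..t, pow ν u G f τ)
  have d4 : 0 ≤ ∫ τ in s..t, wt1 ν M G f θ τ :=
    intervalIntegral.integral_nonneg hst fun τ _ => wt1_nonneg hν hT hM hθ0 τ
  linarith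

theorem mem_tameL_wk (hΩ : IsOpen Ω) (hν : 0 ≤ ν) (hT : 0 < T) (h : IsWeakSolution Ω ν T u G f)
    (hM : ∀ t ∈ Icc 0 T, ‖u t‖ ≤ M) {θ : ℕ → ℝ → ℝ} (hθ0 : ∀ n t, 0 ≤ θ n t)
    (hθ : ∀ n, IntervalIntegrable (θ n) volume 0 T) {t : ℝ} (ht : t ∈ Icc 0 T) {n : ℕ}
    (hn : TameLeft (fun τ => ‖G τ‖ ^ 2) (θ n) t) :
    ∃ k, t ∈ tameL T (fun τ => ‖G τ‖ ^ 2) (wk θ k) := by
  obtain ⟨m, hm⟩ := tameL_of_tameLeft (fun τ => by positivity) (G2_ii hΩ hν hT h hM) (hθ0 n)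
    (hθ n) ht hn
  refine ⟨Nat.pair n m, ?_⟩
  have e : wk θ (Nat.pair n m) = fun τ => (m : ℝ) * (θ n τ + 1) := by
    funext τ
    unfold wk
    rw [Nat.unpair_pair]
  rw [e]
  exact hm

/-- **Category.** -/
theorem backward_dense (hΩ : IsOpen Ω) (hν : 0 ≤ ν) (hT : 0 < T)
    (h : IsWeakSolution Ω ν T u G f)
    {θ : ℕ → ℝ → ℝ} (hθ0 : ∀ n t, 0 ≤ θ n t) (hθ : ∀ n, IntervalIntegrable (θ n) volume 0 T)
    {N : Set ℝ} (hN : N.Countable) (hJ : ∀ t ∈ N, NoJumpLeft u t)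
    (hR : ∀ t ∈ falling T (defect ν u G f), NoJumpRight T u t) :
    ∀ t₀ ∈ falling T (defect ν u G f), ∀ δ > 0, ∃ t ∈ falling T (defect ν u G f),
      |t - t₀| < δ ∧ t ∉ N ∧ ∀ n, ¬ TameLeft (fun τ => ‖G τ‖ ^ 2) (θ n) t := by
  obtain ⟨M, hM⟩ := h.bdd
  have S := h.toSol hΩ hν hT hM
  set D := defect ν u G f with hD
  set D' : ℝ → ℝ := fun r => D (T - r) with hD'
  have hmem : ∀ p, p ∈ rising T D' → T - p ∈ falling T D := fun p hp => mem_rising_refl.mp hp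
  have hL' : ∀ p ∈ rising T D', LeftOK D' p := fun p hp =>
    leftOK_refl (right_nojump hΩ hν hT h hM (hmem p hp).1 (hR _ (hmem p hp)))
  have cont : Continuous fun r : ℝ => T - r := continuous_const.sub continuous_id
  have key := closed_dense (rising_closed T D')
    (F := fun k => {r | T - r ∈ tameL T (fun τ => ‖G τ‖ ^ 2) (wk θ k)})
    (N := {r | T - r ∈ N}) ?_ (fun k => (tameL_closed _ _ _).preimage cont) ?_ ?_
  · intro t₀ ht₀ δ hδ
    have ht₀' : T - t₀ ∈ rising T D' := by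
      rw [mem_rising_refl, sub_sub_cancel]
      exact ht₀
    obtain ⟨r, hr, h1, h2, h3⟩ := key (T - t₀) ht₀' δ hδ
    refine ⟨T - r, hmem r hr, ?_, h2, fun n hn => ?_⟩
    · rw [show T - r - t₀ = -(r - (T - t₀)) by ring, abs_neg]
      exact h1
    · obtain ⟨k, hk⟩ := mem_tameL_wk hΩ hν hT h hM hθ0 hθ (hmem r hr).1 hn
      exact h3 k hk
  · have : {r | T - r ∈ N} = (fun r => T - r) '' N := by
      ext r
      constructor
      · intro hr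
        exact ⟨T - r, hr, by simp⟩
      · rintro ⟨y, hy, rfl⟩
        change T - (T - y) ∈ N
        rwa [sub_sub_cancel]
    rw [this]
    exact hN.image _
  · intro k t₀ ht₀ δ hδ
    by_contra hcon
    push Not at hcon
    refine rising_portion (ψ := fun r => wt2 ν M u G f (wk θ k) (T - r))
      (fun r => wt2_nonneg hν hT hM (wk_nonneg hθ0 k) _)
      (refl_ii (wt2_ii hΩ hν hT h hM (wk_ii hθ k))) ?_ hL' (deriv_refl S.deriv_zero) ht₀.1 hδ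
      hcon ht₀
    intro s hs t h0 hst htT
    have k1 := backward_bound hΩ hν hT h hM (wk_nonneg hθ0 k) (wk_ii hθ k) (s := T - t) hs
      (by linarith) (by linarith) (by linarith)
    rw [refl_int (wt2 ν M u G f (wk θ k)) T s t]
    exact k1
  · intro t₀ ht₀ hN₀ δ hδ
    by_contra hcon
    push Not at hcon
    exact rising_isolated hδ (hL' t₀ ht₀)
      (rightOK_refl (left_nojump hΩ hν hT h hM (hmem t₀ ht₀).1 (hJ _ hN₀))) hcon ht₀

/-- **The defect is nondecreasing.** -/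
theorem backward_mono (hΩ : IsOpen Ω) (hν : 0 ≤ ν) (hT : 0 < T)
    (h : IsWeakSolution Ω ν T u G f)
    {θ : ℕ → ℝ → ℝ} (hθ0 : ∀ n t, 0 ≤ θ n t) (hθ : ∀ n, IntervalIntegrable (θ n) volume 0 T)
    {N : Set ℝ} (hN : N.Countable) (hJ : ∀ t ∈ N, NoJumpLeft u t)
    (hR : ∀ t ∈ falling T (defect ν u G f), NoJumpRight T u t)
    (hall : ∀ t ∈ falling T (defect ν u G f), t ∈ N ∨
      ∃ n, TameLeft (fun τ => ‖G τ‖ ^ 2) (θ n) t) :
    ∀ s t, 0 ≤ s → s ≤ t → t ≤ T → defect ν u G f s ≤ defect ν u G f t := by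
  have hempty : ∀ t, t ∉ falling T (defect ν u G f) := by
    intro t₀ ht₀
    obtain ⟨t, ht, _, h2, h3⟩ := backward_dense hΩ hν hT h hθ0 hθ hN hJ hR t₀ ht₀ 1 one_pos
    rcases hall t ht with h4 | ⟨n, h4⟩
    · exact h2 h4
    · exact h3 n h4
  intro s t hs hst ht
  have key := anti_of_not_rising (D := fun r => defect ν u G f (T - r)) (T := T) (a := T - t)
    (b := T - s) (by linarith) (by linarith) (by linarith)
    (fun x _ hx => hempty _ (mem_rising_refl.mp hx))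
  simp only [sub_sub_cancel] at key
  exact key

end Pool.Agent.TH301.EQ
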