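import Pool.Agent.TH340.FF.Ac2

/-!
Chaining towards one point.
-/

set_option autoImplicit false

open MeasureTheory Set Filter Topology

namespace Pool.Agent.TH301.EQ

open Pool.Agent.TH340.FF

/-- the bound of `c` on one interval -/
def Loc (c : ℝ → ℝ → ℝ) (γ ψ : ℝ → ℝ) (x y : ℝ) : Prop :=
  ∃ a : ℝ, 0 ≤ a ∧ a * (∫ τ in x..y, γ τ) ≤ ∫ τ in x..y, ψ τ ∧
    ∀ᵐ r : ℝ, r ∈ Ioo x y → ∀ q ∈ Icc x y,
      |c r q| ≤ a * ((∫ τ in x..y, γ τ) + (y - x) * γ r) + ∫ τ in x..y, ψ τ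

/-- The hypotheses at the point `s`, from the right -/
structure ChR (T : ℝ) (E : ℝ → ℝ) (c : ℝ → ℝ → ℝ) (γ ψ : ℝ → ℝ) (s : ℝ) : Prop where
  ec : ∀ r q, E r - E q = (c r q - c q r) / 2
  γ0 : ∀ t, 0 ≤ γ t
  γi : IntervalIntegrable γ volume 0 T
  ψ0 : ∀ t, 0 ≤ ψ t
  ψi : IntervalIntegrable ψ volume 0 T
  lim : Tendsto (c s) (𝓝[Icc 0 T] s) (𝓝 0)
  loc : ∀ x y, s ≤ x → x < y → y ≤ T → x - s < y - x → Loc c γ ψ x y

theorem ec_bound {E : ℝ → ℝ} {c : ℝ → ℝ → ℝ} (ec : ∀ r q, E r - E q = (c r q - c q r) / 2)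
    {r q a b : ℝ} (h1 : |c r q| ≤ a) (h2 : |c q r| ≤ b) : |E r - E q| ≤ (a + b) / 2 := by
  rw [ec, abs_div, abs_two]
  have := abs_sub (c r q) (c q r)
  linarith

/-- from the right of `s` -/
theorem ChR.right {T : ℝ} {E : ℝ → ℝ} {c : ℝ → ℝ → ℝ} {γ ψ : ℝ → ℝ} {s : ℝ}
    (H : ChR T E c γ ψ s) {t : ℝ} (hs : 0 ≤ s) (hst : s < t) (ht : t ≤ T) :
    ∃ σ ∈ Ioo ((s + t) / 2) t, (∀ q ∈ Icc s t, |c σ q| ≤ 4 * ∫ τ in s..t, ψ τ) ∧
      |E σ - E s| ≤ 8 * ∫ r in s..t, ψ r := by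
  set L := t - s with hL
  have hL0 : 0 < L := by linarith
  set h : ℕ → ℝ := fun k => L / 2 ^ k with hh
  have hh0 : ∀ k, 0 < h k := fun k => by simp only [hh]; positivity
  have hh1 : ∀ k, h (k + 1) = h k / 2 := fun k => by simp only [hh]; rw [pow_succ]; field_simp
  have hh2 : ∀ k, h (k + 2) = h k / 4 := fun k => by
    rw [show k + 2 = k + 1 + 1 from rfl, hh1, hh1]; ring
  have hhL : ∀ k, h k ≤ L := fun k => by
    simp only [hh]
    exact div_le_self hL0.le (one_le_pow₀ (by norm_num))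
  have hlim : Tendsto h atTop (𝓝 0) := by
    have h1 : Tendsto (fun k : ℕ => L * (1 / 2 : ℝ) ^ k) atTop (𝓝 (L * 0)) :=
      (tendsto_pow_atTop_nhds_zero_of_lt_one (by norm_num) (by norm_num)).const_mul L
    rw [mul_zero] at h1
    refine h1.congr fun k => ?_
    simp only [hh]
    rw [one_div, inv_pow]
    rfl
  -- the constants
  have hJ : ∀ k : ℕ, Loc c γ ψ (s + h (k + 2)) (s + h k) := fun k =>
    H.loc (s + h (k + 2)) (s + h k) (by linarith [hh0 (k + 2)])
        (by rw [hh2]; linarith [hh0 k]) (by linarith [hhL k]) (by rw [hh2]; linarith [hh0 k])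
  have hJ' : ∀ k : ℕ, Loc c γ ψ s (s + h k) := fun k =>
    H.loc s (s + h k) le_rfl (by linarith [hh0 k]) (by linarith [hhL k]) (by linarith [hh0 k])
  choose a ha0 ha1 ha2 using hJ
  choose a' ha0' ha1' ha2' using hJ'
  -- good points
  set good : Set ℝ := {r | ∀ k : ℕ,
    (r ∈ Ioo (s + h (k + 2)) (s + h k) → ∀ q ∈ Icc (s + h (k + 2)) (s + h k),
      |c r q| ≤ a k * ((∫ τ in (s + h (k + 2))..(s + h k), γ τ)
        + (s + h k - (s + h (k + 2))) * γ r) + ∫ τ in (s + h (k + 2))..(s + h k), ψ τ) ∧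
    (r ∈ Ioo s (s + h k) → ∀ q ∈ Icc s (s + h k),
      |c r q| ≤ a' k * ((∫ τ in s..(s + h k), γ τ) + (s + h k - s) * γ r)
        + ∫ τ in s..(s + h k), ψ τ)} with hgood
  have gd : ∀ᵐ r : ℝ, r ∈ Ioo 0 T → r ∈ good := by
    filter_upwards [ae_all_iff.mpr ha2, ae_all_iff.mpr ha2'] with r r1 r2 _
    exact fun k => ⟨r1 k, r2 k⟩
  -- the points
  have hex : ∀ k : ℕ, ∃ σ ∈ Ioo (s + h (k + 1)) (s + h k), σ ∈ good ∧
      h k * γ σ ≤ 2 * ∫ r in (s + h (k + 1))..(s + h k), γ r := by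
    intro k
    obtain ⟨σ, h1, h2, h3⟩ := exists_good gd H.γi (x := s + h (k + 1)) (y := s + h k)
      (by linarith [hh0 (k + 1)]) (by rw [hh1]; linarith [hh0 k]) (by linarith [hhL k])
    refine ⟨σ, h1, h2, ?_⟩
    have e1 : s + h k - (s + h (k + 1)) = h k / 2 := by rw [hh1]; ring
    rw [e1] at h3
    linarith
  choose σ hσI hσg hσγ using hex
  have hσ0 : ∀ k, 0 ≤ σ k := fun k => by linarith [(hσI k).1, hh0 (k + 1)]
  have hσT : ∀ k, σ k ≤ T := fun k => by linarith [(hσI k).2, hhL k]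
  have hσs : ∀ k, s < σ k := fun k => by linarith [(hσI k).1, hh0 (k + 1)]
  have hint : ∀ {g : ℝ → ℝ}, IntervalIntegrable g volume 0 T →
      ∀ k l : ℕ, IntervalIntegrable g volume (s + h k) (s + h l) := fun hg k l => by
    refine hg.mono_set ?_
    rw [uIcc_of_le (hs.trans (hst.le.trans ht))]
    intro r hr
    have h5 := hr.1
    have h6 := hr.2
    have h7 : 0 ≤ min (s + h k) (s + h l) := le_min (by linarith [hh0 k]) (by linarith [hh0 l])
    have h8 : max (s + h k) (s + h l) ≤ T := max_le (by linarith [hhL k]) (by linarith [hhL l])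
    exact ⟨h7.trans h5, h6.trans h8⟩
  -- one step
  have hstep : ∀ n : ℕ, |E (σ n) - E (σ (n + 1))|
      ≤ 4 * ∫ r in (s + h (n + 2))..(s + h n), ψ r := by
    intro n
    have hn0 := hh0 n
    have a1 : s + h (n + 2) < σ (n + 1) := (hσI (n + 1)).1
    have a2 : σ (n + 1) < s + h (n + 1) := (hσI (n + 1)).2
    have a3 := (hσI n).1
    have a4 := (hσI n).2
    have a5 : s + h (n + 1) < s + h n := by rw [hh1]; linarith
    have m1 : σ n ∈ Ioo (s + h (n + 2)) (s + h n) := ⟨by linarith, a4⟩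
    have m2 : σ (n + 1) ∈ Ioo (s + h (n + 2)) (s + h n) := ⟨a1, by linarith⟩
    have b1 := (hσg n n).1 m1 _ (Ioo_subset_Icc_self m2)
    have b2 := (hσg (n + 1) n).1 m2 _ (Ioo_subset_Icc_self m1)
    refine (ec_bound H.ec b1 b2).trans ?_
    have e1 := intervalIntegral.integral_add_adjacent_intervals (hint H.γi (n + 2) (n + 1))
      (hint H.γi (n + 1) n)
    have c1 := hσγ n
    have c2 := hσγ (n + 1)
    have e5 : s + h (n + 1 + 1) = s + h (n + 2) := rfl
    rw [e5] at c2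
    have e6 : h (n + 1) = h n / 2 := hh1 n
    have e7 : h (n + 2) = h n / 4 := hh2 n
    have e8 : s + h n - (s + h (n + 2)) = 3 / 4 * h n := by rw [e7]; ring
    rw [e8]
    have i1 : 0 ≤ ∫ r in (s + h (n + 1))..(s + h n), γ r :=
      intervalIntegral.integral_nonneg a5.le fun r _ => H.γ0 r
    have i2 : 0 ≤ ∫ r in (s + h (n + 2))..(s + h (n + 1)), γ r :=
      intervalIntegral.integral_nonneg (by linarith) fun r _ => H.γ0 r
    have i3 : 0 ≤ ∫ r in (s + h (n + 2))..(s + h n), ψ r :=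
      intervalIntegral.integral_nonneg (by linarith) fun r _ => H.ψ0 r
    rw [show h (n + 1) * γ (σ (n + 1)) = h n * γ (σ (n + 1)) / 2 by rw [e6]; ring] at c2
    set I := ∫ r in (s + h (n + 2))..(s + h n), γ r with hI
    have c3 : 3 / 4 * h n * γ (σ n) + 3 / 4 * h n * γ (σ (n + 1)) ≤ 3 * I := by linarith
    have c4 : a n * (I + 3 / 4 * h n * γ (σ n)) + a n * (I + 3 / 4 * h n * γ (σ (n + 1)))
        ≤ 5 * (a n * I) := by
      have := mul_le_mul_of_nonneg_left c3 (ha0 n)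
      linarith
    have c5 := ha1 n
    linarith
  -- the chain
  have hchain : ∀ n : ℕ, |E (σ 0) - E (σ n)| ≤ 4 * ((∫ r in (s + h n)..(s + h 0), ψ r)
        + ∫ r in (s + h (n + 1))..(s + h 1), ψ r) := by
    intro n
    induction n with
    | zero => simp
    | succ n ih =>
      have h3 := hstep n
      have e1 := intervalIntegral.integral_add_adjacent_intervals (hint H.ψi (n + 2) (n + 1))
        (hint H.ψi (n + 1) n)
      have e2 := intervalIntegral.integral_add_adjacent_intervals (hint H.ψi (n + 1) n)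
        (hint H.ψi n 0)
      have e3 := intervalIntegral.integral_add_adjacent_intervals (hint H.ψi (n + 2) (n + 1))
        (hint H.ψi (n + 1) 1)
      have h12 : |E (σ 0) - E (σ (n + 1))| ≤ |E (σ 0) - E (σ n)| + |E (σ n) - E (σ (n + 1))| :=
        abs_sub_le _ _ _
      have e4 : s + h (n + 1 + 1) = s + h (n + 2) := rfl
      rw [e4, ← e2, ← e3]
      linarith
  have eh0 : s + h 0 = t := by simp only [hh]; rw [pow_zero, div_one, hL]; ring
  -- the points in the large intervals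
  have hbig : ∀ n, ∀ q ∈ Icc s (s + h n), |c (σ n) q| ≤ 4 * ∫ r in s..(s + h n), ψ r := by
    intro n q hq
    have b1 := (hσg n n).2 ⟨hσs n, (hσI n).2⟩ q hq
    have c2 := int_mono_set H.γi H.γ0 hs (by linarith [hh0 (n + 1)] : s ≤ s + h (n + 1))
      (by rw [hh1]; linarith [hh0 n] : s + h (n + 1) ≤ s + h n) le_rfl (by linarith [hhL n])
    have c3 := hσγ n
    have e1 : s + h n - s = h n := by ring
    rw [e1] at b1
    set I := ∫ r in s..(s + h n), γ r with hI
    have c4 : a' n * (I + h n * γ (σ n)) ≤ 3 * (a' n * I) := by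
      have := mul_le_mul_of_nonneg_left (show I + h n * γ (σ n) ≤ 3 * I by linarith) (ha0' n)
      linarith
    have c5 := ha1' n
    linarith
  refine ⟨σ 0, ⟨?_, ?_⟩, ?_, ?_⟩
  · have h1 := (hσI 0).1
    have e2 : s + h (0 + 1) = (s + t) / 2 := by
      rw [hh1]
      have : h 0 = L := by simp [hh]
      rw [this, hL]
      ring
    rw [e2] at h1
    exact h1
  · have := (hσI 0).2
    rwa [eh0] at this
  · intro q hq
    have h1 := hbig 0 q (by rwa [eh0])
    rwa [eh0] at h1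
  · -- the limit
    have hbd : ∀ n, |E (σ 0) - E s| ≤ 8 * (∫ r in s..t, ψ r)
        + (2 * (∫ r in s..(s + h n), ψ r) + |c s (σ n)|) := by
      intro n
      have b1 := hchain n
      have b2 : |E (σ n) - E s| ≤ (4 * (∫ τ in s..(s + h n), ψ τ) + |c s (σ n)|) / 2 :=
        ec_bound H.ec (hbig n s ⟨le_rfl, by linarith [hh0 n]⟩) le_rfl
      have b4 : ∫ r in (s + h n)..(s + h 0), ψ r ≤ ∫ r in s..t, ψ r := by
        rw [eh0]
        exact int_mono_set H.ψi H.ψ0 hs (by linarith [hh0 n]) (by linarith [hhL n]) le_rfl ht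
      have b5 : ∫ r in (s + h (n + 1))..(s + h 1), ψ r ≤ ∫ r in s..t, ψ r := by
        refine int_mono_set H.ψi H.ψ0 hs (by linarith [hh0 (n + 1)]) ?_ (by linarith [hhL 1]) ht
        have : h (n + 1) ≤ h 1 := by
          simp only [hh]
          exact div_le_div_of_nonneg_left hL0.le (by positivity)
            (pow_le_pow_right₀ (by norm_num) (by omega))
        linarith
      have b9 : |E (σ 0) - E s| ≤ |E (σ 0) - E (σ n)| + |E (σ n) - E s| := abs_sub_le _ _ _
      have b10 : 0 ≤ |c s (σ n)| := abs_nonneg _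
      linarith
    -- limits
    have hprim : Tendsto (fun n => ∫ r in s..(s + h n), ψ r) atTop (𝓝 0) := by
      have hc : ContinuousOn (fun x => ∫ r in s..x, ψ r) (uIcc s t) :=
        intervalIntegral.continuousOn_primitive_interval' (sub_int H.ψi hs hst.le ht) left_mem_uIcc
      have h5 : ContinuousWithinAt (fun x => ∫ r in s..x, ψ r) (Icc s t) s := by
        have := hc s left_mem_uIcc
        rwa [uIcc_of_le hst.le] at this
      have h6 : Tendsto (fun n => s + h n) atTop (𝓝[Icc s t] s) := by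
        refine tendsto_nhdsWithin_iff.2 ⟨?_, Eventually.of_forall fun n => ?_⟩
        · have := hlim.const_add s
          rwa [add_zero] at this
        · exact ⟨by linarith [hh0 n], by linarith [hhL n]⟩
      have h7 := h5.tendsto.comp h6
      simpa [Function.comp_def] using h7
    have hRl : Tendsto (fun n => |c s (σ n)|) atTop (𝓝 0) := by
      have h8 : Tendsto (fun n => c s (σ n)) atTop (𝓝 0) := by
        refine H.lim.comp (tendsto_nhdsWithin_iff.2 ⟨?_, Eventually.of_forall fun n =>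
          ⟨hσ0 n, hσT n⟩⟩)
        refine tendsto_of_tendsto_of_tendsto_of_le_of_le tendsto_const_nhds
          (h := fun n => s + h n) ?_ (fun n => (hσs n).le) (fun n => (hσI n).2.le)
        have := hlim.const_add s
        rwa [add_zero] at this
      have := h8.abs
      rwa [abs_zero] at this
    have htot : Tendsto (fun n => 8 * (∫ r in s..t, ψ r)
        + (2 * (∫ r in s..(s + h n), ψ r) + |c s (σ n)|)) atTop
        (𝓝 (8 * (∫ r in s..t, ψ r) + (2 * 0 + 0))) :=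
      ((hprim.const_mul 2).add hRl).const_add _
    have := ge_of_tendsto' htot hbd
    linarith

/-- The hypotheses at the point `t`, from the left -/
structure ChL (T : ℝ) (E : ℝ → ℝ) (c : ℝ → ℝ → ℝ) (γ ψ : ℝ → ℝ) (t : ℝ) : Prop where
  ec : ∀ r q, E r - E q = (c r q - c q r) / 2
  γ0 : ∀ t, 0 ≤ γ t
  γi : IntervalIntegrable γ volume 0 T
  ψ0 : ∀ t, 0 ≤ ψ t
  ψi : IntervalIntegrable ψ volume 0 T
  lim : Tendsto (c t) (𝓝[Icc 0 T] t) (𝓝 0)
  loc : ∀ x y, 0 ≤ x → x < y → y ≤ t → t - y < y - x → Loc c γ ψ x y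

theorem refl_ii {T : ℝ} {g : ℝ → ℝ} (h : IntervalIntegrable g volume 0 T) :
    IntervalIntegrable (fun r => g (T - r)) volume 0 T := by
  have := h.comp_sub_left T
  rw [sub_self, sub_zero] at this
  exact this.symm

/-- reflection -/
theorem ChL.refl {T : ℝ} {E : ℝ → ℝ} {c : ℝ → ℝ → ℝ} {γ ψ : ℝ → ℝ} {t : ℝ}
    (H : ChL T E c γ ψ t) :
    ChR T (fun r => E (T - r)) (fun r q => c (T - r) (T - q)) (fun r => γ (T - r))
      (fun r => ψ (T - r)) (T - t) where
  ec := fun r q => H.ec _ _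
  γ0 := fun t => H.γ0 _
  γi := refl_ii H.γi
  ψ0 := fun t => H.ψ0 _
  ψi := refl_ii H.ψi
  lim := by
    rw [sub_sub_cancel]
    refine H.lim.comp ?_
    refine tendsto_nhdsWithin_iff.2 ⟨?_, ?_⟩
    · have h1 : Tendsto (fun r : ℝ => T - r) (𝓝 (T - t)) (𝓝 (T - (T - t))) :=
        (continuous_const.sub continuous_id).tendsto (T - t)
      rw [sub_sub_cancel] at h1
      exact h1.mono_left nhdsWithin_le_nhds
    · filter_upwards [self_mem_nhdsWithin] with r hr
      exact ⟨by linarith [hr.2], by linarith [hr.1]⟩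
  loc := fun x y h1 h2 h3 h4 => by
    obtain ⟨a, h0, h5, h⟩ := H.loc (T - y) (T - x) (by linarith) (by linarith) (by linarith)
      (by linarith)
    refine ⟨a, h0, ?_, ?_⟩
    · rw [refl_int γ T x y, refl_int ψ T x y]
      exact h5
    have h' := (Measure.measurePreserving_sub_left (volume : Measure ℝ) T).quasiMeasurePreserving.ae
      h
    filter_upwards [h'] with r hr hrI q hq
    have k := hr ⟨by linarith [hrI.2], by linarith [hrI.1]⟩ (T - q)
      ⟨by linarith [hq.2], by linarith [hq.1]⟩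
    rw [refl_int γ T x y, refl_int ψ T x y]
    have e1 : T - x - (T - y) = y - x := by ring
    rw [e1] at k
    exact k

/-- from the left of `t` -/
theorem ChL.left {T : ℝ} {E : ℝ → ℝ} {c : ℝ → ℝ → ℝ} {γ ψ : ℝ → ℝ} {t : ℝ}
    (H : ChL T E c γ ψ t) {s : ℝ} (hs : 0 ≤ s) (hst : s < t) (ht : t ≤ T) :
    ∃ ρ ∈ Ioo s ((s + t) / 2), (∀ q ∈ Icc s t, |c ρ q| ≤ 4 * ∫ τ in s..t, ψ τ) ∧
      |E ρ - E t| ≤ 8 * ∫ r in s..t, ψ r := by
  obtain ⟨σ, h1, h3, h4⟩ := H.refl.right (t := T - s) (by linarith) (by linarith) (by linarith)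
  rw [refl_int ψ T, sub_sub_cancel, sub_sub_cancel] at h4
  refine ⟨T - σ, ⟨by linarith [h1.2], by linarith [h1.1]⟩, fun q hq => ?_, h4⟩
  have h5 := h3 (T - q) ⟨by linarith [hq.2], by linarith [hq.1]⟩
  rw [refl_int ψ T, sub_sub_cancel, sub_sub_cancel, sub_sub_cancel] at h5
  exact h5

/-- the two-sided bound -/
theorem ch_bound {T : ℝ} {E : ℝ → ℝ} {c : ℝ → ℝ → ℝ} {γ ψ : ℝ → ℝ} {s t : ℝ}
    (H : ChR T E c γ ψ s) (H' : ChL T E c γ ψ t) (hs : 0 ≤ s) (hst : s ≤ t) (ht : t ≤ T) :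
    |E t - E s| ≤ 20 * ∫ r in s..t, ψ r := by
  rcases eq_or_lt_of_le hst with h0 | h0
  · rw [h0]; simp
  obtain ⟨σ, a1, a3, a4⟩ := H.right hs h0 ht
  obtain ⟨ρ, b1, b3, b4⟩ := H'.left hs h0 ht
  have c1 := a3 ρ ⟨b1.1.le, by linarith [b1.2]⟩
  have c2 := b3 σ ⟨by linarith [a1.1], a1.2.le⟩
  have c3 := ec_bound H.ec c1 c2
  have c4 : |E t - E s| ≤ |E t - E ρ| + |E ρ - E σ| + |E σ - E s| := by
    have := abs_sub_le (E t) (E ρ) (E s)
    have := abs_sub_le (E ρ) (E σ) (E s)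
    linarith
  rw [abs_sub_comm (E t) (E ρ), abs_sub_comm (E ρ) (E σ)] at c4
  linarith

end Pool.Agent.TH301.EQ
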