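import Pool.Agent.H772R2.NS.Build
import Pool.Agent.TH340.FF.Ac2

/-!
Energy equality from the time correlations of the velocity.
-/

set_option autoImplicit false

open MeasureTheory Set Filter Topology
open scoped InnerProductSpace ContDiff

namespace Pool.Agent.TH301.EQ

open H772R2.NS Pool.Agent.TH340.FF

variable {Ω : Set E3}

/-- **Correlation criterion.** -/
theorem energy_eq_corr (hΩ : IsOpen Ω) {ν T : ℝ} (hν : 0 ≤ ν) (hT : 0 < T)
    {u : ℝ → L2V Ω} {G : ℝ → L2M Ω} {f : ℝ → L2V Ω} (h : IsWeakSolution Ω ν T u G f)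
    {ψ : ℝ → ℝ} (hψ0 : ∀ t, 0 ≤ ψ t) (hψ : IntegrableOn ψ (Ioo 0 T))
    (hp : ∀ᵐ t ∂(volume.restrict (Ioo 0 T)), ∀ s ∈ Icc 0 T,
      |⟪u t - u s, u t⟫_ℝ| ≤ |∫ r in s..t, ψ r| + |s - t| * ψ t) :
    ∀ t ∈ Icc 0 T, energyDefect ν u G f t = 0 := by
  obtain ⟨M, hM⟩ := h.bdd
  have S := h.toSol hΩ hν hT hM
  have hψi : IntervalIntegrable ψ volume 0 T := by
    rw [intervalIntegrable_iff_integrableOn_Ioc_of_le hT.le, IntegrableOn, restrict_Ioc_eq]
    exact hψ
  have H : AcH T 1 (fun t => ‖u t‖ ^ 2 / 2) ψ ψ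
      {t | t ∈ Icc 0 T ∧ ∀ s ∈ Icc 0 T,
        |⟪u t - u s, u t⟫_ℝ| ≤ |∫ r in s..t, ψ r| + |s - t| * ψ t} :=
    { A0 := zero_le_one
      gd := by
        rw [ae_restrict_iff' measurableSet_Ioo] at hp
        filter_upwards [hp] with t ht hI
        exact ⟨Ioo_subset_Icc_self hI, ht hI⟩
      ψ0 := hψ0
      g0 := hψ0
      ψi := hψi
      gi := hψi
      h1 := by
        intro s hs t ht h0 hst htT
        have e1 := ht.2 s hs.1
        have e2 := hs.2 t ht.1
        have i0 : 0 ≤ ∫ r in s..t, ψ r := intervalIntegral.integral_nonneg hst fun r _ => hψ0 r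
        have i1 : |s - t| = t - s := by
          rw [abs_sub_comm, abs_of_nonneg (by linarith)]
        have i2 : |t - s| = t - s := abs_of_nonneg (by linarith)
        have i3 : |∫ r in t..s, ψ r| = ∫ r in s..t, ψ r := by
          rw [intervalIntegral.integral_symm, abs_neg, abs_of_nonneg i0]
        rw [abs_of_nonneg i0, i1] at e1
        rw [i3, i2] at e2
        have e3 : ‖u t‖ ^ 2 / 2 - ‖u s‖ ^ 2 / 2
            = (⟪u t - u s, u t⟫_ℝ - ⟪u s - u t, u s⟫_ℝ) / 2 := by
          rw [inner_sub_left, inner_sub_left, real_inner_self_eq_norm_sq,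
            real_inner_self_eq_norm_sq, real_inner_comm (u t) (u s)]
          ring
        rw [e3, abs_div, abs_two]
        have e4 := abs_sub ⟪u t - u s, u t⟫_ℝ ⟪u s - u t, u s⟫_ℝ
        have e5 : 0 ≤ (t - s) * (ψ s + ψ t) :=
          mul_nonneg (by linarith) (add_nonneg (hψ0 s) (hψ0 t))
        have e6 : 1 * (t - s) * (ψ s + ψ t) = (t - s) * ψ s + (t - s) * ψ t := by ring
        rw [e6]
        linarith
      h2 := by
        intro s hs
        refine ⟨fun t => |⟪u t, u s⟫_ℝ - ‖u s‖ ^ 2|, ?_, ?_⟩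
        · have h1 := (h.wcont (u s)) s hs
          have h2 : Tendsto (fun t => ⟪u t, u s⟫_ℝ - ‖u s‖ ^ 2) (𝓝[Icc 0 T] s) (𝓝 0) := by
            have := h1.tendsto.sub_const (‖u s‖ ^ 2)
            rw [real_inner_self_eq_norm_sq, sub_self] at this
            exact this
          have := h2.abs
          rwa [abs_zero] at this
        · intro t ht htg
          have e1 := htg.2 s hs
          have e3 : ‖u t‖ ^ 2 / 2 - ‖u s‖ ^ 2 / 2
              = (⟪u t - u s, u t⟫_ℝ + (⟪u t, u s⟫_ℝ - ‖u s‖ ^ 2)) / 2 := by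
            rw [inner_sub_left, real_inner_self_eq_norm_sq, real_inner_comm (u t) (u s)]
            ring
          rw [e3, abs_div, abs_two]
          have e4 := abs_add_le ⟪u t - u s, u t⟫_ℝ (⟪u t, u s⟫_ℝ - ‖u s‖ ^ 2)
          have e5 : 0 ≤ |t - s| * ψ t := mul_nonneg (abs_nonneg _) (hψ0 t)
          have e6 : 0 ≤ |∫ r in s..t, ψ r| := abs_nonneg _
          have e7 : 0 ≤ |⟪u t, u s⟫_ℝ - ‖u s‖ ^ 2| := abs_nonneg _
          rw [abs_sub_comm s t] at e1
          rw [one_mul]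
          linarith }
  intro t ht
  rw [energyDefect_eq hΩ hν hT h ht]
  exact S.eq_of_ac (H.ac hT.le) t ht

end Pool.Agent.TH301.EQ
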