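import Pool.Agent.TH301.EQ.Portion

/-!
The set of the times near which a function is not nonincreasing, and its portions.
-/

set_option autoImplicit false

open MeasureTheory Set Filter Topology

namespace Pool.Agent.TH301.EQ

open Pool.Agent.TH340.FF

/-- the times in `[0,T]` near which `D` is not nonincreasing -/
def rising (T : ℝ) (D : ℝ → ℝ) : Set ℝ :=
  {t | t ∈ Icc 0 T ∧ ∀ δ > 0, ∃ s₁ ∈ Icc 0 T, ∃ s₂ ∈ Icc 0 T,
    s₁ < s₂ ∧ |s₁ - t| < δ ∧ |s₂ - t| < δ ∧ D s₁ < D s₂}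

theorem rising_closed (T : ℝ) (D : ℝ → ℝ) : IsClosed (rising T D) := by
  refine isClosed_of_closure_subset fun t ht => ?_
  refine ⟨?_, fun δ hδ => ?_⟩
  · have h1 : t ∈ closure (Icc 0 T) := closure_mono (fun s hs => hs.1) ht
    rwa [isClosed_Icc.closure_eq] at h1
  · rw [Metric.mem_closure_iff] at ht
    obtain ⟨b, hb, hb2⟩ := ht (δ / 2) (by positivity)
    rw [Real.dist_eq, abs_sub_comm] at hb2
    obtain ⟨s₁, h1, s₂, h2, h3, h4, h5, h6⟩ := hb.2 (δ / 2) (by positivity)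
    refine ⟨s₁, h1, s₂, h2, h3, ?_, ?_, h6⟩
    · have := abs_sub_le s₁ b t
      linarith
    · have := abs_sub_le s₂ b t
      linarith

theorem near_of_not_rising {T : ℝ} {D : ℝ → ℝ} {t : ℝ} (ht : t ∈ Icc 0 T) (h : t ∉ rising T D) :
    ∃ δ > 0, ∀ s₁ ∈ Icc 0 T, ∀ s₂ ∈ Icc 0 T, s₁ ≤ s₂ → |s₁ - t| < δ → |s₂ - t| < δ →
      D s₂ ≤ D s₁ := by
  by_contra hcon
  push Not at hcon
  refine h ⟨ht, fun δ hδ => ?_⟩
  obtain ⟨s₁, h1, s₂, h2, h3, h4, h5, h6⟩ := hcon δ hδ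
  refine ⟨s₁, h1, s₂, h2, lt_of_le_of_ne h3 ?_, h4, h5, h6⟩
  rintro rfl
  exact lt_irrefl _ h6

theorem anti_of_not_rising {T : ℝ} {D : ℝ → ℝ} {a b : ℝ} (ha : 0 ≤ a) (hab : a ≤ b) (hb : b ≤ T)
    (h : ∀ t ∈ Icc a b, t ∉ rising T D) : D b ≤ D a := by
  have key : ∀ x : Icc a b, ∃ δ > 0, ∀ s₁ ∈ Icc 0 T, ∀ s₂ ∈ Icc 0 T, s₁ ≤ s₂ → |s₁ - x.1| < δ →
      |s₂ - x.1| < δ → D s₂ ≤ D s₁ := fun x =>
    near_of_not_rising ⟨ha.trans x.2.1, x.2.2.trans hb⟩ (h x.1 x.2)
  choose δ hδ hloc using key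
  obtain ⟨t, ht0, htm, ⟨m, hm⟩, htc⟩ := exists_monotone_Icc_subset_open_cover_Icc hab
    (c := fun x : Icc a b => Metric.ball x (δ x)) (fun x => Metric.isOpen_ball)
    (fun x _ => mem_iUnion.mpr ⟨x, Metric.mem_ball_self (hδ x)⟩)
  have hI : ∀ n, (t n : ℝ) ∈ Icc 0 T := fun n => ⟨ha.trans (t n).2.1, (t n).2.2.trans hb⟩
  have hind : ∀ n, D (t n) ≤ D a := by
    intro n
    induction n with
    | zero => rw [ht0]
    | succ n ih =>
      obtain ⟨i, hi⟩ := htc n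
      have hle : t n ≤ t (n + 1) := htm (Nat.le_succ n)
      have m1 : t n ∈ Metric.ball i (δ i) := hi ⟨le_rfl, hle⟩
      have m2 : t (n + 1) ∈ Metric.ball i (δ i) := hi ⟨hle, le_rfl⟩
      rw [Metric.mem_ball, Subtype.dist_eq, Real.dist_eq] at m1 m2
      exact (hloc i _ (hI n) _ (hI (n + 1)) hle m1 m2).trans ih
  have := hind m
  rwa [hm m le_rfl] at this

theorem left_anti {T : ℝ} {D : ℝ → ℝ} {a p : ℝ} (ha : 0 ≤ a) (hap : a < p) (hp : p ≤ T)
    (h : ∀ t ∈ Ico a p, t ∉ rising T D) (hL : LeftOK D p) : D p ≤ D a := by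
  by_contra hne
  push Not at hne
  obtain ⟨σ, h1, h2, h3⟩ := hL (min (D p - D a) (p - a)) (lt_min (by linarith) (by linarith))
    (by linarith)
  have h4 : a < σ := by
    have := h1.1
    have := min_le_right (D p - D a) (p - a)
    linarith
  have h5 := anti_of_not_rising ha h4.le (h1.2.le.trans hp)
    (fun t ht => h t ⟨ht.1, ht.2.trans_lt h1.2⟩)
  have h6 := h3.trans_le (min_le_left _ _)
  rw [abs_lt] at h6
  linarith [h6.1]

theorem right_anti {T : ℝ} {D : ℝ → ℝ} {p b : ℝ} (hp : 0 ≤ p) (hpb : p < b) (hb : b ≤ T)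
    (h : ∀ t ∈ Ioc p b, t ∉ rising T D) (hR : RightOK T D p) : D b ≤ D p := by
  by_contra hne
  push Not at hne
  obtain ⟨σ, h1, h2, h3⟩ := hR (min (D b - D p) (b - p)) (lt_min (by linarith) (by linarith))
    (by linarith)
  have h4 : σ < b := by
    have := h1.2
    have := min_le_right (D b - D p) (b - p)
    linarith
  have h5 := anti_of_not_rising (hp.trans h1.1.le) h4.le hb
    (fun t ht => h t ⟨h1.1.trans_le ht.1, ht.2⟩)
  have h6 := h3.trans_le (min_le_left _ _)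
  rw [abs_lt] at h6
  linarith [h6.2]

/-- If a portion of the rising set is contained in a set at whose points the increments of `D` to
the right are bounded from above by an integral, then it is empty. -/
theorem rising_portion {T : ℝ} {D ψ : ℝ → ℝ} {F : Set ℝ}
    (hψ0 : ∀ t, 0 ≤ ψ t) (hψi : IntervalIntegrable ψ volume 0 T)
    (hb : ∀ s ∈ F, ∀ t, 0 ≤ s → s ≤ t → t ≤ T → D t - D s ≤ ∫ r in s..t, ψ r)
    (hL : ∀ p ∈ rising T D, LeftOK D p)
    (hd : ∀ᵐ x : ℝ, x ∈ Icc 0 T → ∀ d, HasDerivAt D d x → d = 0)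
    {t₀ δ : ℝ} (ht₀ : t₀ ∈ Icc 0 T) (hδ : 0 < δ)
    (hF : ∀ t ∈ rising T D, |t - t₀| < δ → t ∈ F) : t₀ ∉ rising T D := by
  set a := max 0 (t₀ - δ / 2) with ha
  set b := min T (t₀ + δ / 2) with hb'
  have ha0 : 0 ≤ a := le_max_left _ _
  have hbT : b ≤ T := min_le_left _ _
  have hat : a ≤ t₀ := max_le ht₀.1 (by linarith)
  have htb : t₀ ≤ b := le_min ht₀.2 (by linarith)
  have hT0 : 0 ≤ T := ht₀.1.trans ht₀.2
  have hnear : ∀ t ∈ Icc a b, |t - t₀| < δ := by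
    intro t ht
    have h1 := (le_max_right 0 (t₀ - δ / 2)).trans ht.1
    have h2 := ht.2.trans (min_le_right T (t₀ + δ / 2))
    rw [abs_lt]
    constructor <;> linarith
  have hinc : ∀ s t, a ≤ s → s ≤ t → t ≤ b → D t - D s ≤ ∫ r in s..t, ψ r := by
    intro s t hs hst ht
    have hs0 : 0 ≤ s := ha0.trans hs
    have htT : t ≤ T := ht.trans hbT
    have hA : IsCompact (rising T D ∩ Icc s t) :=
      isCompact_Icc.inter_left (rising_closed T D)
    rcases (rising T D ∩ Icc s t).eq_empty_or_nonempty with h0 | h0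
    · have e0 : D t ≤ D s := anti_of_not_rising hs0 hst htT (fun x hx hx2 => by
        have : x ∈ rising T D ∩ Icc s t := ⟨hx2, hx⟩
        rw [h0] at this
        exact this)
      have := intervalIntegral.integral_nonneg (μ := volume) hst fun r _ => hψ0 r
      linarith
    · set s' := sInf (rising T D ∩ Icc s t) with hs'
      have m1 : s' ∈ rising T D ∩ Icc s t := hA.sInf_mem h0
      have f1 : s' ∈ F := hF s' m1.1 (hnear s' ⟨hs.trans m1.2.1, m1.2.2.trans ht⟩)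
      have e1 : D s' ≤ D s := by
        rcases eq_or_lt_of_le m1.2.1 with h1 | h1
        · rw [← h1]
        refine left_anti hs0 h1 (m1.2.2.trans htT) (fun x hx hx2 => ?_) (hL s' m1.1)
        have := csInf_le hA.bddBelow (show x ∈ rising T D ∩ Icc s t from
          ⟨hx2, hx.1, hx.2.le.trans m1.2.2⟩)
        exact absurd (this.trans_lt hx.2) (lt_irrefl _)
      have e2 := hb s' f1 t (hs0.trans m1.2.1) m1.2.2 htT
      have e3 := int_mono_set hψi hψ0 hs0 m1.2.1 m1.2.2 le_rfl htT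
      linarith
  -- the monotone function
  set Λ : ℝ → ℝ := fun x => (∫ r in a..x, ψ r) - D x with hΛ
  have hint : ∀ x ∈ Icc a b, IntervalIntegrable ψ volume a x := fun x hx =>
    sub_int hψi ha0 hx.1 (hx.2.trans hbT)
  have hΛinc : ∀ s ∈ Icc a b, ∀ t ∈ Icc a b, Λ t - Λ s = (∫ r in s..t, ψ r) - (D t - D s) := by
    intro s hs t ht
    have e := intervalIntegral.integral_interval_sub_left (hint t ht) (hint s hs)
    simp only [hΛ]
    rw [← e]
    ring
  have hanti : ∀ s ∈ Icc a b, ∀ t ∈ Icc a b, s ≤ t → D t ≤ D s := by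
    intro s hs t ht hst
    have hmono : MonotoneOn Λ (uIcc s t) := by
      rw [uIcc_of_le hst]
      intro p hp q hq hpq
      have hp' : p ∈ Icc a b := ⟨hs.1.trans hp.1, hp.2.trans ht.2⟩
      have hq' : q ∈ Icc a b := ⟨hs.1.trans hq.1, hq.2.trans ht.2⟩
      have h1 := hΛinc p hp' q hq'
      have h2 := hinc p q hp'.1 hpq hq'.2
      linarith
    have h1 := hmono.intervalIntegral_deriv_mem_uIcc
    have h2 : 0 ≤ Λ t - Λ s := by
      have := hmono left_mem_uIcc right_mem_uIcc hst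
      linarith
    rw [uIcc_of_le h2] at h1
    have hae : ∀ᵐ x : ℝ, x ∈ uIoc s t → deriv Λ x = ψ x := by
      have k1 := hmono.ae_differentiableWithinAt_of_mem
      have k2 := hψi.ae_hasDerivAt_integral
      have k3 : ∀ᵐ x : ℝ, x ≠ t := by simp [ae_iff, measure_singleton]
      filter_upwards [k1, k2, k3, hd] with x x1 x2 x3 x4 hx
      rw [uIoc_of_le hst] at hx
      have hx' : x ∈ Ioo s t := ⟨hx.1, lt_of_le_of_ne hx.2 x3⟩
      have hx0 : x ∈ Icc 0 T := ⟨(ha0.trans hs.1).trans hx.1.le, hx.2.trans (ht.2.trans hbT)⟩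
      have d1 : DifferentiableAt ℝ Λ x := by
        have := x1 (by rw [uIcc_of_le hst]; exact Ioo_subset_Icc_self hx')
        rw [uIcc_of_le hst] at this
        exact this.differentiableAt (Icc_mem_nhds hx'.1 hx'.2)
      have d2 : HasDerivAt (fun y => ∫ r in a..y, ψ r) (ψ x) x :=
        x2 (by rwa [uIcc_of_le hT0]) a (by
          rw [uIcc_of_le hT0]
          exact ⟨ha0, hat.trans ht₀.2⟩)
      have d3 := d2.sub d1.hasDerivAt
      have e4 : (fun y => ∫ r in a..y, ψ r) - Λ = D := by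
        funext y
        simp only [hΛ, Pi.sub_apply]
        ring
      rw [e4] at d3
      have := x4 hx0 _ d3
      linarith
    rw [intervalIntegral.integral_congr_ae hae] at h1
    have h3 := h1.2
    rw [hΛinc s hs t ht] at h3
    linarith
  intro hr
  obtain ⟨s₁, h1, s₂, h2, h3, h4, h5, h6⟩ := hr.2 (δ / 2) (by positivity)
  rw [abs_lt] at h4 h5
  have := hanti s₁ ⟨max_le h1.1 (by linarith), le_min h1.2 (by linarith)⟩ s₂
    ⟨max_le h2.1 (by linarith), le_min h2.2 (by linarith)⟩ h3.le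
  linarith

/-- There are no isolated points at which `D` has one-sided limits along sequences. -/
theorem rising_isolated {T : ℝ} {D : ℝ → ℝ} {t₀ δ : ℝ} (hδ : 0 < δ)
    (hL : LeftOK D t₀) (hR : RightOK T D t₀)
    (hF : ∀ t ∈ rising T D, |t - t₀| < δ → t = t₀) : t₀ ∉ rising T D := by
  intro hr
  obtain ⟨s₁, h1, s₂, h2, h3, h4, h5, h6⟩ := hr.2 δ hδ
  rw [abs_lt] at h4 h5
  have hne : ∀ x ∈ Icc s₁ s₂, x ≠ t₀ → x ∉ rising T D := by
    intro x hx hxt hx2
    exact hxt (hF x hx2 (by rw [abs_lt]; constructor <;> linarith [hx.1, hx.2]))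
  have hle : D s₂ ≤ D s₁ := by
    rcases lt_or_ge t₀ s₁ with a | a
    · exact anti_of_not_rising h1.1 h3.le h2.2 fun x hx => hne x hx (a.trans_le hx.1).ne'
    rcases lt_or_ge s₂ t₀ with b | b
    · exact anti_of_not_rising h1.1 h3.le h2.2 fun x hx => hne x hx (hx.2.trans_lt b).ne
    have e1 : D t₀ ≤ D s₁ := by
      rcases eq_or_lt_of_le a with c | c
      · rw [c]
      · exact left_anti h1.1 c (b.trans h2.2) (fun x hx => hne x ⟨hx.1, hx.2.le.trans b⟩ hx.2.ne) hL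
    have e2 : D s₂ ≤ D t₀ := by
      rcases eq_or_lt_of_le b with c | c
      · rw [c]
      · exact right_anti (h1.1.trans a) c h2.2
          (fun x hx => hne x ⟨a.trans hx.1.le, hx.2⟩ hx.1.ne') hR
    exact e2.trans e1
  linarith

/-- **Category**, for closed sets. -/
theorem closed_dense {K : Set ℝ} (hK : IsClosed K) {F : ℕ → Set ℝ} {N : Set ℝ}
    (hN : N.Countable) (hF : ∀ n, IsClosed (F n))
    (h1 : ∀ n, ∀ t₀ ∈ K, ∀ δ > 0, ∃ t ∈ K, |t - t₀| < δ ∧ t ∉ F n)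
    (h2 : ∀ t₀ ∈ K, t₀ ∈ N → ∀ δ > 0, ∃ t ∈ K, |t - t₀| < δ ∧ t ≠ t₀) :
    ∀ t₀ ∈ K, ∀ δ > 0, ∃ t ∈ K, |t - t₀| < δ ∧ t ∉ N ∧ ∀ n, t ∉ F n := by
  intro t₀ ht₀ δ hδ
  have : CompleteSpace K := hK.completeSpace_coe
  have : Countable N := hN.to_subtype
  set f : ℕ ⊕ N → Set K := fun i =>
    Sum.elim (fun n => {x : K | x.1 ∉ F n}) (fun a => {x : K | x.1 ≠ a.1}) i with hf
  have ho : ∀ i, IsOpen (f i) := by
    rintro (n | a)
    · exact (hF n).isOpen_compl.preimage continuous_subtype_val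
    · exact (isClosed_singleton (x := a.1)).isOpen_compl.preimage continuous_subtype_val
  have hd : ∀ i, Dense (f i) := by
    rintro (n | a)
    · rw [Metric.dense_iff]
      intro x r hr
      obtain ⟨t, ht, ht1, ht2⟩ := h1 n x.1 x.2 r hr
      refine ⟨⟨t, ht⟩, ?_, ht2⟩
      rw [Metric.mem_ball, Subtype.dist_eq, Real.dist_eq]
      exact ht1
    · rw [Metric.dense_iff]
      intro x r hr
      by_cases hx : x.1 = a.1
      · obtain ⟨t, ht, ht1, ht2⟩ := h2 x.1 x.2 (hx ▸ a.2) r hr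
        refine ⟨⟨t, ht⟩, ?_, fun h => ht2 (h.trans hx.symm)⟩
        rw [Metric.mem_ball, Subtype.dist_eq, Real.dist_eq]
        exact ht1
      · exact ⟨x, Metric.mem_ball_self hr, hx⟩
  have hD := dense_iInter_of_isOpen ho hd
  rw [Metric.dense_iff] at hD
  obtain ⟨x, hx1, hx2⟩ := hD ⟨t₀, ht₀⟩ δ hδ
  rw [mem_iInter] at hx2
  refine ⟨x.1, x.2, ?_, fun h => hx2 (Sum.inr ⟨x.1, h⟩) rfl, fun n => hx2 (Sum.inl n)⟩
  rw [Metric.mem_ball, Subtype.dist_eq, Real.dist_eq] at hx1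
  exact hx1

end Pool.Agent.TH301.EQ
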