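import Pool.Agent.TH301.EQ.TameMain
import Pool.Agent.TH301.EQ.Rising

/-!
One-sided conditions: times which are tame to the right.
-/

set_option autoImplicit false
set_option linter.unusedSectionVars false

open MeasureTheory Set Filter Topology
open scoped InnerProductSpace ENNReal ContDiff NNReal

namespace Pool.Agent.TH301.EQ

open H772R2.NS Pool.Agent.TH340.FF

/-- absorbing the constants in the weight -/
theorem absorb {T : ℝ} {g θ : ℝ → ℝ} (hg0 : ∀ t, 0 ≤ g t)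
    (hgi : IntervalIntegrable g volume 0 T) (hθ0 : ∀ t, 0 ≤ θ t)
    (hθi : IntervalIntegrable θ volume 0 T) (C : ℝ) {δ : ℝ} (hδ : 0 < δ) :
    ∃ m : ℕ, ∀ x y, 0 ≤ x → x < y → y ≤ T →
      ((∫ τ in x..y, g τ) ^ 5 ≤ C * (y - x) * (∫ τ in x..y, θ τ) ^ 3 ∨ δ ≤ y - x) →
      (∫ τ in x..y, g τ) ^ 5 ≤ (y - x) * (∫ τ in x..y, (m : ℝ) * (θ τ + 1)) ^ 3 := by
  set IT := ∫ τ in (0 : ℝ)..T, g τ with hIT
  obtain ⟨m, hm⟩ := exists_nat_ge (max 1 (max C (IT ^ 5 / δ ^ 4)))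
  have m1 : (1 : ℝ) ≤ m := (le_max_left _ _).trans hm
  have m2 : C ≤ m := ((le_max_left _ _).trans (le_max_right _ _)).trans hm
  have m3 : IT ^ 5 / δ ^ 4 ≤ m := ((le_max_right _ _).trans (le_max_right _ _)).trans hm
  have m4 : (m : ℝ) ≤ (m : ℝ) ^ 3 := by
    have : (1 : ℝ) ≤ (m : ℝ) ^ 2 := one_le_pow₀ m1
    nlinarith
  have m0 : (0 : ℝ) ≤ m := by linarith
  refine ⟨m, fun x y hx hxy hy h => ?_⟩
  have hyx : 0 < y - x := by linarith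
  have hθxy := sub_int hθi hx hxy.le hy
  have e1 : ∫ τ in x..y, (m : ℝ) * (θ τ + 1) = m * ((∫ τ in x..y, θ τ) + (y - x)) := by
    rw [intervalIntegral.integral_const_mul, intervalIntegral.integral_add hθxy
      intervalIntegrable_const, intervalIntegral.integral_const, smul_eq_mul, mul_one]
  rw [e1]
  set Θ := ∫ τ in x..y, θ τ with hΘ
  have hΘ0 : 0 ≤ Θ := intervalIntegral.integral_nonneg hxy.le fun τ _ => hθ0 τ
  rcases h with h | h3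
  · refine h.trans ?_
    have a1 : C * (y - x) * Θ ^ 3 ≤ m ^ 3 * (y - x) * Θ ^ 3 :=
      mul_le_mul_of_nonneg_right (mul_le_mul_of_nonneg_right (m2.trans m4) hyx.le) (by positivity)
    have a2 : Θ ^ 3 ≤ (Θ + (y - x)) ^ 3 := pow_le_pow_left₀ hΘ0 (by linarith) 3
    have a3 : m ^ 3 * (y - x) * Θ ^ 3 ≤ m ^ 3 * (y - x) * (Θ + (y - x)) ^ 3 :=
      mul_le_mul_of_nonneg_left a2 (by positivity)
    calc _ ≤ _ := a1
      _ ≤ _ := a3
      _ = _ := by ring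
  · have b0 : 0 ≤ ∫ τ in x..y, g τ := intervalIntegral.integral_nonneg hxy.le fun τ _ => hg0 τ
    have b1 : ∫ τ in x..y, g τ ≤ IT := int_mono_set hgi hg0 le_rfl hx hxy.le hy le_rfl
    have b2 := pow_le_pow_left₀ b0 b1 5
    have b3 : IT ^ 5 ≤ m ^ 3 * δ ^ 4 := by
      rw [div_le_iff₀ (by positivity)] at m3
      exact m3.trans (mul_le_mul_of_nonneg_right m4 (by positivity))
    have b4 : (m : ℝ) * δ ≤ m * (Θ + (y - x)) := mul_le_mul_of_nonneg_left (by linarith) m0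
    have b5 := pow_le_pow_left₀ (by positivity) b4 3
    calc (∫ τ in x..y, g τ) ^ 5 ≤ m ^ 3 * δ ^ 4 := b2.trans b3
      _ = δ * (m * δ) ^ 3 := by ring
      _ ≤ (y - x) * (m * (Θ + (y - x))) ^ 3 := by gcongr

/-- the times `t` of `[0,T]` such that `(∫_J g)^5 ≤ |J| (∫_J θ)^3` for all intervals
`J ⊆ (t,T]` with distance less than `|J|` from `t` -/
def tameR (T : ℝ) (g θ : ℝ → ℝ) : Set ℝ :=
  {t | t ∈ Icc 0 T ∧ ∀ x y, t < x → x < y → y ≤ T → 2 * x - y < t →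
    (∫ τ in x..y, g τ) ^ 5 ≤ (y - x) * (∫ τ in x..y, θ τ) ^ 3}

theorem tameR_closed (T : ℝ) (g θ : ℝ → ℝ) : IsClosed (tameR T g θ) := by
  refine isClosed_of_closure_subset fun t ht => ?_
  refine ⟨?_, fun x y hx hxy hy h1 => ?_⟩
  · have h1 : t ∈ closure (Icc 0 T) := closure_mono (fun s hs => hs.1) ht
    rwa [isClosed_Icc.closure_eq] at h1
  · rw [mem_closure_iff] at ht
    obtain ⟨b, hb1, hb2⟩ := ht (Ioo (2 * x - y) x) isOpen_Ioo ⟨h1, hx⟩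
    exact hb2.2 x y hb1.2 hxy hy hb1.1

/-- The pointwise condition to the right: `(∫_J g)^5 ≤ C |J| (∫_J θ)^3` for all intervals
`J ⊆ [t, t + δ]` with distance less than `|J|` from `t`. -/
def TameRight (T : ℝ) (g θ : ℝ → ℝ) (t : ℝ) : Prop :=
  ∃ C δ : ℝ, 0 < δ ∧ ∀ x y, t ≤ x → x < y → y ≤ T → y - t ≤ δ → x - t < y - x →
    (∫ τ in x..y, g τ) ^ 5 ≤ C * (y - x) * (∫ τ in x..y, θ τ) ^ 3

theorem tameR_of_tameRight {T : ℝ} {g θ : ℝ → ℝ} (hg0 : ∀ t, 0 ≤ g t)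
    (hgi : IntervalIntegrable g volume 0 T) (hθ0 : ∀ t, 0 ≤ θ t)
    (hθi : IntervalIntegrable θ volume 0 T) {t : ℝ} (ht : t ∈ Icc 0 T)
    (h : TameRight T g θ t) : ∃ m : ℕ, t ∈ tameR T g (fun τ => m * (θ τ + 1)) := by
  obtain ⟨C, δ, hδ, h⟩ := h
  obtain ⟨m, hm⟩ := absorb hg0 hgi hθ0 hθi C (half_pos hδ)
  refine ⟨m, ht, fun x y hx hxy hy h1 => hm x y (ht.1.trans hx.le) hxy hy ?_⟩
  rcases le_total (y - t) δ with h3 | h3
  · exact Or.inl (h x y hx.le hxy hy h3 (by linarith))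
  · exact Or.inr (by linarith)

/-- forward type I implies tame to the right -/
theorem tameRight_of_typeI {T : ℝ} {g : ℝ → ℝ} (hg0 : ∀ t, 0 ≤ g t)
    (hgi : IntervalIntegrable g volume 0 T) {t C δ : ℝ} (ht : t ∈ Icc 0 T) (hδ : 0 < δ)
    (h : ∀ y, t < y → y ≤ T → y - t ≤ δ → ∫ τ in t..y, g τ ≤ C * Real.sqrt (y - t)) :
    TameRight T g g t := by
  refine ⟨2 * C ^ 2, δ, hδ, fun x y htx hxy hy h1 h2 => ?_⟩
  have hyx : 0 < y - x := by linarith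
  have hyt : 0 ≤ y - t := by linarith
  have k3 := h y (by linarith) hy h1
  have k4 : ∫ τ in x..y, g τ ≤ ∫ τ in t..y, g τ :=
    int_mono_set hgi hg0 ht.1 htx hxy.le le_rfl hy
  have b0 : 0 ≤ ∫ τ in x..y, g τ := intervalIntegral.integral_nonneg hxy.le fun τ _ => hg0 τ
  have k5 := pow_le_pow_left₀ b0 (k4.trans k3) 2
  rw [mul_pow, Real.sq_sqrt hyt] at k5
  have k6 : C ^ 2 * (y - t) ≤ C ^ 2 * (2 * (y - x)) :=
    mul_le_mul_of_nonneg_left (by linarith) (by positivity)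
  calc (∫ τ in x..y, g τ) ^ 5 = (∫ τ in x..y, g τ) ^ 2 * (∫ τ in x..y, g τ) ^ 3 := by ring
    _ ≤ (C ^ 2 * (2 * (y - x))) * (∫ τ in x..y, g τ) ^ 3 :=
      mul_le_mul_of_nonneg_right (k5.trans k6) (by positivity)
    _ = _ := by ring

/-- the limit case of the intervals which begin at `t` -/
theorem tameR_limit {T : ℝ} {g θ : ℝ → ℝ} (hgi : IntervalIntegrable g volume 0 T)
    (hθi : IntervalIntegrable θ volume 0 T) {t y : ℝ} (ht : t ∈ tameR T g θ) (hty : t < y)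
    (hy : y ≤ T) : (∫ τ in t..y, g τ) ^ 5 ≤ (y - t) * (∫ τ in t..y, θ τ) ^ 3 := by
  have hle : 𝓝[>] t ≤ 𝓝[Icc t y] t := nhdsWithin_le_of_mem (Icc_mem_nhdsGT hty)
  have prim : ∀ {k : ℝ → ℝ}, IntervalIntegrable k volume 0 T →
      Tendsto (fun x => ∫ τ in x..y, k τ) (𝓝[>] t) (𝓝 (∫ τ in t..y, k τ)) := by
    intro k hk
    have hk' : IntegrableOn k (uIcc t y) := by
      rw [uIcc_of_le hty.le, integrableOn_Icc_iff_integrableOn_Ioc,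
        ← intervalIntegrable_iff_integrableOn_Ioc_of_le hty.le]
      exact sub_int hk ht.1.1 hty.le hy
    have hc := intervalIntegral.continuousOn_primitive_interval_left hk'
    have h1 := hc t left_mem_uIcc
    rw [uIcc_of_le hty.le] at h1
    exact h1.tendsto.mono_left hle
  have t1 := (prim hgi).pow 5
  have t2 : Tendsto (fun x => y - x) (𝓝[>] t) (𝓝 (y - t)) :=
    ((continuous_const.sub continuous_id).tendsto t).mono_left nhdsWithin_le_nhds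
  have t3 := t2.mul ((prim hθi).pow 3)
  refine le_of_tendsto_of_tendsto t1 t3 ?_
  have hev : Ioo t ((t + y) / 2) ∈ 𝓝[>] t := Ioo_mem_nhdsGT (by linarith)
  filter_upwards [hev] with x hx
  exact ht.2 x y hx.1 (by linarith [hx.2]) hy (by linarith [hx.2])

variable {Ω : Set E3} {ν T M : ℝ} {u : ℝ → L2V Ω} {G : ℝ → L2M Ω} {f : ℝ → L2V Ω} {θ : ℝ → ℝ}

theorem chR_tameR (hΩ : IsOpen Ω) (hν : 0 ≤ ν) (hT : 0 < T) (h : IsWeakSolution Ω ν T u G f)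
    (hM : ∀ t ∈ Icc 0 T, ‖u t‖ ≤ M) (hθ0 : ∀ t, 0 ≤ θ t)
    (hθ : IntervalIntegrable θ volume 0 T) {t : ℝ} (ht : t ∈ tameR T (fun τ => ‖G τ‖ ^ 2) θ) :
    ChR T (fun t => ‖u t‖ ^ 2 / 2) (fun r q => ⟪u r - u q, u r⟫_ℝ) (fun τ => ‖G τ‖ ^ 2)
      (wt1 ν M G f θ) t where
  ec := ec_norm u
  γ0 := fun τ => by positivity
  γi := G2_ii hΩ hν hT h hM
  ψ0 := wt1_nonneg hν hT hM hθ0
  ψi := wt1_ii hΩ hν hT h hM hθ
  lim := lim_norm h ht.1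
  loc := fun x y h1 h2 h3 h4 => by
    refine loc_of_ineq hΩ hν hT h hM hθ0 hθ (ht.1.1.trans h1) h2 h3 ?_
    rcases eq_or_lt_of_le h1 with h5 | h5
    · rw [← h5]
      exact tameR_limit (G2_ii hΩ hν hT h hM) hθ ht (h5 ▸ h2) h3
    · exact ht.2 x y h5 h2 h3 (by linarith)

/-- the increments of the defect to the right of a time which is tame to the right -/
theorem forward_bound (hΩ : IsOpen Ω) (hν : 0 ≤ ν) (hT : 0 < T) (h : IsWeakSolution Ω ν T u G f)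
    (hM : ∀ t ∈ Icc 0 T, ‖u t‖ ≤ M) (hθ0 : ∀ t, 0 ≤ θ t)
    (hθ : IntervalIntegrable θ volume 0 T) {s t : ℝ} (hs : s ∈ tameR T (fun τ => ‖G τ‖ ^ 2) θ)
    (h0 : 0 ≤ s) (hst : s ≤ t) (htT : t ≤ T) :
    defect ν u G f t - defect ν u G f s ≤ ∫ τ in s..t, wt2 ν M u G f θ τ := by
  have S := h.toSol hΩ hν hT hM
  rcases eq_or_lt_of_le hst with h1 | h1
  · rw [h1]; simp
  obtain ⟨σ, a1, a3, a4⟩ := (chR_tameR hΩ hν hT h hM hθ0 hθ hs).right h0 h1 htT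
  have c1 := a3 t ⟨h1.le, le_rfl⟩
  have c2 := ec_norm u σ t
  have c3 := sq_increment (u σ) (u t)
  have c4 : 0 ≤ ‖u σ - u t‖ ^ 2 := by positivity
  have c5 := le_abs_self ⟪u σ - u t, u σ⟫_ℝ
  have c6 := neg_abs_le (‖u σ‖ ^ 2 / 2 - ‖u s‖ ^ 2 / 2)
  rw [S.defect_sub h0 hst htT, wt2_eq hΩ hν hT h hM hθ h0 hst htT]
  have d1 : |∫ τ in s..t, pow ν u G f τ| ≤ ∫ τ in s..t, |pow ν u G f τ| :=
    intervalIntegral.abs_integral_le_integral_abs hst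
  have d2 := le_abs_self (∫ τ in s..t, pow ν u G f τ)
  have d3 : (‖u t‖ ^ 2 - ‖u s‖ ^ 2) / 2 = (‖u t‖ ^ 2 / 2 - ‖u σ‖ ^ 2 / 2)
      + (‖u σ‖ ^ 2 / 2 - ‖u s‖ ^ 2 / 2) := by ring
  have d4 : 0 ≤ ∫ τ in s..t, wt1 ν M G f θ τ :=
    intervalIntegral.integral_nonneg hst fun τ _ => wt1_nonneg hν hT hM hθ0 τ
  rw [d3]
  linarith

theorem mem_tameR_wk (hΩ : IsOpen Ω) (hν : 0 ≤ ν) (hT : 0 < T) (h : IsWeakSolution Ω ν T u G f)
    (hM : ∀ t ∈ Icc 0 T, ‖u t‖ ≤ M) {θ : ℕ → ℝ → ℝ} (hθ0 : ∀ n t, 0 ≤ θ n t)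
    (hθ : ∀ n, IntervalIntegrable (θ n) volume 0 T) {t : ℝ} (ht : t ∈ Icc 0 T) {n : ℕ}
    (hn : TameRight T (fun τ => ‖G τ‖ ^ 2) (θ n) t) :
    ∃ k, t ∈ tameR T (fun τ => ‖G τ‖ ^ 2) (wk θ k) := by
  obtain ⟨m, hm⟩ := tameR_of_tameRight (fun τ => by positivity) (G2_ii hΩ hν hT h hM) (hθ0 n)
    (hθ n) ht hn
  refine ⟨Nat.pair n m, ?_⟩
  have e : wk θ (Nat.pair n m) = fun τ => (m : ℝ) * (θ n τ + 1) := by
    funext τ
    unfold wk
    rw [Nat.unpair_pair]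
  rw [e]
  exact hm

/-- **Category.** -/
theorem forward_dense (hΩ : IsOpen Ω) (hν : 0 ≤ ν) (hT : 0 < T)
    (h : IsWeakSolution Ω ν T u G f)
    {θ : ℕ → ℝ → ℝ} (hθ0 : ∀ n t, 0 ≤ θ n t) (hθ : ∀ n, IntervalIntegrable (θ n) volume 0 T)
    {N : Set ℝ} (hN : N.Countable) (hJ : ∀ t ∈ N, NoJumpRight T u t)
    (hL : ∀ t ∈ rising T (defect ν u G f), NoJumpLeft u t) :
    ∀ t₀ ∈ rising T (defect ν u G f), ∀ δ > 0, ∃ t ∈ rising T (defect ν u G f),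
      |t - t₀| < δ ∧ t ∉ N ∧ ∀ n, ¬ TameRight T (fun τ => ‖G τ‖ ^ 2) (θ n) t := by
  obtain ⟨M, hM⟩ := h.bdd
  have S := h.toSol hΩ hν hT hM
  have hL' : ∀ p ∈ rising T (defect ν u G f), LeftOK (defect ν u G f) p := fun p hp =>
    left_nojump hΩ hν hT h hM hp.1 (hL p hp)
  have key := closed_dense (rising_closed T (defect ν u G f))
    (F := fun k => tameR T (fun τ => ‖G τ‖ ^ 2) (wk θ k)) hN (fun k => tameR_closed _ _ _) ?_ ?_
  · intro t₀ ht₀ δ hδ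
    obtain ⟨t, ht, h1, h2, h3⟩ := key t₀ ht₀ δ hδ
    refine ⟨t, ht, h1, h2, fun n hn => ?_⟩
    obtain ⟨k, hk⟩ := mem_tameR_wk hΩ hν hT h hM hθ0 hθ ht.1 hn
    exact h3 k hk
  · intro k t₀ ht₀ δ hδ
    by_contra hcon
    push Not at hcon
    refine rising_portion (ψ := wt2 ν M u G f (wk θ k)) (wt2_nonneg hν hT hM (wk_nonneg hθ0 k))
      (wt2_ii hΩ hν hT h hM (wk_ii hθ k)) ?_ hL' S.deriv_zero ht₀.1 hδ hcon ht₀
    intro s hs t h0 hst htT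
    exact forward_bound hΩ hν hT h hM (wk_nonneg hθ0 k) (wk_ii hθ k) hs h0 hst htT
  · intro t₀ ht₀ hN₀ δ hδ
    by_contra hcon
    push Not at hcon
    exact rising_isolated hδ (hL' t₀ ht₀)
      (right_nojump hΩ hν hT h hM ht₀.1 (hJ t₀ hN₀)) hcon ht₀

/-- **The defect is nonincreasing.** -/
theorem forward_anti (hΩ : IsOpen Ω) (hν : 0 ≤ ν) (hT : 0 < T)
    (h : IsWeakSolution Ω ν T u G f)
    {θ : ℕ → ℝ → ℝ} (hθ0 : ∀ n t, 0 ≤ θ n t) (hθ : ∀ n, IntervalIntegrable (θ n) volume 0 T)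
    {N : Set ℝ} (hN : N.Countable) (hJ : ∀ t ∈ N, NoJumpRight T u t)
    (hL : ∀ t ∈ rising T (defect ν u G f), NoJumpLeft u t)
    (hall : ∀ t ∈ rising T (defect ν u G f), t ∈ N ∨
      ∃ n, TameRight T (fun τ => ‖G τ‖ ^ 2) (θ n) t) :
    ∀ s t, 0 ≤ s → s ≤ t → t ≤ T → defect ν u G f t ≤ defect ν u G f s := by
  have hempty : ∀ t, t ∉ rising T (defect ν u G f) := by
    intro t₀ ht₀
    obtain ⟨t, ht, _, h2, h3⟩ := forward_dense hΩ hν hT h hθ0 hθ hN hJ hL t₀ ht₀ 1 one_pos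
    rcases hall t ht with h4 | ⟨n, h4⟩
    · exact h2 h4
    · exact h3 n h4
  intro s t hs hst ht
  exact anti_of_not_rising hs hst ht (fun x _ => hempty x)

end Pool.Agent.TH301.EQ
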