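import Pool.Agent.H772R2.NS.Space3

/-!
The Sobolev inequality on `H¹_{0,σ}` and the product of a function in `L^b` and a field in
`H¹_{0,σ}`.
-/

set_option autoImplicit false
set_option linter.unusedSectionVars false

open MeasureTheory Set Filter Topology
open scoped InnerProductSpace ENNReal ContDiff NNReal

namespace Pool.Agent.TH301.EQ

open H772R2.NS

variable {Ω : Set E3}

theorem test_six_le (hΩ : MeasurableSet Ω) {φ : E3 → E3} (h : IsTest Ω φ) :
    eLpNorm φ 6 (volume.restrict Ω) ≤ CS * eLpNorm (jac φ) 2 (volume.restrict Ω) := by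
  calc eLpNorm φ 6 (volume.restrict Ω) ≤ eLpNorm φ 6 (volume : Measure E3) :=
        eLpNorm_mono_measure _ Measure.restrict_le_self
    _ ≤ CS * eLpNorm (fderiv ℝ φ) 2 (volume : Measure E3) :=
        CS_spec φ (h.smooth.of_le (by simp)) h.compact
    _ ≤ CS * eLpNorm (jac φ) 2 (volume : Measure E3) := by
        gcongr
        exact eLpNorm_mono (fun x => norm_fderiv_le_jac x)
    _ = CS * eLpNorm (jac φ) 2 (volume.restrict Ω) := by
        rw [h.eLpNorm_jac_restrict hΩ]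

/-- the Sobolev inequality on `H¹_{0,σ}`. -/
theorem six_le (hΩ : MeasurableSet Ω) {p : L2V Ω × L2M Ω} (hp : p ∈ graphW Ω) :
    eLpNorm p.1 6 (volume.restrict Ω) ≤ (CS : ℝ≥0∞) * ‖p.2‖ₑ := by
  have hp' : p ∈ closure (preW Ω : Set (L2V Ω × L2M Ω)) := by
    have := hp
    unfold graphW at this
    rwa [← SetLike.mem_coe, Submodule.topologicalClosure_coe] at this
  obtain ⟨q, hq, hlim⟩ := mem_closure_iff_seq_limit.mp hp'
  have h1 : Tendsto (fun n => (q n).1) atTop (𝓝 p.1) := (continuous_fst.tendsto p).comp hlim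
  have h2 : Tendsto (fun n => (q n).2) atTop (𝓝 p.2) := (continuous_snd.tendsto p).comp hlim
  have hmeas : TendstoInMeasure (volume.restrict Ω) (fun n => ((q n).1 : E3 → E3)) atTop p.1 :=
    tendstoInMeasure_of_tendsto_Lp h1
  obtain ⟨ns, hns, hae⟩ := hmeas.exists_seq_tendsto_ae
  have hns' := hns.tendsto_atTop
  have hbd : ∀ n, eLpNorm (q n).1 6 (volume.restrict Ω) ≤ (CS : ℝ≥0∞) * ‖(q n).2‖ₑ := by
    intro n
    obtain ⟨φ, k1, k2, k3⟩ := hq n
    rw [Lp.enorm_def, eLpNorm_congr_ae k2, eLpNorm_congr_ae k3]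
    exact test_six_le hΩ k1
  have hR : Tendsto (fun n => (CS : ℝ≥0∞) * ‖(q (ns n)).2‖ₑ) atTop
      (𝓝 ((CS : ℝ≥0∞) * ‖p.2‖ₑ)) := by
    have a2 : Tendsto (fun n => ‖(q (ns n)).2‖ₑ) atTop (𝓝 ‖p.2‖ₑ) :=
      (continuous_enorm.tendsto _).comp (h2.comp hns')
    exact ENNReal.Tendsto.const_mul a2 (Or.inr (by simp))
  refine le_of_forall_gt (fun c hc => ?_)
  obtain ⟨c', hc'1, hc'2⟩ := exists_between hc
  refine lt_of_le_of_lt ?_ hc'2
  have hev : ∀ᶠ n in atTop, eLpNorm (q (ns n)).1 6 (volume.restrict Ω) ≤ c' := by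
    filter_upwards [hR.eventually (gt_mem_nhds hc'1)] with n hn
    exact (hbd (ns n)).trans hn.le
  exact Lp.eLpNorm_le_of_ae_tendsto hev (fun n => Lp.aestronglyMeasurable _) hae

section product

variable {α : Type*} {mα : MeasurableSpace α} {μ : Measure α}

/-- interpolation of the product, finite exponent -/
theorem prod_le_fin {v : α → ℝ} {w : α → E3} (hv : AEStronglyMeasurable v μ)
    (hw : AEStronglyMeasurable w μ) {b θ : ℝ} (hb : 0 < b) (hθ : θ = 3 / b) (h0 : 0 ≤ θ)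
    (h1 : θ ≤ 1) :
    eLpNorm (fun x => v x * ‖w x‖) 2 μ
      ≤ eLpNorm v (ENNReal.ofReal b) μ * (eLpNorm w 2 μ ^ (1 - θ) * eLpNorm w 6 μ ^ θ) := by
  have hb3 : 2 / b = 2 * θ / 3 := by rw [hθ]; field_simp
  set f : Fin 3 → α → ℝ≥0∞ := ![fun x => ‖v x‖ₑ ^ b, fun x => ‖w x‖ₑ ^ (2 : ℝ),
    fun x => ‖w x‖ₑ ^ (6 : ℝ)] with hf
  set e : Fin 3 → ℝ := ![2 / b, 1 - θ, θ / 3] with he
  have hH := ENNReal.lintegral_prod_norm_pow_le (μ := μ) (Finset.univ : Finset (Fin 3)) (f := f)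
    (by
      intro i _
      fin_cases i
      · exact hv.enorm.pow_const _
      · exact hw.enorm.pow_const _
      · exact hw.enorm.pow_const _)
    (p := e) (by
      rw [Fin.sum_univ_three]
      simp only [he, Matrix.cons_val_zero, Matrix.cons_val_one, Matrix.cons_val]
      rw [hb3]; ring)
    (by
      intro i _
      fin_cases i
      · simp only [he]
        show 0 ≤ 2 / b
        positivity
      · show 0 ≤ 1 - θ
        linarith
      · show 0 ≤ θ / 3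
        linarith)
  rw [Fin.prod_univ_three] at hH
  simp only [Fin.prod_univ_three, hf, he, Matrix.cons_val_zero, Matrix.cons_val_one,
    Matrix.cons_val] at hH
  have e1 : eLpNorm (fun x => v x * ‖w x‖) 2 μ
      = (∫⁻ x, (‖v x‖ₑ ^ b) ^ (2 / b) * (‖w x‖ₑ ^ (2 : ℝ)) ^ (1 - θ)
        * (‖w x‖ₑ ^ (6 : ℝ)) ^ (θ / 3) ∂μ) ^ (1 / (2 : ℝ)) := by
    rw [eLpNorm_eq_lintegral_rpow_enorm_toReal (by norm_num) (by norm_num)]
    simp only [ENNReal.toReal_ofNat]
    congr 1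
    refine lintegral_congr fun x => ?_
    rw [← ENNReal.rpow_mul, ← ENNReal.rpow_mul, ← ENNReal.rpow_mul, enorm_mul, enorm_norm,
      ENNReal.mul_rpow_of_nonneg _ _ (by norm_num : (0 : ℝ) ≤ 2), mul_assoc]
    have a1 : b * (2 / b) = 2 := by field_simp
    rw [a1]
    congr 1
    rw [← ENNReal.rpow_add_of_nonneg _ _ (by linarith) (by linarith)]
    congr 1
    ring
  have e2 : eLpNorm v (ENNReal.ofReal b) μ = (∫⁻ x, ‖v x‖ₑ ^ b ∂μ) ^ (1 / b) := by
    rw [eLpNorm_eq_lintegral_rpow_enorm_toReal (by simpa using hb) (by simp),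
      ENNReal.toReal_ofReal hb.le]
  have e3 : eLpNorm w 2 μ = (∫⁻ x, ‖w x‖ₑ ^ (2 : ℝ) ∂μ) ^ (1 / (2 : ℝ)) := by
    rw [eLpNorm_eq_lintegral_rpow_enorm_toReal (by norm_num) (by norm_num)]
    simp only [ENNReal.toReal_ofNat]
  have e4 : eLpNorm w 6 μ = (∫⁻ x, ‖w x‖ₑ ^ (6 : ℝ) ∂μ) ^ (1 / (6 : ℝ)) := by
    rw [eLpNorm_eq_lintegral_rpow_enorm_toReal (by norm_num) (by norm_num)]
    simp only [ENNReal.toReal_ofNat]
  rw [e1, e2, e3, e4]
  refine (ENNReal.rpow_le_rpow hH (by norm_num)).trans (le_of_eq ?_)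
  rw [ENNReal.mul_rpow_of_nonneg _ _ (by norm_num : (0 : ℝ) ≤ 1 / 2),
    ENNReal.mul_rpow_of_nonneg _ _ (by norm_num : (0 : ℝ) ≤ 1 / 2), ← ENNReal.rpow_mul,
    ← ENNReal.rpow_mul, ← ENNReal.rpow_mul, ← ENNReal.rpow_mul, ← ENNReal.rpow_mul, mul_assoc]
  congr 1
  · congr 1; ring
  · congr 1
    · congr 1; ring
    · congr 1; ring

/-- interpolation of the product -/
theorem prod_le {v : α → ℝ} {w : α → E3} (hv : AEStronglyMeasurable v μ)
    (hw : AEStronglyMeasurable w μ) {b : ℝ≥0∞} {θ : ℝ} (hb : 3 ≤ b) (hθ : θ = (3 / b).toReal) :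
    eLpNorm (fun x => v x * ‖w x‖) 2 μ
      ≤ eLpNorm v b μ * (eLpNorm w 2 μ ^ (1 - θ) * eLpNorm w 6 μ ^ θ) := by
  rcases eq_or_ne b ⊤ with h | h
  · subst h
    have hθ0 : θ = 0 := by rw [hθ]; simp
    rw [hθ0]
    have h2 := eLpNorm_le_eLpNorm_mul_eLpNorm'_of_norm (p := ⊤) (q := 2) (r := 2) hv hw.norm
      (fun a b => a * b) 1 (Eventually.of_forall (fun x => by
        rw [norm_mul]; simp)) (μ := μ)
    rw [ENNReal.coe_one, one_mul, eLpNorm_norm] at h2
    simpa using h2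
  · have hb3 : 3 ≤ b.toReal := by
      have := (ENNReal.toReal_le_toReal (by norm_num) h).2 hb
      simpa using this
    have h2 := prod_le_fin hv hw (b := b.toReal) (θ := θ) (by linarith)
      (by rw [hθ, ENNReal.toReal_div]; simp)
      (by rw [hθ]; exact ENNReal.toReal_nonneg)
      (by
        rw [hθ, ENNReal.toReal_div]
        simp only [ENNReal.toReal_ofNat]
        rw [div_le_one (by linarith)]
        exact hb3)
    rwa [ENNReal.ofReal_toReal h] at h2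

end product

end Pool.Agent.TH301.EQ
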