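import Pool.Agent.TH301.EQ.Key
import Pool.Agent.TH301.EQ.Space

/-!
The trilinear form and the increments of the velocity.
-/

set_option autoImplicit false
set_option linter.unusedSectionVars false

open MeasureTheory Set Filter Topology
open scoped InnerProductSpace ENNReal ContDiff NNReal

namespace Pool.Agent.TH301.EQ

open H772R2.NS

theorem norm_alt_sub_le (a b : E3) : ‖alt a b‖ ≤ 2 * (‖b‖ * ‖a - b‖) := by
  have h0 : alt b b = 0 := by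
    ext p
    simp [alt_apply]
  have h1 : alt a b = alt (a - b) b := by rw [alt_sub_left, h0, sub_zero]
  rw [h1]
  refine (norm_alt_le _ _).trans (le_of_eq ?_)
  ring

/-- the alternating product in terms of the difference, for functions -/
theorem alt_inc_fun {α : Type*} {mα : MeasurableSpace α} {μ : Measure α} {f g : α → E3}
    (mf : AEStronglyMeasurable f μ) (mg : AEStronglyMeasurable g μ) :
    eLpNorm (fun x => alt (f x) (g x)) 2 μ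
      ≤ 2 * (eLpNorm g 6 μ * (eLpNorm (f - g) 2 μ ^ (1 / 2 : ℝ)
        * eLpNorm (f - g) 6 μ ^ (1 / 2 : ℝ))) := by
  have h1 : eLpNorm (fun x => alt (f x) (g x)) 2 μ
      ≤ 2 * eLpNorm (fun x => ‖g x‖ * ‖(f - g) x‖) 2 μ := by
    have := eLpNorm_le_nnreal_smul_eLpNorm_of_ae_le_mul (μ := μ) (p := 2)
      (f := fun x => alt (f x) (g x)) (g := fun x => ‖g x‖ * ‖(f - g) x‖) (c := 2)
      (Eventually.of_forall fun x => by
        have := norm_alt_sub_le (f x) (g x)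
        rw [← NNReal.coe_le_coe]
        simpa [abs_of_nonneg (mul_nonneg (norm_nonneg (g x)) (norm_nonneg (f x - g x)))] using this)
    simpa [ENNReal.smul_def] using this
  refine h1.trans (mul_le_mul_right ?_ _)
  have h3 : (1 / 2 : ℝ) = (3 / 6 : ℝ≥0∞).toReal := by
    rw [ENNReal.toReal_div]
    norm_num
  have h2 := prod_le (μ := μ) (v := fun x => ‖g x‖) (w := f - g) mg.norm (mf.sub mg)
    (b := 6) (θ := 1 / 2) (by norm_num) h3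
  rw [eLpNorm_norm] at h2
  have h4 : (1 : ℝ) - 1 / 2 = 1 / 2 := by norm_num
  rw [h4] at h2
  exact h2

variable {Ω : Set E3}

/-- the constant -/
noncomputable def c0 : ℝ := 2 * (CS * Real.sqrt CS)

theorem c0_nonneg : 0 ≤ c0 := by unfold c0; positivity

/-- **The trilinear form and the increments.** -/
theorem tri_inc (hΩ : MeasurableSet Ω) {p q : L2V Ω × L2M Ω} (hp : p ∈ graphW Ω)
    (hq : q ∈ graphW Ω) :
    |⟪tensL p.1, q.2⟫_ℝ|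
      ≤ c0 * (‖p.2‖ * ‖q.2‖ * Real.sqrt (‖p.2‖ + ‖q.2‖) * Real.sqrt ‖p.1 - q.1‖) := by
  have hpq : p - q ∈ graphW Ω := (graphW Ω).sub_mem hp hq
  have k1 := abs_tri_le hΩ hp hq
  have k2 := alt_inc_fun (Lp.aestronglyMeasurable p.1) (Lp.aestronglyMeasurable q.1)
  have e1 : eLpNorm ((p.1 : E3 → E3) - (q.1 : E3 → E3)) 2 (volume.restrict Ω) = ‖p.1 - q.1‖ₑ := by
    rw [Lp.enorm_def]
    exact (eLpNorm_congr_ae (Lp.coeFn_sub p.1 q.1)).symm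
  have e2 : eLpNorm ((p.1 : E3 → E3) - (q.1 : E3 → E3)) 6 (volume.restrict Ω)
      ≤ (CS : ℝ≥0∞) * (‖p.2‖ₑ + ‖q.2‖ₑ) := by
    have h1 := six_le hΩ hpq
    have h2 : eLpNorm ((p - q).1 : E3 → E3) 6 (volume.restrict Ω)
        = eLpNorm ((p.1 : E3 → E3) - (q.1 : E3 → E3)) 6 (volume.restrict Ω) :=
      eLpNorm_congr_ae (Lp.coeFn_sub p.1 q.1)
    rw [← h2]
    refine h1.trans (mul_le_mul_right ?_ _)
    exact enorm_sub_le
  have e3 := six_le hΩ hq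
  rw [e1] at k2
  have k3 : eLpNorm (fun x => alt (p.1 x) (q.1 x)) 2 (volume.restrict Ω)
      ≤ 2 * (((CS : ℝ≥0∞) * ‖q.2‖ₑ) * (‖p.1 - q.1‖ₑ ^ (1 / 2 : ℝ)
        * ((CS : ℝ≥0∞) * (‖p.2‖ₑ + ‖q.2‖ₑ)) ^ (1 / 2 : ℝ))) := by
    refine k2.trans (mul_le_mul_right (mul_le_mul' e3 (mul_le_mul_right ?_ _)) _)
    exact ENNReal.rpow_le_rpow e2 (by norm_num)
  have t1 : (CS : ℝ≥0∞) * (‖p.2‖ₑ + ‖q.2‖ₑ) < ⊤ :=
    ENNReal.mul_lt_top (by simp) (ENNReal.add_lt_top.2 ⟨enorm_lt_top, enorm_lt_top⟩)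
  have t2 : 2 * (((CS : ℝ≥0∞) * ‖q.2‖ₑ) * (‖p.1 - q.1‖ₑ ^ (1 / 2 : ℝ)
        * ((CS : ℝ≥0∞) * (‖p.2‖ₑ + ‖q.2‖ₑ)) ^ (1 / 2 : ℝ))) < ⊤ :=
    ENNReal.mul_lt_top (by simp) (ENNReal.mul_lt_top
      (ENNReal.mul_lt_top (by simp) enorm_lt_top) (ENNReal.mul_lt_top
        (ENNReal.rpow_lt_top_of_nonneg (by norm_num) enorm_ne_top)
        (ENNReal.rpow_lt_top_of_nonneg (by norm_num) t1.ne)))
  have k4 := ENNReal.toReal_mono t2.ne k3
  rw [ENNReal.toReal_mul, ENNReal.toReal_mul, ENNReal.toReal_mul, ENNReal.toReal_mul,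
    ← ENNReal.toReal_rpow, ← ENNReal.toReal_rpow, ENNReal.toReal_mul,
    ENNReal.toReal_add enorm_ne_top enorm_ne_top] at k4
  simp only [toReal_enorm, ENNReal.toReal_ofNat, ENNReal.coe_toReal] at k4
  rw [← Real.sqrt_eq_rpow, ← Real.sqrt_eq_rpow, Real.sqrt_mul NNReal.zero_le_coe] at k4
  refine k1.trans ((mul_le_mul_of_nonneg_left k4 (norm_nonneg _)).trans (le_of_eq ?_))
  unfold c0
  ring

/-- the pointwise inequality of the loop -/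
theorem young4 {a c D ℓ I μ ε : ℝ} (ha : 0 ≤ a) (hc : 0 ≤ c) (hD : 0 ≤ D) (hℓ : 0 < ℓ)
    (hI : 0 < I) (hμ0 : 0 ≤ μ) (hμ : I ^ 2 ≤ μ ^ 3 * ℓ) (hε : 0 < ε) (hε1 : ε ≤ 1) :
    a * c * Real.sqrt (a + c) * Real.sqrt D
      ≤ ε * (D ^ 2 / ℓ) + ε⁻¹ * (μ * (a ^ 2 + c ^ 2 + ℓ * (a ^ 2 * c ^ 2) / I)) := by
  set s := a ^ 2 + c ^ 2 with hs
  set z := ℓ * (a ^ 2 * c ^ 2) / I with hz
  set P := D ^ 2 / ℓ with hP
  set Q := μ * (s + z) with hQ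
  have hs0 : 0 ≤ s := by positivity
  have hz0 : 0 ≤ z := by positivity
  have hP0 : 0 ≤ P := by positivity
  have hQ0 : 0 ≤ Q := by positivity
  have h1 : (a * c * Real.sqrt (a + c) * Real.sqrt D) ^ 4 = a ^ 4 * c ^ 4 * (a + c) ^ 2 * D ^ 2 := by
    have e1 : Real.sqrt (a + c) ^ 4 = (a + c) ^ 2 := by
      rw [show (4 : ℕ) = 2 * 2 from rfl, pow_mul, Real.sq_sqrt (by positivity)]
    have e2 : Real.sqrt D ^ 4 = D ^ 2 := by
      rw [show (4 : ℕ) = 2 * 2 from rfl, pow_mul, Real.sq_sqrt hD]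
    rw [mul_pow, mul_pow, mul_pow, e1, e2]
  have h2 : a ^ 4 * c ^ 4 * (a + c) ^ 2 * D ^ 2 ≤ P * Q ^ 3 := by
    have e1 : 3 * s * z ^ 2 ≤ (s + z) ^ 3 := by
      have : 0 ≤ s ^ 3 + 3 * s ^ 2 * z + z ^ 3 := by positivity
      nlinarith
    have e2 : Q ^ 3 = μ ^ 3 * (s + z) ^ 3 := by rw [hQ]; ring
    have e3 : P * Q ^ 3 = D ^ 2 / ℓ ^ 2 * ((μ ^ 3 * ℓ) * (s + z) ^ 3) := by
      rw [e2, hP]; field_simp
    have e4 : D ^ 2 / ℓ ^ 2 * (I ^ 2 * (3 * s * z ^ 2)) ≤ P * Q ^ 3 := by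
      rw [e3]
      gcongr
    have e5 : D ^ 2 / ℓ ^ 2 * (I ^ 2 * (3 * s * z ^ 2)) = 3 * D ^ 2 * s * (a ^ 4 * c ^ 4) := by
      rw [hz]; field_simp
    rw [e5] at e4
    refine le_trans ?_ e4
    have e6 : (a + c) ^ 2 ≤ 3 * s := by rw [hs]; nlinarith [sq_nonneg (a - c), sq_nonneg a, sq_nonneg c]
    calc a ^ 4 * c ^ 4 * (a + c) ^ 2 * D ^ 2 ≤ a ^ 4 * c ^ 4 * (3 * s) * D ^ 2 := by gcongr
      _ = _ := by ring
  have h3 : P * Q ^ 3 ≤ (ε * P + ε⁻¹ * Q) ^ 4 := by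
    have hinv : 1 ≤ ε⁻¹ := (one_le_inv₀ hε).2 hε1
    set α := ε * P with hα
    set β := ε⁻¹ * Q with hβ
    have hα0 : 0 ≤ α := by positivity
    have hβ0 : 0 ≤ β := by positivity
    have e1 : α * β ^ 3 = ε⁻¹ ^ 2 * (P * Q ^ 3) := by
      rw [hα, hβ]; field_simp
    have e2 : P * Q ^ 3 ≤ ε⁻¹ ^ 2 * (P * Q ^ 3) := by
      have : 1 ≤ ε⁻¹ ^ 2 := one_le_pow₀ hinv
      nlinarith [mul_nonneg hP0 (pow_nonneg hQ0 3)]
    have e3 : α * β ^ 3 ≤ (α + β) ^ 4 := by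
      have : 0 ≤ α ^ 4 + 4 * α ^ 3 * β + 6 * α ^ 2 * β ^ 2 + 3 * α * β ^ 3 + β ^ 4 := by positivity
      nlinarith
    linarith
  refine le_of_pow_le_pow_left₀ (n := 4) (by norm_num) (by positivity) ?_
  rw [h1]
  exact h2.trans h3

end Pool.Agent.TH301.EQ
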