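import Pool.Agent.TH301.EQ.Alt

/-!
The trilinear form on `H¹_{0,σ}` in terms of the alternating product.
-/

set_option autoImplicit false
set_option linter.unusedSectionVars false

open MeasureTheory Set Filter Topology
open scoped InnerProductSpace ENNReal ContDiff NNReal

namespace Pool.Agent.TH301.EQ

open H772R2.NS

variable {Ω : Set E3}

theorem memLp_alt (hΩ : MeasurableSet Ω) {p q : L2V Ω × L2M Ω} (hp : p ∈ graphW Ω)
    (hq : q ∈ graphW Ω) : MemLp (fun x => alt (p.1 x) (q.1 x)) 2 (volume.restrict Ω) := by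
  refine ⟨aesm_alt (Lp.aestronglyMeasurable _) (Lp.aestronglyMeasurable _), ?_⟩
  refine (eLpNorm_alt_le (Lp.aestronglyMeasurable _) (Lp.aestronglyMeasurable _)).trans_lt ?_
  exact ENNReal.mul_lt_top (by simp) (ENNReal.mul_lt_top (four_lt_top hΩ hp) (four_lt_top hΩ hq))

open Classical in
/-- the alternating product as an element of `L²`. -/
noncomputable def altL (v w : L2V Ω) : L2M Ω :=
  if h : MemLp (fun x => alt (v x) (w x)) 2 (volume.restrict Ω) then h.toLp _ else 0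

theorem altL_coe (hΩ : MeasurableSet Ω) {p q : L2V Ω × L2M Ω} (hp : p ∈ graphW Ω)
    (hq : q ∈ graphW Ω) :
    (altL p.1 q.1 : E3 → M3) =ᵐ[volume.restrict Ω] fun x => alt (p.1 x) (q.1 x) := by
  unfold altL
  rw [dif_pos (memLp_alt hΩ hp hq)]
  exact MemLp.coeFn_toLp _

theorem norm_altL (hΩ : MeasurableSet Ω) {p q : L2V Ω × L2M Ω} (hp : p ∈ graphW Ω)
    (hq : q ∈ graphW Ω) :
    ‖altL p.1 q.1‖ = (eLpNorm (fun x => alt (p.1 x) (q.1 x)) 2 (volume.restrict Ω)).toReal := by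
  unfold altL
  rw [dif_pos (memLp_alt hΩ hp hq)]
  exact Lp.norm_toLp _ _

theorem norm_altL_le (hΩ : MeasurableSet Ω) {p q : L2V Ω × L2M Ω} (hp : p ∈ graphW Ω)
    (hq : q ∈ graphW Ω) : ‖altL p.1 q.1‖ ≤ 2 * (n4 p.1 * n4 q.1) := by
  rw [norm_altL hΩ hp hq]
  have h := ENNReal.toReal_mono (ENNReal.mul_lt_top (by simp)
    (ENNReal.mul_lt_top (four_lt_top hΩ hp) (four_lt_top hΩ hq))).ne
    (eLpNorm_alt_le (μ := volume.restrict Ω) (Lp.aestronglyMeasurable p.1)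
      (Lp.aestronglyMeasurable q.1))
  simpa [n4, ENNReal.toReal_mul] using h

theorem altL_sub (hΩ : MeasurableSet Ω) {p p' q : L2V Ω × L2M Ω} (hp : p ∈ graphW Ω)
    (hp' : p' ∈ graphW Ω) (hq : q ∈ graphW Ω) :
    altL p.1 q.1 - altL p'.1 q.1 = altL (p - p').1 q.1 := by
  apply Lp.ext
  have h1 : p - p' ∈ graphW Ω := (graphW Ω).sub_mem hp hp'
  filter_upwards [Lp.coeFn_sub (altL p.1 q.1) (altL p'.1 q.1), altL_coe hΩ hp hq,
    altL_coe hΩ hp' hq, altL_coe hΩ h1 hq, Lp.coeFn_sub p.1 p'.1] with x a b c d e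
  rw [a, d]
  simp only [Pi.sub_apply, Prod.fst_sub] at e ⊢
  rw [b, c, e, alt_sub_left]

theorem altL_comm (hΩ : MeasurableSet Ω) {p q : L2V Ω × L2M Ω} (hp : p ∈ graphW Ω)
    (hq : q ∈ graphW Ω) : altL p.1 q.1 = -altL q.1 p.1 := by
  apply Lp.ext
  filter_upwards [Lp.coeFn_neg (altL q.1 p.1), altL_coe hΩ hp hq, altL_coe hΩ hq hp] with x a b c
  rw [a, b, Pi.neg_apply, c]
  ext i
  simp only [alt_apply, PiLp.neg_apply]
  ring

theorem n4_tendsto (hΩ : MeasurableSet Ω) {p : L2V Ω × L2M Ω} (hp : p ∈ graphW Ω) :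
    Tendsto (fun q : L2V Ω × L2M Ω => n4 (q - p).1) (𝓝[(graphW Ω : Set _)] p) (𝓝 0) := by
  have h0 : Tendsto (fun q : L2V Ω × L2M Ω => q - p) (𝓝[(graphW Ω : Set _)] p) (𝓝 0) := by
    have : Tendsto (fun q : L2V Ω × L2M Ω => q - p) (𝓝 p) (𝓝 (p - p)) :=
      (continuous_id.sub continuous_const).tendsto p
    rw [sub_self] at this
    exact this.mono_left nhdsWithin_le_nhds
  have hB : Tendsto (fun q : L2V Ω × L2M Ω => (CS : ℝ) ^ 3 * (‖(q - p).1‖ * ‖(q - p).2‖ ^ 3))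
      (𝓝[(graphW Ω : Set _)] p) (𝓝 0) := by
    have hc : Continuous (fun q : L2V Ω × L2M Ω => (CS : ℝ) ^ 3 * (‖q.1‖ * ‖q.2‖ ^ 3)) := by
      fun_prop
    have := (hc.tendsto 0).comp h0
    simpa [Function.comp_def] using this
  have h4 : Tendsto (fun q : L2V Ω × L2M Ω => n4 (q - p).1 ^ 4) (𝓝[(graphW Ω : Set _)] p)
      (𝓝 0) := by
    refine squeeze_zero' (Eventually.of_forall (fun q => by positivity)) ?_ hB
    filter_upwards [self_mem_nhdsWithin] with q hq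
    exact n4_pow hΩ ((graphW Ω).sub_mem hq hp)
  have s0 : Tendsto Real.sqrt (𝓝 0) (𝓝 0) := by
    simpa using Real.continuous_sqrt.tendsto 0
  have h5 := s0.comp (s0.comp h4)
  refine h5.congr (fun q => ?_)
  have hnn : 0 ≤ n4 (q - p).1 := ENNReal.toReal_nonneg
  simp only [Function.comp]
  rw [show n4 (q - p).1 ^ 4 = (n4 (q - p).1 ^ 2) ^ 2 by ring, Real.sqrt_sq (by positivity),
    Real.sqrt_sq hnn]

theorem altL_continuousOn_left (hΩ : MeasurableSet Ω) {q : L2V Ω × L2M Ω} (hq : q ∈ graphW Ω) :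
    ContinuousOn (fun p : L2V Ω × L2M Ω => altL p.1 q.1) (graphW Ω : Set (L2V Ω × L2M Ω)) := by
  intro p hp
  rw [ContinuousWithinAt, tendsto_iff_norm_sub_tendsto_zero]
  have hlim : Tendsto (fun r : L2V Ω × L2M Ω => 2 * (n4 (r - p).1 * n4 q.1))
      (𝓝[(graphW Ω : Set _)] p) (𝓝 0) := by
    have := ((n4_tendsto hΩ hp).mul_const (n4 q.1)).const_mul 2
    simpa using this
  refine squeeze_zero' (Eventually.of_forall (fun q => norm_nonneg _)) ?_ hlim
  filter_upwards [self_mem_nhdsWithin] with r hr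
  rw [altL_sub hΩ hr hp hq]
  exact norm_altL_le hΩ ((graphW Ω).sub_mem hr hp) hq

theorem altL_continuousOn_right (hΩ : MeasurableSet Ω) {p : L2V Ω × L2M Ω} (hp : p ∈ graphW Ω) :
    ContinuousOn (fun q : L2V Ω × L2M Ω => altL p.1 q.1) (graphW Ω : Set (L2V Ω × L2M Ω)) := by
  refine (altL_continuousOn_left hΩ hp).neg.congr fun q hq => ?_
  exact altL_comm hΩ hp hq

/-- the identity for test pairs -/
theorem pre_identity (hΩ : MeasurableSet Ω) {p q : L2V Ω × L2M Ω} (hp : p ∈ preW Ω)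
    (hq : q ∈ preW Ω) : ⟪tensL p.1, q.2⟫_ℝ = ⟪altL p.1 q.1, p.2⟫_ℝ := by
  have hpW : p ∈ graphW Ω := Submodule.le_topologicalClosure _ hp
  have hqW : q ∈ graphW Ω := Submodule.le_topologicalClosure _ hq
  obtain ⟨φ, h1, h2, h3⟩ := hp
  obtain ⟨ψ, k1, k2, k3⟩ := hq
  have e1 : ⟪tensL p.1, q.2⟫_ℝ = ∫ x in Ω, ⟪tens (φ x), jac ψ x⟫_ℝ := by
    rw [L2.inner_def]
    apply integral_congr_ae
    filter_upwards [tensL_coe hΩ hpW, h2, k3] with x a b c
    rw [a, b, c]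
  have e2 : ⟪altL p.1 q.1, p.2⟫_ℝ = ∫ x in Ω, ⟪alt (φ x) (ψ x), jac φ x⟫_ℝ := by
    rw [L2.inner_def]
    apply integral_congr_ae
    filter_upwards [altL_coe hΩ hpW hqW, h2, k2, h3] with x a b c d
    rw [a, b, c, d]
  have z : ∀ χ : E3 → E3, IsTest Ω χ → ∀ x ∉ Ω, jac χ x = 0 := by
    intro χ hχ x hx
    apply image_eq_zero_of_notMem_tsupport
    intro hc
    exact hx (hχ.supp (tsupport_jac_subset hc))
  rw [e1, e2, setIntegral_eq_integral_of_forall_compl_eq_zero,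
    setIntegral_eq_integral_of_forall_compl_eq_zero]
  · exact test_identity h1 k1
  · intro x hx
    rw [z φ h1 x hx, inner_zero_right]
  · intro x hx
    rw [z ψ k1 x hx, inner_zero_right]

/-- **The identity**: `∫ (v ⊗ v) : ∇w = ∫ (v ⊗ w - w ⊗ v) : ∇v`. -/
theorem identity (hΩ : MeasurableSet Ω) {p q : L2V Ω × L2M Ω} (hp : p ∈ graphW Ω)
    (hq : q ∈ graphW Ω) : ⟪tensL p.1, q.2⟫_ℝ = ⟪altL p.1 q.1, p.2⟫_ℝ := by
  have step : ∀ q ∈ preW Ω, ⟪tensL p.1, q.2⟫_ℝ - ⟪altL p.1 q.1, p.2⟫_ℝ = 0 := by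
    intro q hq
    have hqW : q ∈ graphW Ω := Submodule.le_topologicalClosure _ hq
    refine graphW_induction (fun p => ⟪tensL p.1, q.2⟫_ℝ - ⟪altL p.1 q.1, p.2⟫_ℝ) ?_ ?_ hp
    · exact ((tensL_continuousOn hΩ).inner continuousOn_const).sub
        ((altL_continuousOn_left hΩ hqW).inner continuous_snd.continuousOn)
    · intro r hr
      show ⟪tensL r.1, q.2⟫_ℝ - ⟪altL r.1 q.1, r.2⟫_ℝ = 0
      rw [pre_identity hΩ hr hq, sub_self]
  have := graphW_induction (fun q => ⟪tensL p.1, q.2⟫_ℝ - ⟪altL p.1 q.1, p.2⟫_ℝ) ?_ step hq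
  · exact sub_eq_zero.1 this
  · exact ((continuous_const.inner continuous_snd).continuousOn).sub
        ((altL_continuousOn_right hΩ hp).inner continuousOn_const)

/-- the bound of the trilinear form -/
theorem abs_tri_le (hΩ : MeasurableSet Ω) {p q : L2V Ω × L2M Ω} (hp : p ∈ graphW Ω)
    (hq : q ∈ graphW Ω) :
    |⟪tensL p.1, q.2⟫_ℝ|
      ≤ ‖p.2‖ * (eLpNorm (fun x => alt (p.1 x) (q.1 x)) 2 (volume.restrict Ω)).toReal := by
  rw [identity hΩ hp hq, ← norm_altL hΩ hp hq, mul_comm]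
  exact abs_real_inner_le_norm _ _

end Pool.Agent.TH301.EQ
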