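import Pool.Agent.TH301.EQ.Inc
import Pool.Agent.H772R2.NS.Build
import Pool.Agent.TH340.FF.Ac2

/-!
The closed loop: the mean square increments of a weak solution on an interval.
-/

set_option autoImplicit false
set_option linter.unusedSectionVars false

open MeasureTheory Set Filter Topology
open scoped InnerProductSpace ENNReal ContDiff NNReal

namespace Pool.Agent.TH301.EQ

open H772R2.NS Pool.Agent.TH340.FF

variable {Ω : Set E3}

/-- the constant of the closed loop -/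
noncomputable def C2 : ℝ := 16 * c0 * (c0 + 1)

theorem C2_nonneg : 0 ≤ C2 := by
  have := c0_nonneg
  unfold C2
  positivity

theorem sq_increment {H : Type*} [NormedAddCommGroup H] [InnerProductSpace ℝ H] (a b : H) :
    ‖a - b‖ ^ 2 = ⟪a - b, a⟫_ℝ + ⟪b - a, b⟫_ℝ := by
  rw [inner_sub_left, inner_sub_left, real_inner_self_eq_norm_sq, real_inner_self_eq_norm_sq,
    real_inner_comm a b, norm_sub_sq_real]
  ring

/-- **The closed loop.** -/
theorem loop (hΩ : IsOpen Ω) {ν T M : ℝ} (hν : 0 ≤ ν) (hT : 0 < T)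
    {u : ℝ → L2V Ω} {G : ℝ → L2M Ω} {f : ℝ → L2V Ω} (h : IsWeakSolution Ω ν T u G f)
    (hM : ∀ t ∈ Icc 0 T, ‖u t‖ ≤ M) {x y I μ : ℝ} (hx : 0 ≤ x) (hxy : x < y) (hy : y ≤ T)
    (hI : ∫ τ in x..y, ‖G τ‖ ^ 2 = I) (hI0 : 0 < I) (hμ0 : 0 ≤ μ)
    (hμ : I ^ 2 ≤ μ ^ 3 * (y - x)) :
    ∀ᵐ r : ℝ, r ∈ Ioc x y → ∀ s ∈ Icc x y, |⟪u r - u s, u r⟫_ℝ|
      ≤ 2 * ((C2 * μ + ν / 2) * (I + (y - x) * ‖G r‖ ^ 2) + M * ∫ τ in x..y, ‖f τ‖) := by
  have S := h.toSol hΩ hν hT hM
  have hM0 : 0 ≤ M := S.M0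
  have hGi : IntervalIntegrable (fun t => ‖G t‖ ^ 2) volume 0 T := by
    rw [intervalIntegrable_iff_integrableOn_Ioc_of_le hT.le]
    exact S.G2
  have hfi : IntervalIntegrable (fun t => ‖f t‖) volume 0 T := by
    rw [intervalIntegrable_iff_integrableOn_Ioc_of_le hT.le]
    exact S.fint.norm
  have hui : IntervalIntegrable u volume 0 T := by
    rw [intervalIntegrable_iff_integrableOn_Ioc_of_le hT.le]
    refine Integrable.mono' (g := fun _ => M) (integrable_const M) S.umeas ?_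
    filter_upwards [ae_restrict_mem measurableSet_Ioc] with t ht
    exact hM t ⟨ht.1.le, ht.2⟩
  have hu2 : IntervalIntegrable (fun t => ‖u t‖ ^ 2) volume 0 T := by
    rw [intervalIntegrable_iff_integrableOn_Ioc_of_le hT.le]
    refine Integrable.mono' (g := fun _ => M ^ 2) (integrable_const _)
      (S.umeas.norm.pow 2) ?_
    filter_upwards [ae_restrict_mem measurableSet_Ioc] with t ht
    rw [Real.norm_eq_abs, abs_of_nonneg (by positivity)]
    exact pow_le_pow_left₀ (norm_nonneg _) (hM t ⟨ht.1.le, ht.2⟩) 2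
  have hin : ∀ v : L2V Ω, IntervalIntegrable (fun t => ⟪v, u t⟫_ℝ) volume 0 T := fun v => by
    rw [intervalIntegrable_iff_integrableOn_Ioc_of_le hT.le] at hui ⊢
    exact Integrable.const_inner v hui
  set ℓ := y - x with hℓ
  have hℓ0 : 0 < ℓ := by rw [hℓ]; linarith
  have hdi : ∀ v : L2V Ω, IntervalIntegrable (fun t => ‖u t - v‖ ^ 2) volume 0 T := fun v => by
    have e : (fun t => ‖u t - v‖ ^ 2) = fun t => ‖u t‖ ^ 2 - 2 * ⟪v, u t⟫_ℝ + ‖v‖ ^ 2 := by
      funext t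
      rw [norm_sub_sq_real, real_inner_comm]
    rw [e]
    exact (hu2.sub ((hin v).const_mul 2)).add intervalIntegrable_const
  set Φ : ℝ → ℝ := fun r => ∫ τ in x..y, ‖u τ - u r‖ ^ 2 with hΦ
  have sub : ∀ {g : ℝ → ℝ}, IntervalIntegrable g volume 0 T → IntervalIntegrable g volume x y :=
    fun hg => sub_int hg hx hxy.le hy
  -- the function `Φ` is integrable
  have hΦf : Φ = fun r => (∫ τ in x..y, ‖u τ‖ ^ 2) - 2 * ⟪∫ τ in x..y, u τ, u r⟫_ℝ
      + ℓ * ‖u r‖ ^ 2 := by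
    funext r
    simp only [hΦ]
    have e : ∀ τ, ‖u τ - u r‖ ^ 2 = ‖u τ‖ ^ 2 - 2 * ⟪u r, u τ⟫_ℝ + ‖u r‖ ^ 2 := by
      intro τ
      rw [norm_sub_sq_real, real_inner_comm]
    simp_rw [e]
    rw [intervalIntegral.integral_add ((sub hu2).sub ((sub (hin (u r))).const_mul 2))
      intervalIntegrable_const, intervalIntegral.integral_sub (sub hu2)
      ((sub (hin (u r))).const_mul 2), intervalIntegral.integral_const_mul,
      intervalIntegral.integral_const, smul_eq_mul]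
    have e2 : ∫ τ in x..y, ⟪u r, u τ⟫_ℝ = ⟪∫ τ in x..y, u τ, u r⟫_ℝ := by
      rw [intervalIntegral.integral_of_le hxy.le, intervalIntegral.integral_of_le hxy.le,
        real_inner_comm]
      refine integral_inner ?_ (u r)
      rw [intervalIntegrable_iff_integrableOn_Ioc_of_le hT.le] at hui
      exact hui.mono_set (Ioc_subset_Ioc hx hy)
    rw [e2]
  have hΦi : IntervalIntegrable Φ volume 0 T := by
    rw [hΦf]
    exact (intervalIntegrable_const.sub ((hin _).const_mul 2)).add (hu2.const_mul ℓ)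
  have hΦ0 : ∀ r, 0 ≤ Φ r := fun r =>
    intervalIntegral.integral_nonneg hxy.le fun τ _ => by positivity
  -- constants
  have hc := c0_nonneg
  set ε : ℝ := (8 * (c0 + 1))⁻¹ with hε
  have hε0 : 0 < ε := by positivity
  have hε1 : ε ≤ 1 := by
    rw [hε]
    exact inv_le_one_of_one_le₀ (by linarith)
  have hcε : c0 * ε ≤ 1 / 8 := by
    rw [hε, ← div_eq_mul_inv, div_le_div_iff₀ (by positivity) (by norm_num)]
    linarith
  have hcε2 : c0 * ε⁻¹ = C2 / 2 := by
    rw [hε, inv_inv, C2]; ring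
  set F : ℝ := ∫ τ in x..y, ‖f τ‖ with hF
  have hF0 : 0 ≤ F := intervalIntegral.integral_nonneg hxy.le fun τ _ => norm_nonneg _
  set κ : ℝ := C2 * μ + ν / 2 with hκ
  have hC2 := C2_nonneg
  have hκ0 : 0 ≤ κ := by positivity
  set P : ℝ → ℝ := fun r => κ * (I + ℓ * ‖G r‖ ^ 2) + M * F with hP
  have hP0 : ∀ r, 0 ≤ P r := fun r => by simp only [hP]; positivity
  have hPi : IntervalIntegrable P volume 0 T :=
    ((intervalIntegrable_const.add (hGi.const_mul ℓ)).const_mul κ).add intervalIntegrable_const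
  set A : ℝ → ℝ := fun r => 1 / (8 * ℓ) * Φ r + P r with hA
  have hAi : IntervalIntegrable A volume 0 T := (hΦi.const_mul _).add hPi
  -- step 1
  have hmem : ∀ᵐ t : ℝ, t ∈ Ioc 0 T → (u t, G t) ∈ graphW Ω := by
    have := S.memW
    rwa [ae_restrict_iff' measurableSet_Ioc] at this
  have step1 : ∀ r ∈ Ioc x y, (u r, G r) ∈ graphW Ω → ∀ s ∈ Icc x y,
      |⟪u r - u s, u r⟫_ℝ| ≤ A r := by
    intro r hr hW s hs
    have hr0 : r ∈ Icc 0 T := ⟨hx.trans hr.1.le, hr.2.trans hy⟩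
    set B : ℝ → ℝ := fun τ => c0 * ε / ℓ * ‖u τ - u r‖ ^ 2
      + c0 * ε⁻¹ * μ * (‖G τ‖ ^ 2 + ‖G r‖ ^ 2 + ℓ / I * ‖G r‖ ^ 2 * ‖G τ‖ ^ 2)
      + ν / 2 * (‖G τ‖ ^ 2 + ‖G r‖ ^ 2) + M * ‖f τ‖ with hB
    have hB0 : ∀ τ, 0 ≤ B τ := fun τ => by simp only [hB]; positivity
    have hBi : IntervalIntegrable B volume 0 T :=
      ((((hdi (u r)).const_mul _).add (((hGi.add intervalIntegrable_const).add
        (hGi.const_mul _)).const_mul _)).add ((hGi.add intervalIntegrable_const).const_mul _)).add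
        (hfi.const_mul M)
    have hptw : ∀ᵐ τ : ℝ, τ ∈ Ioc 0 T →
        ‖⟪tensL (u τ), G r⟫_ℝ - ν * ⟪G τ, G r⟫_ℝ + ⟪f τ, u r⟫_ℝ‖ ≤ B τ := by
      filter_upwards [hmem] with τ hτ hτI
      have k1 := tri_inc hΩ.measurableSet (hτ hτI) hW
      simp only at k1
      have k1' := young4 (norm_nonneg (G τ)) (norm_nonneg (G r)) (norm_nonneg (u τ - u r)) hℓ0
        hI0 hμ0 hμ hε0 hε1
      have k1'' := k1.trans (mul_le_mul_of_nonneg_left k1' hc)
      have k2 : |ν * ⟪G τ, G r⟫_ℝ| ≤ ν / 2 * (‖G τ‖ ^ 2 + ‖G r‖ ^ 2) := by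
        rw [abs_mul, abs_of_nonneg hν]
        have k3 := abs_real_inner_le_norm (G τ) (G r)
        have k4 : ‖G τ‖ * ‖G r‖ ≤ (‖G τ‖ ^ 2 + ‖G r‖ ^ 2) / 2 := by
          nlinarith [sq_nonneg (‖G τ‖ - ‖G r‖)]
        calc ν * |⟪G τ, G r⟫_ℝ| ≤ ν * ((‖G τ‖ ^ 2 + ‖G r‖ ^ 2) / 2) :=
              mul_le_mul_of_nonneg_left (k3.trans k4) hν
          _ = _ := by ring
      have k5 : |⟪f τ, u r⟫_ℝ| ≤ M * ‖f τ‖ := by
        calc |⟪f τ, u r⟫_ℝ| ≤ ‖f τ‖ * ‖u r‖ := abs_real_inner_le_norm _ _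
          _ ≤ ‖f τ‖ * M := by
            have := hM r hr0
            gcongr
          _ = _ := mul_comm _ _
      rw [Real.norm_eq_abs]
      have e6 : c0 * (ε * (‖u τ - u r‖ ^ 2 / ℓ)
          + ε⁻¹ * (μ * (‖G τ‖ ^ 2 + ‖G r‖ ^ 2 + ℓ * (‖G τ‖ ^ 2 * ‖G r‖ ^ 2) / I)))
          = c0 * ε / ℓ * ‖u τ - u r‖ ^ 2
            + c0 * ε⁻¹ * μ * (‖G τ‖ ^ 2 + ‖G r‖ ^ 2 + ℓ / I * ‖G r‖ ^ 2 * ‖G τ‖ ^ 2) := by ring
      rw [e6] at k1''
      have k7 := abs_add_le (⟪tensL (u τ), G r⟫_ℝ - ν * ⟪G τ, G r⟫_ℝ) ⟪f τ, u r⟫_ℝ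
      have k8 := abs_sub ⟪tensL (u τ), G r⟫_ℝ (ν * ⟪G τ, G r⟫_ℝ)
      simp only [hB]
      linarith
    have hBint : ∫ τ in x..y, B τ = c0 * ε / ℓ * Φ r
        + c0 * ε⁻¹ * μ * (I + ℓ * ‖G r‖ ^ 2 + ℓ * ‖G r‖ ^ 2)
        + ν / 2 * (I + ℓ * ‖G r‖ ^ 2) + M * F := by
      have ic : ∀ c : ℝ, IntervalIntegrable (fun _ : ℝ => c) volume x y := fun c =>
        intervalIntegrable_const
      have b0 := (sub hGi).add (ic (‖G r‖ ^ 2))
      have b1 := (sub (hdi (u r))).const_mul (c0 * ε / ℓ)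
      have b2a := (sub hGi).const_mul (ℓ / I * ‖G r‖ ^ 2)
      have b2 := (b0.add b2a).const_mul (c0 * ε⁻¹ * μ)
      have b3 := b0.const_mul (ν / 2)
      have b4 := (sub hfi).const_mul M
      simp only [hB]
      rw [intervalIntegral.integral_add ((b1.add b2).add b3) b4,
        intervalIntegral.integral_add (b1.add b2) b3, intervalIntegral.integral_add b1 b2,
        intervalIntegral.integral_const_mul, intervalIntegral.integral_const_mul,
        intervalIntegral.integral_const_mul, intervalIntegral.integral_const_mul,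
        intervalIntegral.integral_add b0 b2a, intervalIntegral.integral_add (sub hGi) (ic _),
        intervalIntegral.integral_const_mul, hI, intervalIntegral.integral_const, smul_eq_mul]
      have e7 : ℓ / I * ‖G r‖ ^ 2 * I = ℓ * ‖G r‖ ^ 2 := by field_simp
      rw [e7]
    have hfin : ∫ τ in x..y, B τ ≤ A r := by
      rw [hBint, hcε2]
      simp only [hA, hP, hκ]
      have g1 : c0 * ε / ℓ * Φ r ≤ 1 / (8 * ℓ) * Φ r := by
        refine mul_le_mul_of_nonneg_right ?_ (hΦ0 r)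
        rw [div_le_div_iff₀ hℓ0 (by positivity)]
        nlinarith
      have g2 : C2 / 2 * μ * (I + ℓ * ‖G r‖ ^ 2 + ℓ * ‖G r‖ ^ 2)
          ≤ C2 * μ * (I + ℓ * ‖G r‖ ^ 2) := by
        have : 0 ≤ C2 * μ * I := by positivity
        nlinarith
      nlinarith
    rcases le_total s r with hsr | hsr
    · have e1 := h.weak_all hΩ hT hW (hx.trans hs.1) hsr hr0.2
      have e2 : ⟪u r - u s, u r⟫_ℝ = ⟪u r, u r⟫_ℝ - ⟪u s, u r⟫_ℝ := inner_sub_left _ _ _
      rw [e2, e1]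
      have e3 := intervalIntegral.norm_integral_le_of_norm_le hsr (by
        filter_upwards [hptw] with τ hτ hτI
        exact hτ ⟨(hx.trans hs.1).trans_lt hτI.1, hτI.2.trans hr0.2⟩)
        (sub_int hBi (hx.trans hs.1) hsr hr0.2)
      rw [Real.norm_eq_abs] at e3
      exact e3.trans ((int_mono_set hBi hB0 hx hs.1 hsr hr.2 hy).trans hfin)
    · have e1 := h.weak_all hΩ hT hW hr0.1 hsr (hs.2.trans hy)
      have e2 : ⟪u r - u s, u r⟫_ℝ = -(⟪u s, u r⟫_ℝ - ⟪u r, u r⟫_ℝ) := by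
        rw [inner_sub_left]; ring
      rw [e2, e1, abs_neg]
      have e3 := intervalIntegral.norm_integral_le_of_norm_le hsr (by
        filter_upwards [hptw] with τ hτ hτI
        exact hτ ⟨hr0.1.trans_lt hτI.1, hτI.2.trans (hs.2.trans hy)⟩)
        (sub_int hBi hr0.1 hsr (hs.2.trans hy))
      rw [Real.norm_eq_abs] at e3
      exact e3.trans ((int_mono_set hBi hB0 hx hr.1.le hsr hs.2 hy).trans hfin)
  -- step 2
  set W : ℝ := ∫ r in x..y, Φ r with hW
  have hPint : ∫ r in x..y, P r = ℓ * (2 * κ * I + M * F) := by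
    have ic : ∀ c : ℝ, IntervalIntegrable (fun _ : ℝ => c) volume x y := fun c =>
      intervalIntegrable_const
    have b1 := (ic I).add ((sub hGi).const_mul ℓ)
    simp only [hP]
    rw [intervalIntegral.integral_add (b1.const_mul κ) (ic _), intervalIntegral.integral_const_mul,
      intervalIntegral.integral_add (ic I) ((sub hGi).const_mul ℓ),
      intervalIntegral.integral_const_mul, hI, intervalIntegral.integral_const,
      intervalIntegral.integral_const, smul_eq_mul, smul_eq_mul]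
    ring
  have hAint : ∫ r in x..y, A r = 1 / (8 * ℓ) * W + ℓ * (2 * κ * I + M * F) := by
    simp only [hA]
    rw [intervalIntegral.integral_add ((sub hΦi).const_mul _) (sub hPi),
      intervalIntegral.integral_const_mul, hPint]
  have step2 : ∀ᵐ r : ℝ, r ∈ Ioc x y → Φ r ≤ ℓ * A r + (1 / (8 * ℓ) * W
      + ℓ * (2 * κ * I + M * F)) := by
    filter_upwards [hmem] with r hr hrI
    have hr1 := step1 r hrI (hr ⟨hx.trans_lt hrI.1, hrI.2.trans hy⟩)
    have e1 : Φ r ≤ ∫ q in x..y, (A r + A q) := by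
      refine intervalIntegral.integral_mono_ae_restrict hxy.le (sub (hdi (u r)))
        (intervalIntegrable_const.add (sub hAi)) ?_
      rw [EventuallyLE, ae_restrict_iff' measurableSet_Icc]
      have hxne : ∀ᵐ q : ℝ, q ≠ x := by simp [ae_iff, measure_singleton]
      filter_upwards [hmem, hxne] with q hq hqx hqI
      have hqJ : q ∈ Ioc x y := ⟨lt_of_le_of_ne hqI.1 (Ne.symm hqx), hqI.2⟩
      have hq1 := step1 q hqJ (hq ⟨hx.trans_lt hqJ.1, hqJ.2.trans hy⟩) r ⟨hrI.1.le, hrI.2⟩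
      have hq2 := hr1 q hqI
      rw [sq_increment (u q) (u r)]
      have a1 := le_abs_self ⟪u q - u r, u q⟫_ℝ
      have a2 := le_abs_self ⟪u r - u q, u r⟫_ℝ
      linarith
    rw [intervalIntegral.integral_add intervalIntegrable_const (sub hAi),
      intervalIntegral.integral_const, smul_eq_mul, hAint] at e1
    exact e1
  have hW0 : W ≤ ℓ * (1 / (8 * ℓ) * W + ℓ * (2 * κ * I + M * F))
      + (y - x) * (1 / (8 * ℓ) * W + ℓ * (2 * κ * I + M * F)) := by
    have ic : ∀ c : ℝ, IntervalIntegrable (fun _ : ℝ => c) volume x y := fun c =>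
      intervalIntegrable_const
    have e1 : W ≤ ∫ r in x..y, (ℓ * A r + (1 / (8 * ℓ) * W + ℓ * (2 * κ * I + M * F))) := by
      refine intervalIntegral.integral_mono_ae_restrict hxy.le (sub hΦi)
        (((sub hAi).const_mul ℓ).add (ic _)) ?_
      rw [EventuallyLE, ae_restrict_iff' measurableSet_Icc]
      have hxne : ∀ᵐ q : ℝ, q ≠ x := by simp [ae_iff, measure_singleton]
      filter_upwards [step2, hxne] with q hq hqx hqI
      exact hq ⟨lt_of_le_of_ne hqI.1 (Ne.symm hqx), hqI.2⟩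
    rw [intervalIntegral.integral_add ((sub hAi).const_mul ℓ) (ic _),
      intervalIntegral.integral_const_mul, hAint, intervalIntegral.integral_const,
      smul_eq_mul] at e1
    exact e1
  set R : ℝ := ℓ * (2 * κ * I + M * F) with hR
  have hWb : 1 / (8 * ℓ) * W ≤ 1 / 3 * R := by
    set w := 1 / (8 * ℓ) * W with hw
    have e1 : W = ℓ * (8 * w) := by rw [hw]; field_simp
    rw [e1] at hW0
    have e2 : ℓ * (8 * w) ≤ ℓ * (2 * w + 2 * R) := by linarith
    have e3 := le_of_mul_le_mul_left e2 hℓ0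
    linarith
  filter_upwards [hmem, step2] with r hr hr2 hrI s hs
  have e1 := step1 r hrI (hr ⟨hx.trans_lt hrI.1, hrI.2.trans hy⟩) s hs
  refine e1.trans ?_
  show A r ≤ 2 * P r
  have e2 := hr2 hrI
  set φ := 1 / (8 * ℓ) * Φ r with hφ
  have e3 : A r = φ + P r := rfl
  have e4 : Φ r = ℓ * (8 * φ) := by rw [hφ]; field_simp
  have e5 : R ≤ ℓ * (2 * P r) := by
    rw [hR]
    refine mul_le_mul_of_nonneg_left ?_ hℓ0.le
    have k1 : 0 ≤ κ * (ℓ * ‖G r‖ ^ 2) := by positivity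
    have k2 : 0 ≤ M * F := by positivity
    simp only [hP]
    nlinarith
  rw [e3, e4] at e2
  have e6 : ℓ * (7 * φ) ≤ ℓ * (P r + 8 / 3 * P r) := by linarith
  have e7 := le_of_mul_le_mul_left e6 hℓ0
  have e8 := hP0 r
  rw [e3]
  linarith

end Pool.Agent.TH301.EQ
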