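import Pool.Agent.H772R2.NS.Build
import Pool.Agent.TH340.FF.Ac2

/-!
Energy equality from a bound of the trilinear form at two times.
-/

set_option autoImplicit false

open MeasureTheory Set Filter Topology
open scoped InnerProductSpace ContDiff

namespace Pool.Agent.TH301.EQ

open H772R2.NS Pool.Agent.TH340.FF

variable {Ω : Set E3}

/-- **Two-time criterion**, in terms of the trilinear form. -/
theorem energy_eq_two (hΩ : IsOpen Ω) {ν T M : ℝ} (hν : 0 ≤ ν) (hT : 0 < T)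
    {u : ℝ → L2V Ω} {G : ℝ → L2M Ω} {f : ℝ → L2V Ω} (h : IsWeakSolution Ω ν T u G f)
    (hM : ∀ t ∈ Icc 0 T, ‖u t‖ ≤ M)
    {ψ : ℝ → ℝ} (hψ0 : ∀ t, 0 ≤ ψ t) (hψ : IntegrableOn ψ (Ioo 0 T))
    (hp : ∀ᵐ t ∂(volume.restrict (Ioo 0 T)), ∀ᵐ s ∂(volume.restrict (Ioo 0 T)),
      |⟪tensL (u s), G t⟫_ℝ| ≤ ψ s + ψ t + |s - t| * (ψ s * ψ t)) :
    ∀ t ∈ Icc 0 T, energyDefect ν u G f t = 0 := by
  have S := h.toSol hΩ hν hT hM
  have hM0 : 0 ≤ M := S.M0
  have hψi : IntervalIntegrable ψ volume 0 T := by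
    rw [intervalIntegrable_iff_integrableOn_Ioc_of_le hT.le, IntegrableOn, restrict_Ioc_eq]
    exact hψ
  set J : ℝ := ∫ r in (0 : ℝ)..T, ψ r with hJ
  have hJ0 : 0 ≤ J := intervalIntegral.integral_nonneg hT.le fun r _ => hψ0 r
  set A := 1 + J + ν / 2 with hA
  have hA0 : 0 ≤ A := by positivity
  set Ψ : ℝ → ℝ := fun t => ψ t + ‖G t‖ ^ 2 with hΨ
  set g : ℝ → ℝ := fun t => ψ t + ν / 2 * ‖G t‖ ^ 2 + M * ‖f t‖ with hg
  have hΨ0 : ∀ t, 0 ≤ Ψ t := fun t => by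
    have := hψ0 t
    simp only [hΨ]; positivity
  have hg0 : ∀ t, 0 ≤ g t := fun t => by
    have h1 := hψ0 t
    simp only [hg]
    positivity
  have hGi : IntervalIntegrable (fun t => ‖G t‖ ^ 2) volume 0 T := by
    rw [intervalIntegrable_iff_integrableOn_Ioc_of_le hT.le]
    exact S.G2
  have hΨi : IntervalIntegrable Ψ volume 0 T := hψi.add hGi
  have hfi : IntervalIntegrable (fun t => ‖f t‖) volume 0 T := by
    rw [intervalIntegrable_iff_integrableOn_Ioc_of_le hT.le]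
    exact S.fint.norm
  have hgi : IntervalIntegrable g volume 0 T :=
    (hψi.add (hGi.const_mul (ν / 2))).add (hfi.const_mul M)
  have hp' : ∀ᵐ t : ℝ, t ∈ Ioo 0 T → ∀ᵐ s : ℝ, s ∈ Ioo 0 T →
      |⟪tensL (u s), G t⟫_ℝ| ≤ ψ s + ψ t + |s - t| * (ψ s * ψ t) := by
    rw [ae_restrict_iff' measurableSet_Ioo] at hp
    filter_upwards [hp] with t ht htI
    have := ht htI
    rwa [ae_restrict_iff' measurableSet_Ioo] at this
  -- the good times
  set good : Set ℝ := {t | t ∈ Icc 0 T ∧ (u t, G t) ∈ graphW Ω ∧ ∀ᵐ s : ℝ, s ∈ Ioo 0 T →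
      |⟪tensL (u s), G t⟫_ℝ| ≤ ψ s + ψ t + |s - t| * (ψ s * ψ t)} with hgood
  -- the basic estimate
  have est : ∀ r ∈ good, ∀ x y, 0 ≤ x → x ≤ y → y ≤ T → r ∈ Icc x y →
      |⟪u y, u r⟫_ℝ - ⟪u x, u r⟫_ℝ| ≤ (∫ τ in x..y, g τ) + A * (y - x) * Ψ r := by
    intro r hr x y hx hxy hy hrI
    obtain ⟨hr1, hr2, hr3⟩ := hr
    rw [h.weak_all hΩ hT hr2 hx hxy hy]
    have gi : IntervalIntegrable g volume x y := sub_int hgi hx hxy hy
    have ψi : IntervalIntegrable ψ volume x y := sub_int hψi hx hxy hy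
    have hc : 0 ≤ (y - x) * ψ r := mul_nonneg (by linarith) (hψ0 r)
    set c : ℝ := ψ r + ν / 2 * ‖G r‖ ^ 2 with hcdef
    have h1 : ‖∫ τ in x..y, (⟪tensL (u τ), G r⟫_ℝ - ν * ⟪G τ, G r⟫_ℝ + ⟪f τ, u r⟫_ℝ)‖
        ≤ ∫ τ in x..y, (g τ + c + (y - x) * ψ r * ψ τ) := by
      refine intervalIntegral.norm_integral_le_of_norm_le hxy ?_
        ((gi.add intervalIntegrable_const).add (ψi.const_mul _))
      have hTne : ∀ᵐ t : ℝ, t ≠ T := by simp [ae_iff, measure_singleton]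
      filter_upwards [hr3, hTne] with τ hτ hτT hτI
      have hτ0 : τ ∈ Ioo 0 T :=
        ⟨hx.trans_lt hτI.1, lt_of_le_of_ne (hτI.2.trans hy) hτT⟩
      have k1 := hτ hτ0
      have k0 : |τ - r| ≤ y - x := by
        rw [abs_le]
        constructor <;> linarith [hτI.1, hτI.2, hrI.1, hrI.2]
      have k1' : |τ - r| * (ψ τ * ψ r) ≤ (y - x) * ψ r * ψ τ := by
        have := mul_le_mul_of_nonneg_right k0 (mul_nonneg (hψ0 τ) (hψ0 r))
        linarith [this, show (y - x) * (ψ τ * ψ r) = (y - x) * ψ r * ψ τ by ring]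
      have k2 : |ν * ⟪G τ, G r⟫_ℝ| ≤ ν / 2 * (‖G τ‖ ^ 2 + ‖G r‖ ^ 2) := by
        rw [abs_mul, abs_of_nonneg hν]
        have k3 := abs_real_inner_le_norm (G τ) (G r)
        have k4 : ‖G τ‖ * ‖G r‖ ≤ (‖G τ‖ ^ 2 + ‖G r‖ ^ 2) / 2 := by
          nlinarith [sq_nonneg (‖G τ‖ - ‖G r‖)]
        calc ν * |⟪G τ, G r⟫_ℝ| ≤ ν * ((‖G τ‖ ^ 2 + ‖G r‖ ^ 2) / 2) :=
              mul_le_mul_of_nonneg_left (k3.trans k4) hν
          _ = _ := by ring
      have k5 : |⟪f τ, u r⟫_ℝ| ≤ M * ‖f τ‖ := by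
        calc |⟪f τ, u r⟫_ℝ| ≤ ‖f τ‖ * ‖u r‖ := abs_real_inner_le_norm _ _
          _ ≤ ‖f τ‖ * M := by
            have := hM r hr1
            gcongr
          _ = _ := mul_comm _ _
      rw [Real.norm_eq_abs]
      calc |⟪tensL (u τ), G r⟫_ℝ - ν * ⟪G τ, G r⟫_ℝ + ⟪f τ, u r⟫_ℝ|
          ≤ |⟪tensL (u τ), G r⟫_ℝ - ν * ⟪G τ, G r⟫_ℝ| + |⟪f τ, u r⟫_ℝ| := abs_add_le _ _
        _ ≤ |⟪tensL (u τ), G r⟫_ℝ| + |ν * ⟪G τ, G r⟫_ℝ| + |⟪f τ, u r⟫_ℝ| := by
            gcongr; exact abs_sub _ _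
        _ ≤ (ψ τ + ψ r + (y - x) * ψ r * ψ τ) + ν / 2 * (‖G τ‖ ^ 2 + ‖G r‖ ^ 2)
            + M * ‖f τ‖ := by linarith
        _ = _ := by simp only [hg, hcdef]; ring
    rw [Real.norm_eq_abs, intervalIntegral.integral_add (gi.add intervalIntegrable_const)
      (ψi.const_mul _), intervalIntegral.integral_add gi intervalIntegrable_const,
      intervalIntegral.integral_const, smul_eq_mul, intervalIntegral.integral_const_mul] at h1
    have h2 : ∫ τ in x..y, ψ τ ≤ J := int_mono_set hψi hψ0 le_rfl hx hxy hy le_rfl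
    have h3 : (y - x) * ψ r * (∫ τ in x..y, ψ τ) ≤ (y - x) * ψ r * J :=
      mul_le_mul_of_nonneg_left h2 hc
    have h4 : 0 ≤ y - x := by linarith
    have h5 : (y - x) * c + (y - x) * ψ r * J ≤ A * (y - x) * Ψ r := by
      have e1 : A * (y - x) * Ψ r - ((y - x) * c + (y - x) * ψ r * J)
          = (y - x) * (ν / 2 * ψ r + (1 + J) * ‖G r‖ ^ 2) := by
        simp only [hA, hΨ, hcdef]; ring
      have e2 : 0 ≤ (y - x) * (ν / 2 * ψ r + (1 + J) * ‖G r‖ ^ 2) := by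
        have := hψ0 r
        positivity
      linarith
    linarith
  have est' : ∀ r ∈ good, ∀ x ∈ Icc 0 T,
      |⟪u r, u r⟫_ℝ - ⟪u x, u r⟫_ℝ| ≤ |∫ τ in x..r, g τ| + A * |r - x| * Ψ r := by
    intro r hr x hx
    rcases le_total x r with hxy | hxy
    · have := est r hr x r hx.1 hxy hr.1.2 ⟨hxy, le_rfl⟩
      rw [abs_of_nonneg (by linarith : 0 ≤ r - x)]
      linarith [le_abs_self (∫ τ in x..r, g τ)]
    · have := est r hr r x hr.1.1 hxy hx.2 ⟨le_rfl, hxy⟩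
      rw [abs_sub_comm, intervalIntegral.integral_symm, abs_neg,
        abs_of_nonpos (by linarith : r - x ≤ 0)]
      have e1 : -(r - x) = x - r := by ring
      rw [e1]
      linarith [le_abs_self (∫ τ in r..x, g τ)]
  -- the criterion
  have H : AcH T A (fun t => ‖u t‖ ^ 2 / 2) Ψ g good :=
    { A0 := hA0
      gd := by
        have h1 : ∀ᵐ t : ℝ, t ∈ Ioo 0 T → (u t, G t) ∈ H1graph Ω := by
          have := h.grad
          rwa [ae_restrict_iff' measurableSet_Ioo] at this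
        filter_upwards [h1, hp'] with t ht ht2 hI
        exact ⟨Ioo_subset_Icc_self hI, mem_graphW.mpr (ht hI), ht2 hI⟩
      ψ0 := hΨ0
      g0 := hg0
      ψi := hΨi
      gi := hgi
      h1 := by
        intro s hs t ht h0 hst htT
        have e1 := est t ht s t h0 hst htT ⟨hst, le_rfl⟩
        have e2 := est s hs s t h0 hst htT ⟨le_rfl, hst⟩
        have e3 : ‖u t‖ ^ 2 / 2 - ‖u s‖ ^ 2 / 2
            = ((⟪u t, u t⟫_ℝ - ⟪u s, u t⟫_ℝ) + (⟪u t, u s⟫_ℝ - ⟪u s, u s⟫_ℝ)) / 2 := by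
          rw [real_inner_self_eq_norm_sq, real_inner_self_eq_norm_sq, real_inner_comm (u t) (u s)]
          ring
        rw [e3, abs_div, abs_two]
        have e4 := abs_add_le (⟪u t, u t⟫_ℝ - ⟪u s, u t⟫_ℝ) (⟪u t, u s⟫_ℝ - ⟪u s, u s⟫_ℝ)
        have e5 : 0 ≤ A * (t - s) * (Ψ s + Ψ t) :=
          mul_nonneg (mul_nonneg hA0 (by linarith)) (add_nonneg (hΨ0 s) (hΨ0 t))
        have e6 : A * (t - s) * Ψ t + A * (t - s) * Ψ s = A * (t - s) * (Ψ s + Ψ t) := by ring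
        linarith
      h2 := by
        intro s hs
        refine ⟨fun t => |⟪u t, u s⟫_ℝ - ‖u s‖ ^ 2|, ?_, ?_⟩
        · have h1 := (h.wcont (u s)) s hs
          have h2 : Tendsto (fun t => ⟪u t, u s⟫_ℝ - ‖u s‖ ^ 2) (𝓝[Icc 0 T] s) (𝓝 0) := by
            have := h1.tendsto.sub_const (‖u s‖ ^ 2)
            rw [real_inner_self_eq_norm_sq, sub_self] at this
            exact this
          have := h2.abs
          rwa [abs_zero] at this
        · intro t ht htg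
          have e1 := est' t htg s hs
          have e3 : ‖u t‖ ^ 2 / 2 - ‖u s‖ ^ 2 / 2
              = ((⟪u t, u t⟫_ℝ - ⟪u s, u t⟫_ℝ) + (⟪u t, u s⟫_ℝ - ‖u s‖ ^ 2)) / 2 := by
            rw [real_inner_self_eq_norm_sq, real_inner_comm (u t) (u s)]
            ring
          rw [e3, abs_div, abs_two]
          have e4 := abs_add_le (⟪u t, u t⟫_ℝ - ⟪u s, u t⟫_ℝ) (⟪u t, u s⟫_ℝ - ‖u s‖ ^ 2)
          have e5 : 0 ≤ A * |t - s| * Ψ t :=
            mul_nonneg (mul_nonneg hA0 (abs_nonneg _)) (hΨ0 t)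
          have e6 : 0 ≤ |∫ r in s..t, g r| := abs_nonneg _
          have e7 : 0 ≤ |⟪u t, u s⟫_ℝ - ‖u s‖ ^ 2| := abs_nonneg _
          linarith }
  intro t ht
  rw [energyDefect_eq hΩ hν hT h ht]
  exact S.eq_of_ac (H.ac hT.le) t ht

end Pool.Agent.TH301.EQ
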