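import Pool.Agent.TH301.EQ.Key
import Pool.Agent.TH301.EQ.Space
import Pool.Agent.TH301.EQ.Time

/-!
Energy equality from a bound of the vector products of the velocities at two times.
-/

set_option autoImplicit false
set_option linter.unusedSectionVars false

open MeasureTheory Set Filter Topology
open scoped InnerProductSpace ENNReal ContDiff NNReal

namespace Pool.Agent.TH301.EQ

open H772R2.NS

/-- the length of the vector product -/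
noncomputable def cr (a b : E3) : ℝ := Real.sqrt (‖a‖ ^ 2 * ‖b‖ ^ 2 - ⟪a, b⟫_ℝ ^ 2)

theorem norm_alt_le_cr (a b : E3) : ‖alt a b‖ ≤ 2 * cr a b := by
  have h := norm_sq_alt a b
  have h0 : 0 ≤ ‖a‖ ^ 2 * ‖b‖ ^ 2 - ⟪a, b⟫_ℝ ^ 2 := by nlinarith [sq_nonneg ‖alt a b‖]
  have h1 : cr a b ^ 2 = ‖a‖ ^ 2 * ‖b‖ ^ 2 - ⟪a, b⟫_ℝ ^ 2 := Real.sq_sqrt h0
  have h2 : 0 ≤ cr a b := Real.sqrt_nonneg _
  refine abs_le_of_sq_le_sq' ?_ (by positivity) |>.2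
  nlinarith [sq_nonneg (cr a b)]

/-- weighted inequality of the means for three numbers with the time step -/
theorem young_step {X Y L α β δ : ℝ} (hX : 0 ≤ X) (hY : 0 ≤ Y) (hL : 0 ≤ L) (hα : 0 ≤ α)
    (hβ : 0 ≤ β) (hδ : 0 ≤ δ) (h : α + β + δ = 1) :
    X ^ (α + δ) * Y ^ (β + δ) * L ^ δ ≤ X + Y + L * (X * Y) := by
  have h1 := Real.geom_mean_le_arith_mean3_weighted hα hβ hδ hX hY
    (mul_nonneg hL (mul_nonneg hX hY)) h
  have e1 : X ^ (α + δ) * Y ^ (β + δ) * L ^ δ = X ^ α * Y ^ β * (L * (X * Y)) ^ δ := by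
    rw [Real.rpow_add_of_nonneg hX hα hδ, Real.rpow_add_of_nonneg hY hβ hδ,
      Real.mul_rpow hL (mul_nonneg hX hY), Real.mul_rpow hX hY]
    ring
  rw [e1]
  refine h1.trans ?_
  have a1 : α * X ≤ 1 * X := mul_le_mul_of_nonneg_right (by linarith) hX
  have a2 : β * Y ≤ 1 * Y := mul_le_mul_of_nonneg_right (by linarith) hY
  have a3 : δ * (L * (X * Y)) ≤ 1 * (L * (X * Y)) :=
    mul_le_mul_of_nonneg_right (by linarith) (mul_nonneg hL (mul_nonneg hX hY))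
  linarith

theorem young_two {X Y α β : ℝ} (hX : 0 ≤ X) (hY : 0 ≤ Y) (hα : 0 ≤ α)
    (hβ : 0 ≤ β) (h : α + β = 1) : X ^ α * Y ^ β ≤ X + Y := by
  have h1 := Real.geom_mean_le_arith_mean2_weighted hα hβ hX hY h
  refine h1.trans ?_
  have a1 : α * X ≤ 1 * X := mul_le_mul_of_nonneg_right (by linarith) hX
  have a2 : β * Y ≤ 1 * Y := mul_le_mul_of_nonneg_right (by linarith) hY
  linarith

/-- a function in `L^a` is bounded by a power of an integrable function -/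
theorem exists_major {μ : Measure ℝ} {B : ℝ → ℝ} {a : ℝ≥0∞} (ha : a ≠ 0) (hB : MemLp B a μ) :
    ∃ C : ℝ, 0 ≤ C ∧ ∃ A : ℝ → ℝ, (∀ t, 0 ≤ A t) ∧ Integrable A μ ∧
      ∀ᵐ t ∂μ, |B t| ≤ C * A t ^ (1 / a).toReal := by
  rcases eq_or_ne a ⊤ with h | h
  · subst h
    refine ⟨(eLpNorm B ⊤ μ).toReal, ENNReal.toReal_nonneg, fun _ => 0, fun _ => le_rfl,
      integrable_zero _ _ _, ?_⟩
    have h1 : ∀ᵐ t ∂μ, ‖B t‖ₑ ≤ eLpNorm B ⊤ μ := by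
      rw [eLpNorm_exponent_top]
      exact enorm_ae_le_eLpNormEssSup B μ
    filter_upwards [h1] with t ht
    have h2 := ENNReal.toReal_mono hB.2.ne ht
    rw [toReal_enorm, Real.norm_eq_abs] at h2
    simpa using h2
  · have ha' : 0 < a.toReal := ENNReal.toReal_pos ha h
    refine ⟨1, zero_le_one, fun t => ‖B t‖ ^ a.toReal, fun t => by positivity,
      hB.integrable_norm_rpow ha h, ?_⟩
    refine Eventually.of_forall fun t => ?_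
    rw [one_mul, ← Real.rpow_mul (norm_nonneg _), ENNReal.toReal_div, ENNReal.toReal_one,
      mul_one_div_cancel ha'.ne', Real.rpow_one, Real.norm_eq_abs]

/-- the integral of the triple product from a pointwise bound, for functions -/
theorem trip_bound_fun {α : Type*} {mα : MeasurableSpace α} {μ : Measure α} {f g : α → E3}
    {z : α → M3} (mf : AEStronglyMeasurable f μ) (mg : AEStronglyMeasurable g μ)
    (mz : AEStronglyMeasurable z μ) {b : ℝ≥0∞} {ϑ : ℝ}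
    (hb : 3 ≤ b) (hϑ : ϑ = (3 / b).toReal) {v w : α → ℝ} {k : ℝ} (hk : 0 ≤ k)
    (hv : AEStronglyMeasurable v μ) (hw : AEStronglyMeasurable w μ)
    (h : ∀ᵐ x ∂μ, |⟪alt (f x) (g x), z x⟫_ℝ|
      ≤ ‖z x‖ * (k * ‖f x‖ * ‖g x‖ + v x * ‖g x‖ + ‖f x‖ * w x)) :
    ‖∫ x, ⟪alt (f x) (g x), z x⟫_ℝ ∂μ‖ₑ
      ≤ eLpNorm z 2 μ * (ENNReal.ofReal k * (eLpNorm f 4 μ * eLpNorm g 4 μ)
        + eLpNorm v b μ * (eLpNorm g 2 μ ^ (1 - ϑ) * eLpNorm g 6 μ ^ ϑ)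
        + eLpNorm w b μ * (eLpNorm f 2 μ ^ (1 - ϑ) * eLpNorm f 6 μ ^ ϑ)) := by
  set F1 : α → ℝ := fun x => k * (‖f x‖ * ‖g x‖) with hF1
  set F2 : α → ℝ := fun x => v x * ‖g x‖ with hF2
  set F3 : α → ℝ := fun x => w x * ‖f x‖ with hF3
  have m1 : AEStronglyMeasurable F1 μ := (mf.norm.mul mg.norm).const_mul k
  have m2 : AEStronglyMeasurable F2 μ := hv.mul mg.norm
  have m3 : AEStronglyMeasurable F3 μ := hw.mul mf.norm
  have m4 : AEStronglyMeasurable (F1 + F2 + F3) μ := (m1.add m2).add m3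
  have s1 : ‖∫ x, ⟪alt (f x) (g x), z x⟫_ℝ ∂μ‖ₑ ≤ eLpNorm z 2 μ * eLpNorm (F1 + F2 + F3) 2 μ := by
    have a1 : ‖∫ x, ⟪alt (f x) (g x), z x⟫_ℝ ∂μ‖ₑ
        ≤ ∫⁻ x, ‖‖z x‖ * (F1 + F2 + F3) x‖ₑ ∂μ := by
      refine (enorm_integral_le_lintegral_enorm _).trans (lintegral_mono_ae ?_)
      filter_upwards [h] with x hx
      rw [enorm_le_iff_norm_le]
      rw [Real.norm_eq_abs, Real.norm_eq_abs]
      refine hx.trans (le_trans (le_of_eq ?_) (le_abs_self _))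
      simp only [Pi.add_apply, hF1, hF2, hF3]
      ring
    have a2 := eLpNorm_le_eLpNorm_mul_eLpNorm'_of_norm (p := 2) (q := 2) (r := 1) mz.norm m4
      (fun a b => a * b) 1 (Eventually.of_forall (fun x => by
        rw [norm_mul]; simp)) (μ := μ)
    rw [ENNReal.coe_one, one_mul, eLpNorm_norm, eLpNorm_one_eq_lintegral_enorm] at a2
    exact a1.trans a2
  have s2 : eLpNorm (F1 + F2 + F3) 2 μ ≤ eLpNorm F1 2 μ + eLpNorm F2 2 μ + eLpNorm F3 2 μ :=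
    (eLpNorm_add_le (m1.add m2) m3 (by norm_num)).trans
      (add_le_add (eLpNorm_add_le m1 m2 (by norm_num)) le_rfl)
  have s3 : eLpNorm F1 2 μ ≤ ENNReal.ofReal k * (eLpNorm f 4 μ * eLpNorm g 4 μ) := by
    have e1 : eLpNorm F1 2 μ = ENNReal.ofReal k * eLpNorm (fun x => ‖f x‖ * ‖g x‖) 2 μ := by
      have := eLpNorm_const_smul k (fun x => ‖f x‖ * ‖g x‖) 2 μ
      rw [Real.enorm_eq_ofReal hk] at this
      exact this
    rw [e1]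
    exact mul_le_mul_right (eLpNorm_mul_le mf mg) _
  refine s1.trans (mul_le_mul_right (s2.trans ?_) _)
  exact add_le_add (add_le_add s3 (prod_le hv mg hb hϑ)) (prod_le hw mf hb hϑ)

variable {Ω : Set E3}

/-- the trilinear form from a pointwise bound of the triple product -/
theorem tri_bound (hΩ : MeasurableSet Ω) {p q : L2V Ω × L2M Ω} (hp : p ∈ graphW Ω)
    (hq : q ∈ graphW Ω) {b : ℝ≥0∞} {ϑ : ℝ} (hb : 3 ≤ b) (hϑ : ϑ = (3 / b).toReal)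
    {v w : E3 → ℝ} {k Bv Bw : ℝ} (hk : 0 ≤ k)
    (hv : AEStronglyMeasurable v (volume.restrict Ω))
    (hw : AEStronglyMeasurable w (volume.restrict Ω))
    (hvB : eLpNorm v b (volume.restrict Ω) ≤ ENNReal.ofReal Bv)
    (hwB : eLpNorm w b (volume.restrict Ω) ≤ ENNReal.ofReal Bw)
    (h : ∀ᵐ x ∂(volume.restrict Ω), |⟪alt (p.1 x) (q.1 x), p.2 x⟫_ℝ|
      ≤ ‖p.2 x‖ * (k * ‖p.1 x‖ * ‖q.1 x‖ + v x * ‖q.1 x‖ + ‖p.1 x‖ * w x)) :
    |⟪tensL p.1, q.2⟫_ℝ|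
      ≤ ‖p.2‖ * (k * (n4 p.1 * n4 q.1) + |Bv| * (‖q.1‖ ^ (1 - ϑ) * ((CS : ℝ) * ‖q.2‖) ^ ϑ)
        + |Bw| * (‖p.1‖ ^ (1 - ϑ) * ((CS : ℝ) * ‖p.2‖) ^ ϑ)) := by
  have hϑ0 : 0 ≤ ϑ := by rw [hϑ]; exact ENNReal.toReal_nonneg
  have hϑ1 : ϑ ≤ 1 := by
    rw [hϑ]
    refine ENNReal.toReal_le_of_le_ofReal zero_le_one ?_
    rw [ENNReal.ofReal_one]
    exact ENNReal.div_le_of_le_mul (by simpa using hb)
  have s5 := trip_bound_fun (Lp.aestronglyMeasurable p.1) (Lp.aestronglyMeasurable q.1)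
    (Lp.aestronglyMeasurable p.2) hb hϑ hk hv hw h
  have g1 : eLpNorm q.1 2 (volume.restrict Ω) = ‖q.1‖ₑ := (Lp.enorm_def _).symm
  have g2 : eLpNorm p.1 2 (volume.restrict Ω) = ‖p.1‖ₑ := (Lp.enorm_def _).symm
  have g3 : eLpNorm p.2 2 (volume.restrict Ω) = ‖p.2‖ₑ := (Lp.enorm_def _).symm
  have g4 : ⟪tensL p.1, q.2⟫_ℝ = ∫ x in Ω, ⟪alt (p.1 x) (q.1 x), p.2 x⟫_ℝ := by
    rw [identity hΩ hp hq, L2.inner_def]
    apply integral_congr_ae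
    filter_upwards [altL_coe hΩ hp hq] with x hx
    rw [hx]
  rw [g1, g2, g3, ← g4] at s5
  have s6 : ‖⟪tensL p.1, q.2⟫_ℝ‖ₑ
      ≤ ‖p.2‖ₑ * (ENNReal.ofReal k
        * (eLpNorm p.1 4 (volume.restrict Ω) * eLpNorm q.1 4 (volume.restrict Ω))
        + ENNReal.ofReal Bv * (‖q.1‖ₑ ^ (1 - ϑ) * ((CS : ℝ≥0∞) * ‖q.2‖ₑ) ^ ϑ)
        + ENNReal.ofReal Bw * (‖p.1‖ₑ ^ (1 - ϑ) * ((CS : ℝ≥0∞) * ‖p.2‖ₑ) ^ ϑ)) := by
    refine s5.trans (mul_le_mul_right (add_le_add (add_le_add le_rfl ?_) ?_) _)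
    · exact mul_le_mul' hvB (mul_le_mul_right (ENNReal.rpow_le_rpow (six_le hΩ hq) hϑ0) _)
    · exact mul_le_mul' hwB (mul_le_mul_right (ENNReal.rpow_le_rpow (six_le hΩ hp) hϑ0) _)
  have hϑ1' : 0 ≤ 1 - ϑ := by linarith
  have t1 : ENNReal.ofReal k
        * (eLpNorm p.1 4 (volume.restrict Ω) * eLpNorm q.1 4 (volume.restrict Ω)) < ⊤ :=
    ENNReal.mul_lt_top ENNReal.ofReal_lt_top
      (ENNReal.mul_lt_top (four_lt_top hΩ hp) (four_lt_top hΩ hq))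
  have t2 : ENNReal.ofReal Bv * (‖q.1‖ₑ ^ (1 - ϑ) * ((CS : ℝ≥0∞) * ‖q.2‖ₑ) ^ ϑ) < ⊤ :=
    ENNReal.mul_lt_top ENNReal.ofReal_lt_top (ENNReal.mul_lt_top
      (ENNReal.rpow_lt_top_of_nonneg hϑ1' enorm_ne_top)
      (ENNReal.rpow_lt_top_of_nonneg hϑ0 (ENNReal.mul_lt_top (by simp) enorm_lt_top).ne))
  have t3 : ENNReal.ofReal Bw * (‖p.1‖ₑ ^ (1 - ϑ) * ((CS : ℝ≥0∞) * ‖p.2‖ₑ) ^ ϑ) < ⊤ :=
    ENNReal.mul_lt_top ENNReal.ofReal_lt_top (ENNReal.mul_lt_top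
      (ENNReal.rpow_lt_top_of_nonneg hϑ1' enorm_ne_top)
      (ENNReal.rpow_lt_top_of_nonneg hϑ0 (ENNReal.mul_lt_top (by simp) enorm_lt_top).ne))
  have s7 := ENNReal.toReal_mono (ENNReal.mul_lt_top enorm_lt_top
    (ENNReal.add_lt_top.2 ⟨ENNReal.add_lt_top.2 ⟨t1, t2⟩, t3⟩)).ne s6
  rw [ENNReal.toReal_mul, ENNReal.toReal_add (ENNReal.add_lt_top.2 ⟨t1, t2⟩).ne t3.ne,
    ENNReal.toReal_add t1.ne t2.ne] at s7
  simp only [ENNReal.toReal_mul, ENNReal.toReal_ofReal hk, ENNReal.toReal_ofReal',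
    ← ENNReal.toReal_rpow, toReal_enorm, ENNReal.coe_toReal, Real.norm_eq_abs] at s7
  refine s7.trans ?_
  have u1 : max Bv 0 ≤ |Bv| := max_le (le_abs_self _) (abs_nonneg _)
  have u2 : max Bw 0 ≤ |Bw| := max_le (le_abs_self _) (abs_nonneg _)
  have w1 : 0 ≤ ‖q.1‖ ^ (1 - ϑ) * ((CS : ℝ) * ‖q.2‖) ^ ϑ := by positivity
  have w2 : 0 ≤ ‖p.1‖ ^ (1 - ϑ) * ((CS : ℝ) * ‖p.2‖) ^ ϑ := by positivity
  have w3 := mul_le_mul_of_nonneg_right u1 w1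
  have w4 := mul_le_mul_of_nonneg_right u2 w2
  refine mul_le_mul_of_nonneg_left ?_ (norm_nonneg _)
  exact add_le_add (add_le_add le_rfl w3) w4

end Pool.Agent.TH301.EQ
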