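import Pool.Agent.TH301.EQ.Main

/-!
Energy equality from a bound of the vector products of the velocities at two times.
-/

set_option autoImplicit false
set_option linter.unusedSectionVars false

open MeasureTheory Set Filter Topology
open scoped InnerProductSpace ENNReal ContDiff NNReal

namespace Pool.Agent.TH301.EQ

open H772R2.NS

theorem le_root {x X e : ℝ} (hx : 0 ≤ x) (he : 0 < e) (h : x ^ e ≤ X) : x ≤ X ^ (1 / e) := by
  calc x = (x ^ e) ^ (1 / e) := by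
        rw [← Real.rpow_mul hx, mul_one_div_cancel he.ne', Real.rpow_one]
    _ ≤ X ^ (1 / e) := Real.rpow_le_rpow (Real.rpow_nonneg hx _) h (by positivity)

theorem le_root_two {x X : ℝ} (hx : 0 ≤ x) (h : x ^ 2 ≤ X) : x ≤ X ^ (1 / 2 : ℝ) :=
  le_root hx two_pos (by rwa [Real.rpow_two])

/-- the exponents -/
theorem exponents {a b : ℝ≥0∞} (hab : 2 / a + 3 / b = 1) :
    a ≠ 0 ∧ 3 ≤ b ∧ (1 / a).toReal = (1 - (3 / b).toReal) / 2 ∧ 0 ≤ (3 / b).toReal ∧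
      (3 / b).toReal ≤ 1 := by
  have h1 : 2 / a ≤ 1 := by rw [← hab]; exact le_self_add
  have h2 : 3 / b ≤ 1 := by rw [← hab]; exact le_add_self
  have ha : a ≠ 0 := by
    rintro rfl
    rw [ENNReal.div_zero (by norm_num)] at h1
    simp at h1
  have hb0 : b ≠ 0 := by
    rintro rfl
    rw [ENNReal.div_zero (by norm_num)] at h2
    simp at h2
  have hb : 3 ≤ b := by
    rcases eq_or_ne b ⊤ with h | h
    · rw [h]; exact le_top
    · rwa [ENNReal.div_le_iff hb0 h, one_mul] at h2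
  have n1 : 2 / a ≠ ⊤ := ne_top_of_le_ne_top ENNReal.one_ne_top h1
  have n2 : 3 / b ≠ ⊤ := ne_top_of_le_ne_top ENNReal.one_ne_top h2
  have h3 : (2 / a).toReal + (3 / b).toReal = 1 := by
    rw [← ENNReal.toReal_add n1 n2, hab, ENNReal.toReal_one]
  have h4 : (2 / a).toReal = 2 * (1 / a).toReal := by
    rw [ENNReal.toReal_div, ENNReal.toReal_div]
    simp
    ring
  refine ⟨ha, hb, ?_, ENNReal.toReal_nonneg, ?_⟩
  · rw [h4] at h3
    linarith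
  · have : 0 ≤ (2 / a).toReal := ENNReal.toReal_nonneg
    linarith

variable {Ω : Set E3} {ν T : ℝ} {u : ℝ → L2V Ω} {G : ℝ → L2M Ω} {f : ℝ → L2V Ω}

theorem n4_meas (hΩ : IsOpen Ω) (h : IsWeakSolution Ω ν T u G f) :
    AEStronglyMeasurable (fun t => n4 (u t)) (volume.restrict (Ioo 0 T)) := by
  have h1 := (h.m_meas hΩ).norm
  have h2 : AEStronglyMeasurable (fun t => Real.sqrt ‖tensL (u t)‖) (volume.restrict (Ioo 0 T)) :=
    Real.continuous_sqrt.comp_aestronglyMeasurable h1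
  refine h2.congr ?_
  filter_upwards [h.grad] with t ht
  have hW : (u t, G t) ∈ graphW Ω := mem_graphW.mpr ht
  have h3 := norm_tensL hΩ.measurableSet hW
  simp only at h3
  rw [h3]
  exact Real.sqrt_sq ENNReal.toReal_nonneg

theorem n4_int (hΩ : IsOpen Ω) (h : IsWeakSolution Ω ν T u G f) {p : ℝ}
    (hfin : ∫⁻ t in Ioo 0 T, (eLpNorm (u t) 4 (volume.restrict Ω)) ^ p ≠ ⊤) :
    IntegrableOn (fun t => n4 (u t) ^ p) (Ioo 0 T) := by
  refine ⟨((n4_meas hΩ h).aemeasurable.pow_const p).aestronglyMeasurable, ?_⟩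
  refine lt_of_le_of_lt (lintegral_mono fun t => ?_) (lt_top_iff_ne_top.2 hfin)
  show ‖n4 (u t) ^ p‖ₑ ≤ _
  have h0 : 0 ≤ n4 (u t) := ENNReal.toReal_nonneg
  rw [Real.enorm_eq_ofReal (Real.rpow_nonneg h0 p), n4, ENNReal.toReal_rpow]
  exact ENNReal.ofReal_toReal_le

theorem n4_auto (hΩ : IsOpen Ω) (h : IsWeakSolution Ω ν T u G f) :
    IntegrableOn (fun t => n4 (u t) ^ (8 / 3 : ℝ)) (Ioo 0 T) := by
  obtain ⟨M, hM⟩ := h.bdd
  have hG2 : Integrable (fun t => ‖G t‖ ^ 2) (volume.restrict (Ioo 0 T)) :=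
    (memLp_two_iff_integrable_sq_norm h.gradL2.aestronglyMeasurable).mp h.gradL2
  refine Integrable.mono' (hG2.const_mul (((CS : ℝ) ^ 3 * M) ^ (2 / 3 : ℝ)))
    ((n4_meas hΩ h).aemeasurable.pow_const _).aestronglyMeasurable ?_
  filter_upwards [h.grad, ae_restrict_mem measurableSet_Ioo] with t ht htI
  have hW : (u t, G t) ∈ graphW Ω := mem_graphW.mpr ht
  have h1 := n4_pow hΩ.measurableSet hW
  have h0 : 0 ≤ n4 (u t) := ENNReal.toReal_nonneg
  have hMt := hM t (Ioo_subset_Icc_self htI)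
  have hM0 : 0 ≤ M := (norm_nonneg _).trans hMt
  simp only at h1
  rw [Real.norm_eq_abs, abs_of_nonneg (Real.rpow_nonneg h0 _)]
  have e1 : n4 (u t) ^ (8 / 3 : ℝ) = (n4 (u t) ^ 4) ^ (2 / 3 : ℝ) := by
    rw [← Real.rpow_natCast, ← Real.rpow_mul h0]
    norm_num
  have e2 : ‖G t‖ ^ 2 = (‖G t‖ ^ 3) ^ (2 / 3 : ℝ) := by
    rw [← Real.rpow_natCast, ← Real.rpow_natCast, ← Real.rpow_mul (norm_nonneg _)]
    norm_num
  rw [e1, e2, ← Real.mul_rpow (by positivity) (by positivity)]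
  refine Real.rpow_le_rpow (by positivity) (h1.trans ?_) (by norm_num)
  calc (CS : ℝ) ^ 3 * (‖u t‖ * ‖G t‖ ^ 3) ≤ (CS : ℝ) ^ 3 * (M * ‖G t‖ ^ 3) := by gcongr
    _ = _ := by ring

theorem mul_rpow_le {x e : ℝ} (hx : 0 ≤ x) (he : e + 1 ≠ 0) : x * x ^ e ≤ x ^ (e + 1) := by
  rcases hx.eq_or_lt with h | h
  · rw [← h, zero_mul, Real.zero_rpow he]
  · rw [Real.rpow_add h, Real.rpow_one, mul_comm]

/-- **Energy equality from the vector products at two times.** -/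
theorem main (hΩ : IsOpen Ω) {K p : ℝ} (hν : 0 ≤ ν) (hT : 0 < T)
    (h : IsWeakSolution Ω ν T u G f) (hK : 0 ≤ K) (hp : 8 / 3 ≤ p) (hp4 : p ≤ 4)
    (h4 : IntegrableOn (fun t => n4 (u t) ^ p) (Ioo 0 T))
    {a b : ℝ≥0∞} (hab : 2 / a + 3 / b = 1) {v : ℝ → E3 → ℝ} {B : ℝ → ℝ}
    (hB : MemLp B a (volume.restrict (Ioo 0 T)))
    (hv : ∀ᵐ t ∂(volume.restrict (Ioo 0 T)), AEStronglyMeasurable (v t) (volume.restrict Ω) ∧
      eLpNorm (v t) b (volume.restrict Ω) ≤ ENNReal.ofReal (B t))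
    (hyp : ∀ᵐ t ∂(volume.restrict (Ioo 0 T)), ∀ᵐ s ∂(volume.restrict (Ioo 0 T)),
      ∀ᵐ x ∂(volume.restrict Ω), |⟪alt (u s x) (u t x), G s x⟫_ℝ|
        ≤ ‖G s x‖ * (K * (|s - t| ^ (2 / p - 1 / 2) + n4 (u s) ^ (p / 2 - 2)
          + n4 (u t) ^ (p / 2 - 2)) * ‖u s x‖ * ‖u t x‖ + v s x * ‖u t x‖ + ‖u s x‖ * v t x)) :
    ∀ t ∈ Icc 0 T, energyDefect ν u G f t = 0 := by
  obtain ⟨M, hM⟩ := h.bdd
  have hM0 : 0 ≤ M := (norm_nonneg _).trans (hM 0 ⟨le_rfl, hT.le⟩)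
  obtain ⟨ha, hb, haϑ, hϑ0, hϑ1⟩ := exponents hab
  set ϑ : ℝ := (3 / b).toReal with hϑ
  obtain ⟨C, hC0, A, hA0, hAi, hAB⟩ := exists_major ha hB
  rw [haϑ] at hAB
  have hG2 : Integrable (fun t => ‖G t‖ ^ 2) (volume.restrict (Ioo 0 T)) :=
    (memLp_two_iff_integrable_sq_norm h.gradL2.aestronglyMeasurable).mp h.gradL2
  have h4' : Integrable (fun t => n4 (u t) ^ p) (volume.restrict (Ioo 0 T)) := h4
  set Q : ℝ := M ^ (1 - ϑ) * (CS : ℝ) ^ ϑ with hQ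
  have hQ0 : 0 ≤ Q := by positivity
  set D : ℝ → ℝ := fun t => ‖G t‖ ^ 2 + n4 (u t) ^ p + A t with hD
  have hn0 : ∀ t, 0 ≤ n4 (u t) := fun t => ENNReal.toReal_nonneg
  have hD0 : ∀ t, 0 ≤ D t := fun t => by
    have h1 := hA0 t
    have h2 := Real.rpow_nonneg (hn0 t) p
    simp only [hD]
    positivity
  have hDi : Integrable D (volume.restrict (Ioo 0 T)) := (hG2.add h4').add hAi
  set C1 : ℝ := 3 * K + 2 * (Q * C) with hC1
  have hC10 : 0 ≤ C1 := by positivity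
  have hp0 : 0 < p := by linarith
  have hip : 1 / p ≤ 3 / 8 := by
    rw [div_le_iff₀ hp0]; linarith
  have hip4 : 1 / 4 ≤ 1 / p := one_div_le_one_div_of_le hp0 hp4
  set θ : ℝ := 2 / p - 1 / 2 with hθ
  have hθp : θ = 2 * (1 / p) - 1 / 2 := by rw [hθ]; ring
  have hθ0 : 0 ≤ θ := by rw [hθp]; linarith
  refine energy_eq_two hΩ hν hT h hM (ψ := fun t => (1 + C1) * D t)
    (fun t => mul_nonneg (by linarith) (hD0 t)) (hDi.const_mul (1 + C1)) ?_
  filter_upwards [h.grad, hv, hyp, hAB, ae_restrict_mem measurableSet_Ioo] with t ht hvt hyt hAt htI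
  filter_upwards [h.grad, hv, hyt, hAB, ae_restrict_mem measurableSet_Ioo] with s hs hvs hys hAs hsI
  have hWt : (u t, G t) ∈ graphW Ω := mem_graphW.mpr ht
  have hWs : (u s, G s) ∈ graphW Ω := mem_graphW.mpr hs
  have hMt := hM t (Ioo_subset_Icc_self htI)
  have hMs := hM s (Ioo_subset_Icc_self hsI)
  set L : ℝ := |s - t| with hL
  have hL0 : 0 ≤ L := abs_nonneg _
  set m : ℝ := L ^ θ + n4 (u s) ^ (p / 2 - 2) + n4 (u t) ^ (p / 2 - 2) with hm
  have hm0 : 0 ≤ m := by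
    have h1 := Real.rpow_nonneg (hn0 s) (p / 2 - 2)
    have h2 := Real.rpow_nonneg (hn0 t) (p / 2 - 2)
    positivity
  have hk : 0 ≤ K * m := by positivity
  have k3 := tri_bound hΩ.measurableSet hWs hWt hb hϑ hk hvs.1 hvt.1 hvs.2 hvt.2 hys
  simp only at k3
  set X : ℝ := D s with hX
  set Y : ℝ := D t with hY
  have hX0 : 0 ≤ X := hD0 s
  have hY0 : 0 ≤ Y := hD0 t
  -- the roots
  have rG : ∀ r, ‖G r‖ ≤ D r ^ (1 / 2 : ℝ) := fun r => by
    refine le_root_two (norm_nonneg _) ?_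
    have h1 := hA0 r
    have h2 := Real.rpow_nonneg (hn0 r) p
    simp only [hD]
    linarith
  have rn : ∀ r, n4 (u r) ≤ D r ^ (1 / p) := fun r => by
    refine le_root (hn0 r) hp0 ?_
    have h1 := hA0 r
    have h2 : 0 ≤ ‖G r‖ ^ 2 := by positivity
    simp only [hD]
    linarith
  have rA : ∀ r, A r ^ ((1 - ϑ) / 2) ≤ D r ^ ((1 - ϑ) / 2) := fun r => by
    refine Real.rpow_le_rpow (hA0 r) ?_ (by linarith)
    have h1 := Real.rpow_nonneg (hn0 r) p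
    have h2 : 0 ≤ ‖G r‖ ^ 2 := by positivity
    simp only [hD]
    linarith
  have rU : ∀ r, ‖u r‖ ≤ M → ‖u r‖ ^ (1 - ϑ) * ((CS : ℝ) * ‖G r‖) ^ ϑ ≤ Q * D r ^ (ϑ / 2) := by
    intro r hr
    have e1 : D r ^ (ϑ / 2) = (D r ^ (1 / 2 : ℝ)) ^ ϑ := by
      rw [← Real.rpow_mul (hD0 r)]
      congr 1
      ring
    rw [e1, Real.mul_rpow (by positivity) (norm_nonneg _), hQ]
    calc ‖u r‖ ^ (1 - ϑ) * ((CS : ℝ) ^ ϑ * ‖G r‖ ^ ϑ)
        ≤ M ^ (1 - ϑ) * ((CS : ℝ) ^ ϑ * (D r ^ (1 / 2 : ℝ)) ^ ϑ) := by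
          refine mul_le_mul (Real.rpow_le_rpow (norm_nonneg _) hr (by linarith))
            (mul_le_mul_of_nonneg_left (Real.rpow_le_rpow (norm_nonneg _) (rG r) hϑ0)
              (by positivity)) (by positivity) (by positivity)
      _ = _ := by ring
  have hXh : 0 ≤ X ^ (1 / 2 : ℝ) := Real.rpow_nonneg hX0 _
  -- the three terms
  have rn2 : ∀ r, n4 (u r) * n4 (u r) ^ (p / 2 - 2) ≤ D r ^ (1 / 2 - 1 / p) := fun r => by
    have e1 : p / 2 - 2 + 1 = p / 2 - 1 := by ring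
    have a1 := mul_rpow_le (e := p / 2 - 2) (hn0 r) (by linarith)
    rw [e1] at a1
    refine a1.trans ?_
    have e2 : D r ^ (1 / 2 - 1 / p) = (D r ^ (1 / p)) ^ (p / 2 - 1) := by
      rw [← Real.rpow_mul (hD0 r)]
      congr 1
      field_simp
    rw [e2]
    exact Real.rpow_le_rpow (hn0 r) (rn r) (by linarith)
  have T1 : ‖G s‖ * (K * m * (n4 (u s) * n4 (u t)))
      ≤ K * (X + Y + L * (X * Y)) + K * (X + Y) + K * (X + Y) := by
    have y1 := young_step hX0 hY0 hL0 (α := 1 - 1 / p) (β := 1 / 2 - 1 / p) (δ := θ)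
      (by linarith) (by linarith) hθ0 (by rw [hθp]; ring)
    have e1 : (1 - 1 / p) + θ = 1 / 2 + 1 / p := by rw [hθp]; ring
    have e2 : (1 / 2 - 1 / p) + θ = 1 / p := by rw [hθp]; ring
    rw [e1, e2, Real.rpow_add_of_nonneg hX0 (by norm_num) (by positivity)] at y1
    have y2 := young_two hX0 hY0 (α := 1 / 2 + (1 / 2 - 1 / p)) (β := 1 / p) (by linarith)
      (by positivity) (by ring)
    rw [Real.rpow_add_of_nonneg hX0 (by norm_num) (by linarith)] at y2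
    have y3 := young_two hX0 hY0 (α := 1 / 2 + 1 / p) (β := 1 / 2 - 1 / p) (by positivity)
      (by linarith) (by ring)
    rw [Real.rpow_add_of_nonneg hX0 (by norm_num) (by positivity)] at y3
    have a1 : ‖G s‖ * n4 (u s) * n4 (u t) * L ^ θ ≤ X + Y + L * (X * Y) := by
      refine le_trans ?_ y1
      refine mul_le_mul_of_nonneg_right ?_ (by positivity)
      exact mul_le_mul (mul_le_mul (rG s) (rn s) (hn0 s) hXh) (rn t) (hn0 t) (by positivity)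
    have hns := hn0 s
    have hnt := hn0 t
    have a2 : ‖G s‖ * (n4 (u s) * n4 (u s) ^ (p / 2 - 2)) * n4 (u t) ≤ X + Y := by
      refine le_trans ?_ y2
      exact mul_le_mul (mul_le_mul (rG s) (rn2 s) (by positivity) hXh) (rn t) (hn0 t)
        (by positivity)
    have a3 : ‖G s‖ * n4 (u s) * (n4 (u t) * n4 (u t) ^ (p / 2 - 2)) ≤ X + Y := by
      refine le_trans ?_ y3
      exact mul_le_mul (mul_le_mul (rG s) (rn s) (hn0 s) hXh) (rn2 t) (by positivity)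
        (by positivity)
    have e3 : ‖G s‖ * (K * m * (n4 (u s) * n4 (u t)))
        = K * (‖G s‖ * n4 (u s) * n4 (u t) * L ^ θ)
          + K * (‖G s‖ * (n4 (u s) * n4 (u s) ^ (p / 2 - 2)) * n4 (u t))
          + K * (‖G s‖ * n4 (u s) * (n4 (u t) * n4 (u t) ^ (p / 2 - 2))) := by
      rw [hm]; ring
    rw [e3]
    exact add_le_add (add_le_add (mul_le_mul_of_nonneg_left a1 hK)
      (mul_le_mul_of_nonneg_left a2 hK)) (mul_le_mul_of_nonneg_left a3 hK)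
  have T2 : ‖G s‖ * (|B s| * (‖u t‖ ^ (1 - ϑ) * ((CS : ℝ) * ‖G t‖) ^ ϑ))
      ≤ Q * C * (X + Y) := by
    have y1 := young_two hX0 hY0 (α := 1 / 2 + (1 - ϑ) / 2) (β := ϑ / 2) (by linarith)
      (by linarith) (by ring)
    rw [Real.rpow_add_of_nonneg hX0 (by norm_num) (by linarith)] at y1
    have hAs' : |B s| ≤ C * X ^ ((1 - ϑ) / 2) := hAs.trans (mul_le_mul_of_nonneg_left (rA s) hC0)
    calc ‖G s‖ * (|B s| * (‖u t‖ ^ (1 - ϑ) * ((CS : ℝ) * ‖G t‖) ^ ϑ))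
        ≤ X ^ (1 / 2 : ℝ) * (C * X ^ ((1 - ϑ) / 2) * (Q * Y ^ (ϑ / 2))) := by
          refine mul_le_mul (rG s) (mul_le_mul hAs' (rU t hMt) (by positivity) (by positivity))
            (by positivity) hXh
      _ = Q * C * (X ^ (1 / 2 : ℝ) * X ^ ((1 - ϑ) / 2) * Y ^ (ϑ / 2)) := by ring
      _ ≤ _ := mul_le_mul_of_nonneg_left y1 (by positivity)
  have T3 : ‖G s‖ * (|B t| * (‖u s‖ ^ (1 - ϑ) * ((CS : ℝ) * ‖G s‖) ^ ϑ))
      ≤ Q * C * (X + Y) := by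
    have y1 := young_two hX0 hY0 (α := 1 / 2 + ϑ / 2) (β := (1 - ϑ) / 2) (by linarith)
      (by linarith) (by ring)
    rw [Real.rpow_add_of_nonneg hX0 (by norm_num) (by linarith)] at y1
    have hAt' : |B t| ≤ C * Y ^ ((1 - ϑ) / 2) := hAt.trans (mul_le_mul_of_nonneg_left (rA t) hC0)
    calc ‖G s‖ * (|B t| * (‖u s‖ ^ (1 - ϑ) * ((CS : ℝ) * ‖G s‖) ^ ϑ))
        ≤ X ^ (1 / 2 : ℝ) * (C * Y ^ ((1 - ϑ) / 2) * (Q * X ^ (ϑ / 2))) := by
          refine mul_le_mul (rG s) (mul_le_mul hAt' (rU s hMs) (by positivity) (by positivity))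
            (by positivity) hXh
      _ = Q * C * (X ^ (1 / 2 : ℝ) * X ^ (ϑ / 2) * Y ^ ((1 - ϑ) / 2)) := by ring
      _ ≤ _ := mul_le_mul_of_nonneg_left y1 (by positivity)
  have hXY : 0 ≤ L * (X * Y) := by positivity
  have k4 : |⟪tensL (u s), G t⟫_ℝ| ≤ C1 * (X + Y + L * (X * Y)) := by
    have e1 : ‖G s‖ * (K * m * (n4 (u s) * n4 (u t))
        + |B s| * (‖u t‖ ^ (1 - ϑ) * ((CS : ℝ) * ‖G t‖) ^ ϑ)
        + |B t| * (‖u s‖ ^ (1 - ϑ) * ((CS : ℝ) * ‖G s‖) ^ ϑ))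
        = ‖G s‖ * (K * m * (n4 (u s) * n4 (u t)))
          + ‖G s‖ * (|B s| * (‖u t‖ ^ (1 - ϑ) * ((CS : ℝ) * ‖G t‖) ^ ϑ))
          + ‖G s‖ * (|B t| * (‖u s‖ ^ (1 - ϑ) * ((CS : ℝ) * ‖G s‖) ^ ϑ)) := by ring
    rw [e1] at k3
    have e2 : C1 * (X + Y + L * (X * Y)) = (K * (X + Y + L * (X * Y)) + K * (X + Y) + K * (X + Y))
        + Q * C * (X + Y) + Q * C * (X + Y) + (2 * K + 2 * (Q * C)) * (L * (X * Y)) := by
      rw [hC1]; ring
    rw [e2]
    have e3 : 0 ≤ (2 * K + 2 * (Q * C)) * (L * (X * Y)) := by positivity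
    linarith
  refine k4.trans ?_
  have z1 : C1 * X ≤ (1 + C1) * X := mul_le_mul_of_nonneg_right (by linarith) hX0
  have z2 : C1 * Y ≤ (1 + C1) * Y := mul_le_mul_of_nonneg_right (by linarith) hY0
  have z3 : C1 * (L * (X * Y)) ≤ L * ((1 + C1) * X * ((1 + C1) * Y)) := by
    have e1 : L * ((1 + C1) * X * ((1 + C1) * Y)) = (1 + C1) ^ 2 * (L * (X * Y)) := by ring
    rw [e1]
    refine mul_le_mul_of_nonneg_right ?_ hXY
    nlinarith
  have e5 : C1 * (X + Y + L * (X * Y)) = C1 * X + C1 * Y + C1 * (L * (X * Y)) := by ring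
  rw [e5]
  exact add_le_add (add_le_add z1 z2) z3

end Pool.Agent.TH301.EQ
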