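import Pool.Agent.TH301.EQ.Loop
import Pool.Agent.TH301.EQ.Corr

/-!
Energy equality from the fractional maximal function of the enstrophy.
-/

set_option autoImplicit false
set_option linter.unusedSectionVars false

open MeasureTheory Set Filter Topology
open scoped InnerProductSpace ENNReal ContDiff NNReal

namespace Pool.Agent.TH301.EQ

open H772R2.NS Pool.Agent.TH340.FF

variable {Ω : Set E3}

/-- the case without enstrophy -/
theorem loop0 (hΩ : IsOpen Ω) {ν T M : ℝ} (hν : 0 ≤ ν) (hT : 0 < T)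
    {u : ℝ → L2V Ω} {G : ℝ → L2M Ω} {f : ℝ → L2V Ω} (h : IsWeakSolution Ω ν T u G f)
    (hM : ∀ t ∈ Icc 0 T, ‖u t‖ ≤ M) {x y : ℝ} (hx : 0 ≤ x) (hxy : x < y) (hy : y ≤ T)
    (hI : ∫ τ in x..y, ‖G τ‖ ^ 2 = 0) :
    ∀ᵐ r : ℝ, r ∈ Ioc x y → ∀ s ∈ Icc x y, |⟪u r - u s, u r⟫_ℝ| ≤ M * ∫ τ in x..y, ‖f τ‖ := by
  have S := h.toSol hΩ hν hT hM
  have hM0 : 0 ≤ M := S.M0
  have hGi : IntervalIntegrable (fun t => ‖G t‖ ^ 2) volume 0 T := by
    rw [intervalIntegrable_iff_integrableOn_Ioc_of_le hT.le]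
    exact S.G2
  have hfi : IntervalIntegrable (fun t => ‖f t‖) volume 0 T := by
    rw [intervalIntegrable_iff_integrableOn_Ioc_of_le hT.le]
    exact S.fint.norm
  have hmem : ∀ᵐ t : ℝ, t ∈ Ioc 0 T → (u t, G t) ∈ graphW Ω := by
    have := S.memW
    rwa [ae_restrict_iff' measurableSet_Ioc] at this
  have hz : ∀ᵐ r : ℝ, r ∈ Ioc x y → G r = 0 := by
    rw [intervalIntegral.integral_of_le hxy.le] at hI
    have h1 := (integral_eq_zero_iff_of_nonneg (μ := volume.restrict (Ioc x y))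
      (f := fun t => ‖G t‖ ^ 2) (fun t => by positivity)
      (by
        rw [intervalIntegrable_iff_integrableOn_Ioc_of_le hT.le] at hGi
        exact hGi.mono_set (Ioc_subset_Ioc hx hy))).1 hI
    rw [EventuallyEq, ae_restrict_iff' measurableSet_Ioc] at h1
    filter_upwards [h1] with r hr hrI
    have h2 := hr hrI
    simp only [Pi.zero_apply] at h2
    exact norm_eq_zero.1 (pow_eq_zero_iff (two_ne_zero) |>.1 h2)
  have hfi' : IntervalIntegrable (fun t => M * ‖f t‖) volume 0 T := hfi.const_mul M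
  filter_upwards [hmem, hz] with r hr hr2 hrI s hs
  have hr0 : r ∈ Icc 0 T := ⟨hx.trans hrI.1.le, hrI.2.trans hy⟩
  have hW := hr ⟨hx.trans_lt hrI.1, hrI.2.trans hy⟩
  have hG := hr2 hrI
  have hptw : ∀ τ, ‖⟪tensL (u τ), G r⟫_ℝ - ν * ⟪G τ, G r⟫_ℝ + ⟪f τ, u r⟫_ℝ‖ ≤ M * ‖f τ‖ := by
    intro τ
    rw [hG, inner_zero_right, inner_zero_right, mul_zero, sub_zero, zero_add, Real.norm_eq_abs]
    calc |⟪f τ, u r⟫_ℝ| ≤ ‖f τ‖ * ‖u r‖ := abs_real_inner_le_norm _ _
      _ ≤ ‖f τ‖ * M := by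
        have := hM r hr0
        gcongr
      _ = _ := mul_comm _ _
  have hfin : ∫ τ in x..y, M * ‖f τ‖ = M * ∫ τ in x..y, ‖f τ‖ :=
    intervalIntegral.integral_const_mul _ _
  rw [← hfin]
  rcases le_total s r with hsr | hsr
  · have e1 := h.weak_all hΩ hT hW (hx.trans hs.1) hsr hr0.2
    have e2 : ⟪u r - u s, u r⟫_ℝ = ⟪u r, u r⟫_ℝ - ⟪u s, u r⟫_ℝ := inner_sub_left _ _ _
    rw [e2, e1]
    have e3 := intervalIntegral.norm_integral_le_of_norm_le hsr
      (Eventually.of_forall fun τ _ => hptw τ) (sub_int hfi' (hx.trans hs.1) hsr hr0.2)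
    rw [Real.norm_eq_abs] at e3
    exact e3.trans (int_mono_set hfi' (fun τ => by positivity) hx hs.1 hsr hrI.2 hy)
  · have e1 := h.weak_all hΩ hT hW hr0.1 hsr (hs.2.trans hy)
    have e2 : ⟪u r - u s, u r⟫_ℝ = -(⟪u s, u r⟫_ℝ - ⟪u r, u r⟫_ℝ) := by
      rw [inner_sub_left]; ring
    rw [e2, e1, abs_neg]
    have e3 := intervalIntegral.norm_integral_le_of_norm_le hsr
      (Eventually.of_forall fun τ _ => hptw τ) (sub_int hfi' hr0.1 hsr (hs.2.trans hy))
    rw [Real.norm_eq_abs] at e3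
    exact e3.trans (int_mono_set hfi' (fun τ => by positivity) hx hrI.1.le hsr hs.2 hy)

/-- the endpoints -/
def ends (T : ℝ) : Set ℝ := range ((↑) : ℚ → ℝ) ∪ {0, T}

theorem ends_countable (T : ℝ) : (ends T).Countable :=
  (countable_range _).union ((countable_singleton _).insert _)

/-- from the intervals with rational endpoints to all intervals -/
theorem of_ends {T : ℝ} {ψ : ℝ → ℝ} (hψ : IntervalIntegrable ψ volume 0 T) {t lo hi c k : ℝ}
    (ht : t ∈ Ioo 0 T) (h0 : 0 ≤ lo) (h1 : lo ≤ t) (h2 : t ≤ hi) (h3 : hi ≤ T)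
    (H : ∀ x ∈ ends T, ∀ y ∈ ends T, 0 ≤ x → x ≤ lo → x < t → hi ≤ y → y ≤ T →
      c ≤ (∫ τ in x..y, ψ τ) + (y - x) * k) :
    c ≤ (∫ τ in lo..hi, ψ τ) + (hi - lo) * k := by
  set Ψ : ℝ → ℝ := fun x => ∫ τ in (0 : ℝ)..x, ψ τ with hΨ
  have hT : 0 ≤ T := ht.1.le.trans ht.2.le
  have hc : ContinuousOn Ψ (Icc 0 T) := by
    have := intervalIntegral.continuousOn_primitive_interval' (a := 0) hψ left_mem_uIcc
    rwa [uIcc_of_le hT] at this
  have hdiff : ∀ x y, 0 ≤ x → x ≤ y → y ≤ T → ∫ τ in x..y, ψ τ = Ψ y - Ψ x := by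
    intro x y hx hxy hy
    exact (intervalIntegral.integral_interval_sub_left (sub_int hψ le_rfl (hx.trans hxy) hy)
      (sub_int hψ le_rfl hx (hxy.trans hy))).symm
  have hlo : lo ∈ Icc 0 T := ⟨h0, h1.trans (h2.trans h3)⟩
  have hhi : hi ∈ Icc 0 T := ⟨h0.trans (h1.trans h2), h3⟩
  refine le_of_forall_pos_le_add fun ε hε => ?_
  set δ : ℝ := ε / (2 + 2 * |k|) with hδ
  have hδ0 : 0 < δ := by positivity
  obtain ⟨δ1, hδ1, hw1⟩ := Metric.continuousOn_iff.1 hc lo hlo δ hδ0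
  obtain ⟨δ2, hδ2, hw2⟩ := Metric.continuousOn_iff.1 hc hi hhi δ hδ0
  obtain ⟨x, hxE, hx0, hxlo, hxt, hxd, hxΨ⟩ : ∃ x ∈ ends T, 0 ≤ x ∧ x ≤ lo ∧ x < t ∧
      |x - lo| < δ ∧ |Ψ x - Ψ lo| < δ := by
    rcases eq_or_lt_of_le h0 with h | h
    · refine ⟨0, Or.inr (by simp), le_rfl, h0, ht.1, ?_, ?_⟩
      · rw [← h]; simpa using hδ0
      · rw [← h]; simpa using hδ0
    · obtain ⟨q, hq1, hq2⟩ := exists_rat_btwn (show max 0 (lo - min δ δ1) < lo from
        max_lt h (by linarith [lt_min hδ0 hδ1]))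
      have a1 := (max_lt_iff.1 hq1).1
      have a2 := (max_lt_iff.1 hq1).2
      have a3 : |(q : ℝ) - lo| < min δ δ1 := by
        rw [abs_lt]; constructor <;> linarith [lt_min hδ0 hδ1]
      refine ⟨q, Or.inl ⟨q, rfl⟩, a1.le, hq2.le, hq2.trans_le h1,
        a3.trans_le (min_le_left _ _), ?_⟩
      have := hw1 q ⟨a1.le, hq2.le.trans hlo.2⟩ (by
        rw [Real.dist_eq]; exact a3.trans_le (min_le_right _ _))
      rwa [Real.dist_eq] at this
  obtain ⟨y, hyE, hyhi, hyT, hyd, hyΨ⟩ : ∃ y ∈ ends T, hi ≤ y ∧ y ≤ T ∧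
      |y - hi| < δ ∧ |Ψ y - Ψ hi| < δ := by
    rcases eq_or_lt_of_le h3 with h | h
    · refine ⟨T, Or.inr (by simp), h3, le_rfl, ?_, ?_⟩
      · rw [h]; simpa using hδ0
      · rw [h]; simpa using hδ0
    · obtain ⟨q, hq1, hq2⟩ := exists_rat_btwn (show hi < min T (hi + min δ δ2) from
        lt_min h (by linarith [lt_min hδ0 hδ2]))
      have a1 := (lt_min_iff.1 hq2).1
      have a2 := (lt_min_iff.1 hq2).2
      have a3 : |(q : ℝ) - hi| < min δ δ2 := by
        rw [abs_lt]; constructor <;> linarith [lt_min hδ0 hδ2]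
      refine ⟨q, Or.inl ⟨q, rfl⟩, hq1.le, a1.le, a3.trans_le (min_le_left _ _), ?_⟩
      have := hw2 q ⟨hhi.1.trans hq1.le, a1.le⟩ (by
        rw [Real.dist_eq]; exact a3.trans_le (min_le_right _ _))
      rwa [Real.dist_eq] at this
  have e1 := H x hxE y hyE hx0 hxlo hxt hyhi hyT
  have hxy : x ≤ y := hxlo.trans (h1.trans (h2.trans hyhi))
  rw [hdiff x y hx0 hxy hyT] at e1
  rw [hdiff lo hi h0 (h1.trans h2) h3]
  have b1 := (abs_lt.1 hxΨ).1
  have b2 := (abs_lt.1 hyΨ).2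
  have b3 : (y - x) * k ≤ (hi - lo) * k + 2 * δ * |k| := by
    have c1 : (y - x) * k - (hi - lo) * k = ((y - hi) - (x - lo)) * k := by ring
    have c2 : |((y - hi) - (x - lo)) * k| ≤ 2 * δ * |k| := by
      rw [abs_mul]
      refine mul_le_mul_of_nonneg_right ?_ (abs_nonneg _)
      refine (abs_sub _ _).trans ?_
      linarith
    have c3 := le_abs_self (((y - hi) - (x - lo)) * k)
    linarith
  have b4 : ε = 2 * δ + 2 * δ * |k| := by
    rw [hδ]
    have : (2 + 2 * |k|) ≠ 0 := by positivity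
    field_simp
  linarith

/-- **Energy equality from the fractional maximal function of the enstrophy.** -/
theorem energy_eq_max (hΩ : IsOpen Ω) {ν T : ℝ} (hν : 0 ≤ ν) (hT : 0 < T)
    {u : ℝ → L2V Ω} {G : ℝ → L2M Ω} {f : ℝ → L2V Ω} (h : IsWeakSolution Ω ν T u G f)
    {m : ℝ → ℝ} (hm0 : ∀ t, 0 ≤ m t) (hmi : IntegrableOn (fun t => m t * ‖G t‖ ^ 2) (Ioo 0 T))
    (hm : ∀ᵐ t ∂(volume.restrict (Ioo 0 T)), ∀ x y, 0 ≤ x → x ≤ t → t ≤ y → y ≤ T →
      (∫ τ in x..y, ‖G τ‖ ^ 2) ^ 2 ≤ m t ^ 3 * (y - x)) :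
    ∀ t ∈ Icc 0 T, energyDefect ν u G f t = 0 := by
  obtain ⟨M, hM⟩ := h.bdd
  have S := h.toSol hΩ hν hT hM
  have hM0 : 0 ≤ M := S.M0
  have hC2 := C2_nonneg
  have hGi : IntervalIntegrable (fun t => ‖G t‖ ^ 2) volume 0 T := by
    rw [intervalIntegrable_iff_integrableOn_Ioc_of_le hT.le]
    exact S.G2
  have hfi : IntervalIntegrable (fun t => ‖f t‖) volume 0 T := by
    rw [intervalIntegrable_iff_integrableOn_Ioc_of_le hT.le]
    exact S.fint.norm
  have hmi' : IntervalIntegrable (fun t => m t * ‖G t‖ ^ 2) volume 0 T := by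
    rw [intervalIntegrable_iff_integrableOn_Ioc_of_le hT.le, IntegrableOn, restrict_Ioc_eq]
    exact hmi
  set ψ : ℝ → ℝ := fun t => 2 * (C2 * (m t * ‖G t‖ ^ 2) + ν / 2 * ‖G t‖ ^ 2 + M * ‖f t‖) with hψ
  have hψ0 : ∀ t, 0 ≤ ψ t := fun t => by
    have := hm0 t
    simp only [hψ]; positivity
  have hψi : IntervalIntegrable ψ volume 0 T :=
    (((hmi'.const_mul C2).add (hGi.const_mul (ν / 2))).add (hfi.const_mul M)).const_mul 2
  have hψI : IntegrableOn ψ (Ioo 0 T) := by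
    rw [intervalIntegrable_iff_integrableOn_Ioc_of_le hT.le] at hψi
    exact hψi.mono_set Ioo_subset_Ioc_self
  have hm' : ∀ᵐ t : ℝ, t ∈ Ioo 0 T → ∀ x y, 0 ≤ x → x ≤ t → t ≤ y → y ≤ T →
      (∫ τ in x..y, ‖G τ‖ ^ 2) ^ 2 ≤ m t ^ 3 * (y - x) := by
    rwa [ae_restrict_iff' measurableSet_Ioo] at hm
  -- one interval
  have one : ∀ x ∈ ends T, ∀ y ∈ ends T, ∀ᵐ t : ℝ, 0 ≤ x → x < y → y ≤ T → t ∈ Ioc x y →
      t ∈ Ioo 0 T → ∀ s ∈ Icc x y,
        |⟪u t - u s, u t⟫_ℝ| ≤ (∫ τ in x..y, ψ τ) + (y - x) * ψ t := by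
    intro x _ y _
    by_cases hx : 0 ≤ x
    swap
    · exact Eventually.of_forall fun t h1 => absurd h1 hx
    by_cases hxy : x < y
    swap
    · exact Eventually.of_forall fun t _ h1 => absurd h1 hxy
    by_cases hy : y ≤ T
    swap
    · exact Eventually.of_forall fun t _ _ h1 => absurd h1 hy
    have sub : ∀ {g : ℝ → ℝ}, IntervalIntegrable g volume 0 T → IntervalIntegrable g volume x y :=
      fun hg => sub_int hg hx hxy.le hy
    set I := ∫ τ in x..y, ‖G τ‖ ^ 2 with hI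
    have hI0 : 0 ≤ I := intervalIntegral.integral_nonneg hxy.le fun τ _ => by positivity
    have hℓ : 0 < y - x := by linarith
    rcases eq_or_lt_of_le hI0 with h0 | h0
    · have k1 := loop0 hΩ hν hT h hM hx hxy hy h0.symm
      filter_upwards [k1] with t ht _ _ _ htI _ s hs
      refine (ht htI s hs).trans ?_
      have k2 : M * ∫ τ in x..y, ‖f τ‖ ≤ ∫ τ in x..y, ψ τ := by
        rw [← intervalIntegral.integral_const_mul]
        refine intervalIntegral.integral_mono_on hxy.le ((sub hfi).const_mul M) (sub hψi) ?_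
        intro τ _
        have := hm0 τ
        have k3 : 0 ≤ C2 * (m τ * ‖G τ‖ ^ 2) + ν / 2 * ‖G τ‖ ^ 2 := by positivity
        have k4 : 0 ≤ M * ‖f τ‖ := by positivity
        simp only [hψ]
        linarith
      have k3 : 0 ≤ (y - x) * ψ t := mul_nonneg hℓ.le (hψ0 t)
      linarith
    · set μ : ℝ := (I ^ 2 / (y - x)) ^ (1 / 3 : ℝ) with hμ
      have hμ0 : 0 ≤ μ := by positivity
      have hμ3 : μ ^ 3 * (y - x) = I ^ 2 := by
        rw [hμ, ← Real.rpow_natCast, ← Real.rpow_mul (by positivity)]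
        norm_num
        field_simp
      have hμm : ∀ᵐ t : ℝ, t ∈ Ioc x y → t ∈ Ioo 0 T → μ ≤ m t := by
        filter_upwards [hm'] with t ht htI ht0
        have k1 := ht ht0 x y hx htI.1.le htI.2 hy
        rw [← hI, ← hμ3] at k1
        have k2 := le_of_mul_le_mul_right k1 hℓ
        exact le_of_pow_le_pow_left₀ (by norm_num) (hm0 t) k2
      have k1 := loop hΩ hν hT h hM hx hxy hy hI.symm h0 hμ0 hμ3.ge
      have k2 : μ * I ≤ ∫ τ in x..y, m τ * ‖G τ‖ ^ 2 := by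
        rw [hI, ← intervalIntegral.integral_const_mul]
        refine intervalIntegral.integral_mono_ae_restrict hxy.le ((sub hGi).const_mul μ)
          (sub hmi') ?_
        rw [EventuallyLE, ae_restrict_iff' measurableSet_Icc]
        have hxne : ∀ᵐ q : ℝ, q ≠ x := by simp [ae_iff, measure_singleton]
        have hyne : ∀ᵐ q : ℝ, q ≠ y := by simp [ae_iff, measure_singleton]
        filter_upwards [hμm, hxne, hyne] with q hq hqx hqy hqI
        have hqJ : q ∈ Ioc x y := ⟨lt_of_le_of_ne hqI.1 (Ne.symm hqx), hqI.2⟩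
        have hq0 : q ∈ Ioo 0 T := ⟨hx.trans_lt hqJ.1, (lt_of_le_of_ne hqI.2 hqy).trans_le hy⟩
        exact mul_le_mul_of_nonneg_right (hq hqJ hq0) (by positivity)
      have k3 : ∫ τ in x..y, ψ τ = 2 * (C2 * (∫ τ in x..y, m τ * ‖G τ‖ ^ 2) + ν / 2 * I
          + M * ∫ τ in x..y, ‖f τ‖) := by
        simp only [hψ]
        rw [intervalIntegral.integral_const_mul, intervalIntegral.integral_add
          (((sub hmi').const_mul C2).add ((sub hGi).const_mul (ν / 2))) ((sub hfi).const_mul M),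
          intervalIntegral.integral_add ((sub hmi').const_mul C2) ((sub hGi).const_mul (ν / 2)),
          intervalIntegral.integral_const_mul, intervalIntegral.integral_const_mul,
          intervalIntegral.integral_const_mul]
      filter_upwards [k1, hμm] with t ht htm _ _ _ htI ht0 s hs
      refine (ht htI s hs).trans ?_
      rw [k3]
      have k4 := htm htI ht0
      have k5 : C2 * (μ * I) ≤ C2 * ∫ τ in x..y, m τ * ‖G τ‖ ^ 2 :=
        mul_le_mul_of_nonneg_left k2 hC2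
      have k6 : C2 * μ * ((y - x) * ‖G t‖ ^ 2) ≤ (y - x) * (C2 * (m t * ‖G t‖ ^ 2)) := by
        have : C2 * μ * ((y - x) * ‖G t‖ ^ 2) = ((y - x) * C2 * ‖G t‖ ^ 2) * μ := by ring
        rw [this]
        have : (y - x) * (C2 * (m t * ‖G t‖ ^ 2)) = ((y - x) * C2 * ‖G t‖ ^ 2) * m t := by ring
        rw [this]
        exact mul_le_mul_of_nonneg_left k4 (by positivity)
      have k7 : 0 ≤ (y - x) * (M * ‖f t‖) := by positivity
      simp only [hψ]
      nlinarith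
  have hone : ∀ᵐ t : ℝ, ∀ x ∈ ends T, ∀ y ∈ ends T, 0 ≤ x → x < y → y ≤ T → t ∈ Ioc x y →
      t ∈ Ioo 0 T → ∀ s ∈ Icc x y,
        |⟪u t - u s, u t⟫_ℝ| ≤ (∫ τ in x..y, ψ τ) + (y - x) * ψ t := by
    rw [ae_ball_iff (ends_countable T)]
    intro x hx
    rw [ae_ball_iff (ends_countable T)]
    exact one x hx
  refine energy_eq_corr hΩ hν hT h hψ0 hψI ?_
  rw [ae_restrict_iff' measurableSet_Ioo]
  filter_upwards [hone] with t ht ht0 s hs
  rcases le_total s t with hst | hst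
  · have e1 := of_ends hψi (c := |⟪u t - u s, u t⟫_ℝ|) (k := ψ t) ht0 hs.1 hst le_rfl ht0.2.le
      (by
        intro x hx y hy hx0 hxs hxt hty hyT
        exact ht x hx y hy hx0 (hxt.trans_le hty) hyT ⟨hxt, hty⟩ ht0 s ⟨hxs, hst.trans hty⟩)
    have e2 : |s - t| = t - s := by rw [abs_sub_comm, abs_of_nonneg (by linarith)]
    rw [e2]
    exact e1.trans (by linarith [le_abs_self (∫ τ in s..t, ψ τ)])
  · have e1 := of_ends hψi (c := |⟪u t - u s, u t⟫_ℝ|) (k := ψ t) ht0 ht0.1.le le_rfl hst hs.2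
      (by
        intro x hx y hy hx0 hxs hxt hty hyT
        exact ht x hx y hy hx0 (hxt.trans_le (hst.trans hty)) hyT ⟨hxt, hst.trans hty⟩ ht0 s
          ⟨hxt.le.trans hst, hty⟩)
    have e2 : |s - t| = s - t := abs_of_nonneg (by linarith)
    have e3 : |∫ τ in s..t, ψ τ| = |∫ τ in t..s, ψ τ| := by
      rw [intervalIntegral.integral_symm, abs_neg]
    rw [e2, e3]
    exact e1.trans (by linarith [le_abs_self (∫ τ in t..s, ψ τ)])

end Pool.Agent.TH301.EQ
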