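import Pool.Agent.TH340.FF.Ac2

/-!
The image of a null set, for a function whose increments between points of a set are bounded by the
integral of an integrable function.
-/

set_option autoImplicit false

open MeasureTheory Set Filter Topology
open scoped ENNReal

namespace Pool.Agent.TH301.EQ

open Pool.Agent.TH340.FF

theorem image_null {T : ℝ} {D ψ : ℝ → ℝ} {F : Set ℝ} (hT : 0 ≤ T)
    (hψ0 : ∀ t, 0 ≤ ψ t) (hψi : IntervalIntegrable ψ volume 0 T)
    (hb : ∀ s ∈ F, ∀ t ∈ F, 0 ≤ s → s ≤ t → t ≤ T → |D t - D s| ≤ ∫ r in s..t, ψ r)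
    (hF : F ⊆ Icc 0 T) {B : Set ℝ} (hBF : B ⊆ F) (hB : volume B = 0) : volume (D '' B) = 0 := by
  set φ : ℝ → ℝ := (Ioc 0 T).indicator ψ with hφ
  have hφi : Integrable φ := by
    rw [hφ, integrable_indicator_iff measurableSet_Ioc]
    rwa [intervalIntegrable_iff_integrableOn_Ioc_of_le hT] at hψi
  have hφ0 : ∀ t, 0 ≤ φ t := fun t => indicator_nonneg (fun x _ => hψ0 x) t
  have hφii : ∀ a b, IntervalIntegrable φ volume a b := fun a b => hφi.intervalIntegrable
  have hdiff : ∀ a b, (∫ r in (0 : ℝ)..b, φ r) - (∫ r in (0 : ℝ)..a, φ r) = ∫ r in a..b, φ r :=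
    fun a b => intervalIntegral.integral_interval_sub_left (hφii _ _) (hφii _ _)
  let Φ : StieltjesFunction ℝ :=
    { toFun := fun t => ∫ r in (0 : ℝ)..t, φ r
      mono' := fun a b hab => by
        have h1 := hdiff a b
        have h2 : 0 ≤ ∫ r in a..b, φ r := intervalIntegral.integral_nonneg hab fun r _ => hφ0 r
        linarith
      right_continuous' := fun x =>
        (intervalIntegral.continuous_primitive (fun a b => hφii a b) 0).continuousWithinAt }
  have hΦ : ∀ a b, Φ b - Φ a = ∫ r in a..b, φ r := hdiff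
  -- the Stieltjes measure
  have hmeas : Φ.measure = volume.withDensity (fun r => ENNReal.ofReal (φ r)) := by
    refine Measure.ext_of_Ioc _ _ fun a b hab => ?_
    rw [StieltjesFunction.measure_Ioc, withDensity_apply _ measurableSet_Ioc, hΦ,
      intervalIntegral.integral_of_le hab.le,
      ofReal_integral_eq_lintegral_ofReal hφi.integrableOn (Eventually.of_forall hφ0)]
  have hnull : Φ.measure B = 0 := by
    rw [hmeas]
    exact withDensity_absolutelyContinuous _ _ hB
  -- the comparison
  set m : OuterMeasure ℝ :=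
    OuterMeasure.restrict F (OuterMeasure.comap D (volume : Measure ℝ).toOuterMeasure) with hm
  have hle : m ≤ Φ.outer := by
    unfold StieltjesFunction.outer
    rw [OuterMeasure.le_ofFunction]
    intro S
    rw [StieltjesFunction.length_eq]
    refine le_iInf fun a => le_iInf fun b => le_iInf fun hS => ?_
    have hS' : S ⊆ Ioc a b := fun x hx => hS ⟨hx, fun h => by
      have : IsBot x := h
      exact not_isBot x this⟩
    have h1 : m S ≤ m (Ioc a b) := m.mono hS'
    refine h1.trans ?_
    rw [hm, OuterMeasure.restrict_apply, OuterMeasure.comap_apply]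
    refine (Real.volume_le_diam _).trans ?_
    rw [Metric.ediam_image_le_iff]
    have key : ∀ x ∈ Ioc a b ∩ F, ∀ y ∈ Ioc a b ∩ F, x ≤ y →
        edist (D x) (D y) ≤ ENNReal.ofReal (Φ b - Φ a) := by
      intro x hx y hy hxy
      have hx0 := hF hx.2
      have hy0 := hF hy.2
      rw [edist_dist, Real.dist_eq, hΦ, abs_sub_comm]
      refine ENNReal.ofReal_le_ofReal ?_
      refine (hb x hx.2 y hy.2 hx0.1 hxy hy0.2).trans ?_
      have e1 : ∫ r in x..y, ψ r = ∫ r in x..y, φ r := by
        refine intervalIntegral.integral_congr_ae ?_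
        refine Eventually.of_forall fun r hr => ?_
        rw [uIoc_of_le hxy] at hr
        rw [hφ, indicator_of_mem]
        exact ⟨hx0.1.trans_lt hr.1, hr.2.trans hy0.2⟩
      rw [e1]
      exact intervalIntegral.integral_mono_interval hx.1.1.le hxy hy.1.2
        (Eventually.of_forall hφ0) (hφii _ _)
    intro x hx y hy
    rcases le_total x y with h | h
    · exact key x hx y hy h
    · rw [edist_comm]
      exact key y hy x hx h
  have h2 : m B ≤ Φ.outer B := hle B
  have h3 : m B = volume (D '' B) := by
    rw [hm, OuterMeasure.restrict_apply, OuterMeasure.comap_apply, inter_eq_left.mpr hBF]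
    rfl
  have h4 : Φ.measure B = Φ.outer B := by
    rw [StieltjesFunction.measure]
    rfl
  rw [h3, ← h4, hnull] at h2
  exact le_antisymm h2 (zero_le)

end Pool.Agent.TH301.EQ
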