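import Pool.Agent.TH340.FF.Ac2

/-!
The set of the times near which a function is not constant, and its portions.
-/

set_option autoImplicit false

open MeasureTheory Set Filter Topology

namespace Pool.Agent.TH301.EQ

open Pool.Agent.TH340.FF

/-- the times in `[0,T]` near which `D` is not constant -/
def rough (T : ℝ) (D : ℝ → ℝ) : Set ℝ :=
  {t | t ∈ Icc 0 T ∧ ∀ δ > 0, ∃ s ∈ Icc 0 T, |s - t| < δ ∧ D s ≠ D t}

theorem rough_closed (T : ℝ) (D : ℝ → ℝ) : IsClosed (rough T D) := by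
  refine isClosed_of_closure_subset fun t ht => ?_
  rw [Metric.mem_closure_iff] at ht
  refine ⟨?_, fun δ hδ => ?_⟩
  · have h1 : t ∈ closure (Icc 0 T) := by
      rw [Metric.mem_closure_iff]
      intro ε hε
      obtain ⟨b, hb, hb2⟩ := ht ε hε
      exact ⟨b, hb.1, hb2⟩
    rwa [isClosed_Icc.closure_eq] at h1
  · obtain ⟨b, hb, hb2⟩ := ht (δ / 2) (by positivity)
    rw [Real.dist_eq, abs_sub_comm] at hb2
    obtain ⟨s, hs, hs1, hs2⟩ := hb.2 (δ / 2) (by positivity)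
    by_cases h : D s = D t
    · refine ⟨b, hb.1, by linarith, fun h2 => hs2 (by rw [h, h2])⟩
    · refine ⟨s, hs, ?_, h⟩
      have := abs_sub_le s b t
      linarith

theorem near_of_not_rough {T : ℝ} {D : ℝ → ℝ} {t : ℝ} (ht : t ∈ Icc 0 T) (h : t ∉ rough T D) :
    ∃ δ > 0, ∀ s ∈ Icc 0 T, |s - t| < δ → D s = D t := by
  by_contra hcon
  push Not at hcon
  exact h ⟨ht, fun δ hδ => by
    obtain ⟨s, h1, h2, h3⟩ := hcon δ hδ
    exact ⟨s, h1, h2, h3⟩⟩

theorem const_of_flat {T : ℝ} {D : ℝ → ℝ} {a b : ℝ} (ha : 0 ≤ a) (hab : a ≤ b) (hb : b ≤ T)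
    (h : ∀ t ∈ Icc a b, t ∉ rough T D) : D b = D a := by
  have key : ∀ t ∈ Icc a b, D =ᶠ[𝓝[Icc a b] t] fun _ => D t := by
    intro t ht
    obtain ⟨δ, hδ, h1⟩ := near_of_not_rough ⟨ha.trans ht.1, ht.2.trans hb⟩ (h t ht)
    have h2 : Metric.ball t δ ∈ 𝓝[Icc a b] t :=
      mem_nhdsWithin_of_mem_nhds (Metric.ball_mem_nhds t hδ)
    filter_upwards [self_mem_nhdsWithin, h2] with s hs hs2
    rw [Metric.mem_ball, Real.dist_eq] at hs2
    exact h1 s ⟨ha.trans hs.1, hs.2.trans hb⟩ hs2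
  refine constant_of_has_deriv_right_zero (f := D) (a := a) (b := b) ?_ ?_ b ⟨hab, le_rfl⟩
  · intro t ht
    have h1 : ContinuousWithinAt (fun _ : ℝ => D t) (Icc a b) t := continuousWithinAt_const
    exact h1.congr_of_eventuallyEq (key t ht) rfl
  · intro t ht
    have h1 : HasDerivWithinAt (fun _ : ℝ => D t) 0 (Icc t b) t := hasDerivWithinAt_const _ _ _
    have h2 : HasDerivWithinAt D 0 (Icc t b) t := by
      refine h1.congr_of_eventuallyEq ?_ rfl
      exact (key t ⟨ht.1, ht.2.le⟩).filter_mono (nhdsWithin_mono t (Icc_subset_Icc_left ht.1))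
    exact h2.mono_of_mem_nhdsWithin (Icc_mem_nhdsGE ht.2)

/-- `D` has the limit `D p` along a sequence from the left -/
def LeftOK (D : ℝ → ℝ) (p : ℝ) : Prop :=
  ∀ ε > 0, 0 < p → ∃ σ ∈ Ioo (p - ε) p, 0 ≤ σ ∧ |D σ - D p| < ε

/-- `D` has the limit `D p` along a sequence from the right -/
def RightOK (T : ℝ) (D : ℝ → ℝ) (p : ℝ) : Prop :=
  ∀ ε > 0, p < T → ∃ σ ∈ Ioo p (p + ε), σ ≤ T ∧ |D σ - D p| < ε

theorem left_const {T : ℝ} {D : ℝ → ℝ} {a p : ℝ} (ha : 0 ≤ a) (hap : a < p) (hp : p ≤ T)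
    (h : ∀ t ∈ Ico a p, t ∉ rough T D) (hL : LeftOK D p) : D a = D p := by
  by_contra hne
  have h0 : 0 < |D a - D p| := abs_pos.mpr (sub_ne_zero.mpr hne)
  obtain ⟨σ, h1, h2, h3⟩ := hL (min |D a - D p| (p - a)) (lt_min h0 (by linarith)) (by linarith)
  have h4 : a < σ := by
    have := h1.1
    have := min_le_right |D a - D p| (p - a)
    linarith
  have h5 := const_of_flat ha h4.le (h1.2.le.trans hp)
    (fun t ht => h t ⟨ht.1, ht.2.trans_lt h1.2⟩)
  rw [h5] at h3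
  exact absurd (h3.trans_le (min_le_left _ _)) (lt_irrefl _)

theorem right_const {T : ℝ} {D : ℝ → ℝ} {p b : ℝ} (hp : 0 ≤ p) (hpb : p < b) (hb : b ≤ T)
    (h : ∀ t ∈ Ioc p b, t ∉ rough T D) (hR : RightOK T D p) : D b = D p := by
  by_contra hne
  have h0 : 0 < |D b - D p| := abs_pos.mpr (sub_ne_zero.mpr hne)
  obtain ⟨σ, h1, h2, h3⟩ := hR (min |D b - D p| (b - p)) (lt_min h0 (by linarith)) (by linarith)
  have h4 : σ < b := by
    have := h1.2
    have := min_le_right |D b - D p| (b - p)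
    linarith
  have h5 := const_of_flat (hp.trans h1.1.le) h4.le hb
    (fun t ht => h t ⟨h1.1.trans_le ht.1, ht.2⟩)
  rw [← h5] at h3
  exact absurd (h3.trans_le (min_le_left _ _)) (lt_irrefl _)

/-- absolute continuity from a bound of the increments, on a subinterval -/
theorem ac_of_bound {T : ℝ} {D ψ : ℝ → ℝ} (hψi : IntervalIntegrable ψ volume 0 T)
    {a b : ℝ} (ha : 0 ≤ a) (hab : a ≤ b) (hb : b ≤ T)
    (h : ∀ s t, a ≤ s → s ≤ t → t ≤ b → |D t - D s| ≤ ∫ r in s..t, ψ r) :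
    AbsolutelyContinuousOnInterval D a b := by
  have hki : IntervalIntegrable ψ volume a b := sub_int hψi ha hab hb
  have hac : AbsolutelyContinuousOnInterval (fun x => ∫ r in a..x, ψ r) a b :=
    hki.absolutelyContinuousOnInterval_intervalIntegral left_mem_uIcc
  rw [absolutelyContinuousOnInterval_iff] at hac ⊢
  intro ε hε
  obtain ⟨δ, hδ, h1⟩ := hac ε hε
  refine ⟨δ, hδ, fun I hI hI2 => ?_⟩
  refine lt_of_le_of_lt (Finset.sum_le_sum fun i hi => ?_) (h1 I hI hI2)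
  have h3 := hI.1 i hi
  have hu : uIcc a b = Icc a b := uIcc_of_le hab
  rw [hu] at h3
  have key : ∀ s t, s ∈ Icc a b → t ∈ Icc a b → s ≤ t → |D t - D s|
      ≤ |(∫ r in a..t, ψ r) - ∫ r in a..s, ψ r| := by
    intro s t hs ht hst
    have sub : ∀ x ∈ Icc a b, IntervalIntegrable ψ volume a x := fun x hx =>
      sub_int hψi ha hx.1 (hx.2.trans hb)
    rw [intervalIntegral.integral_interval_sub_left (sub t ht) (sub s hs)]
    exact (h s t hs.1 hst ht.2).trans (le_abs_self _)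
  rw [Real.dist_eq, Real.dist_eq]
  rcases le_total (I.2 i).1 (I.2 i).2 with h5 | h5
  · rw [abs_sub_comm, abs_sub_comm (∫ r in a..(I.2 i).1, ψ r)]
    exact key _ _ h3.1 h3.2 h5
  · exact key _ _ h3.2 h3.1 h5

/-- If a portion of the rough set is contained in a set on which `D` is absolutely continuous, then
it is empty. -/
theorem no_portion {T : ℝ} {D ψ : ℝ → ℝ} {F : Set ℝ}
    (hψ0 : ∀ t, 0 ≤ ψ t) (hψi : IntervalIntegrable ψ volume 0 T)
    (hb : ∀ s ∈ F, ∀ t ∈ F, 0 ≤ s → s ≤ t → t ≤ T → |D t - D s| ≤ ∫ r in s..t, ψ r)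
    (hL : ∀ p ∈ F, p ∈ Icc 0 T → LeftOK D p) (hR : ∀ p ∈ F, p ∈ Icc 0 T → RightOK T D p)
    (hd : ∀ᵐ x : ℝ, x ∈ Icc 0 T → ∀ d, HasDerivAt D d x → d = 0)
    {t₀ δ : ℝ} (ht₀ : t₀ ∈ Icc 0 T) (hδ : 0 < δ)
    (hF : ∀ t ∈ rough T D, |t - t₀| < δ → t ∈ F) : t₀ ∉ rough T D := by
  set a := max 0 (t₀ - δ / 2) with ha
  set b := min T (t₀ + δ / 2) with hb'
  have ha0 : 0 ≤ a := le_max_left _ _
  have hbT : b ≤ T := min_le_left _ _
  have hat : a ≤ t₀ := max_le ht₀.1 (by linarith)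
  have htb : t₀ ≤ b := le_min ht₀.2 (by linarith)
  have hab : a ≤ b := hat.trans htb
  have hnear : ∀ t ∈ Icc a b, |t - t₀| < δ := by
    intro t ht
    have h1 := (le_max_right 0 (t₀ - δ / 2)).trans ht.1
    have h2 := ht.2.trans (min_le_right T (t₀ + δ / 2))
    rw [abs_lt]
    constructor <;> linarith
  have hinc : ∀ s t, a ≤ s → s ≤ t → t ≤ b → |D t - D s| ≤ ∫ r in s..t, ψ r := by
    intro s t hs hst ht
    have hs0 : 0 ≤ s := ha0.trans hs
    have htT : t ≤ T := ht.trans hbT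
    have hA : IsCompact (rough T D ∩ Icc s t) :=
      isCompact_Icc.inter_left (rough_closed T D)
    rcases (rough T D ∩ Icc s t).eq_empty_or_nonempty with h0 | h0
    · have e0 : D t = D s := const_of_flat hs0 hst htT (fun x hx hx2 => by
        have : x ∈ rough T D ∩ Icc s t := ⟨hx2, hx⟩
        rw [h0] at this
        exact this)
      rw [e0, sub_self, abs_zero]
      exact intervalIntegral.integral_nonneg hst fun r _ => hψ0 r
    · set s' := sInf (rough T D ∩ Icc s t) with hs'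
      set t' := sSup (rough T D ∩ Icc s t) with ht'
      have m1 : s' ∈ rough T D ∩ Icc s t := hA.sInf_mem h0
      have m2 : t' ∈ rough T D ∩ Icc s t := hA.sSup_mem h0
      have f1 : s' ∈ F := hF s' m1.1 (hnear s' ⟨hs.trans m1.2.1, m1.2.2.trans ht⟩)
      have f2 : t' ∈ F := hF t' m2.1 (hnear t' ⟨hs.trans m2.2.1, m2.2.2.trans ht⟩)
      have hst' : s' ≤ t' := csInf_le_csSup h0 hA.bddBelow hA.bddAbove
      have e1 : D s = D s' := by
        rcases eq_or_lt_of_le m1.2.1 with h1 | h1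
        · rw [← h1]
        refine left_const hs0 h1 (m1.2.2.trans htT) (fun x hx hx2 => ?_) (hL s' f1 m1.1.1)
        have := csInf_le hA.bddBelow (show x ∈ rough T D ∩ Icc s t from
          ⟨hx2, hx.1, hx.2.le.trans m1.2.2⟩)
        exact absurd (this.trans_lt hx.2) (lt_irrefl _)
      have e2 : D t = D t' := by
        rcases eq_or_lt_of_le m2.2.2 with h1 | h1
        · rw [h1]
        refine right_const (hs0.trans m2.2.1) h1 htT (fun x hx hx2 => ?_) (hR t' f2 m2.1.1)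
        have := le_csSup hA.bddAbove (show x ∈ rough T D ∩ Icc s t from
          ⟨hx2, m2.2.1.trans hx.1.le, hx.2⟩)
        exact absurd (hx.1.trans_le this) (lt_irrefl _)
      rw [e1, e2]
      exact (hb s' f1 t' f2 (hs0.trans m1.2.1) hst' (m2.2.2.trans htT)).trans
        (int_mono_set hψi hψ0 hs0 m1.2.1 hst' m2.2.2 htT)
  have hac := ac_of_bound hψi ha0 hab hbT hinc
  have h3 := hac.ae_differentiableAt
  have hu : uIcc a b = Icc a b := uIcc_of_le hab
  obtain ⟨C, hC⟩ := hac.const_of_ae_hasDerivAt_zero (by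
    filter_upwards [h3, hd] with x k1 k2 hx
    have hd' := (k1 hx).hasDerivAt
    rw [hu] at hx
    have := k2 ⟨ha0.trans hx.1, hx.2.trans hbT⟩ _ hd'
    rwa [this] at hd')
  rw [hu] at hC
  intro hr
  obtain ⟨s, hs, hs1, hs2⟩ := hr.2 (δ / 2) (by positivity)
  rw [abs_lt] at hs1
  refine hs2 ?_
  rw [hC s ⟨max_le hs.1 (by linarith), le_min hs.2 (by linarith)⟩, hC t₀ ⟨hat, htb⟩]

/-- There are no isolated points at which `D` has one-sided limits along sequences. -/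
theorem no_isolated {T : ℝ} {D : ℝ → ℝ} {t₀ δ : ℝ} (ht₀ : t₀ ∈ Icc 0 T) (hδ : 0 < δ)
    (hL : LeftOK D t₀) (hR : RightOK T D t₀)
    (hF : ∀ t ∈ rough T D, |t - t₀| < δ → t = t₀) : t₀ ∉ rough T D := by
  intro hr
  obtain ⟨s, hs, hs1, hs2⟩ := hr.2 δ hδ
  rw [abs_lt] at hs1
  refine hs2 ?_
  rcases lt_trichotomy s t₀ with h | h | h
  · refine left_const hs.1 h ht₀.2 (fun x hx hx2 => ?_) hL
    have := hF x hx2 (by rw [abs_lt]; constructor <;> linarith [hx.1, hx.2])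
    exact absurd (this ▸ hx.2) (lt_irrefl _)
  · rw [h]
  · refine right_const ht₀.1 h hs.2 (fun x hx hx2 => ?_) hR
    have := hF x hx2 (by rw [abs_lt]; constructor <;> linarith [hx.1, hx.2])
    exact absurd (this ▸ hx.1) (lt_irrefl _)

/-- **Category.** If no one of the closed sets `F n` contains a portion of the rough set, and no
point of the countable set `N` is isolated in it, then the other points are dense in the rough
set. -/
theorem rough_dense {T : ℝ} {D : ℝ → ℝ} {F : ℕ → Set ℝ} {N : Set ℝ} (hN : N.Countable)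
    (hF : ∀ n, IsClosed (F n))
    (h1 : ∀ n, ∀ t₀ ∈ rough T D, ∀ δ > 0, ∃ t ∈ rough T D, |t - t₀| < δ ∧ t ∉ F n)
    (h2 : ∀ t₀ ∈ rough T D, t₀ ∈ N → ∀ δ > 0, ∃ t ∈ rough T D, |t - t₀| < δ ∧ t ≠ t₀) :
    ∀ t₀ ∈ rough T D, ∀ δ > 0, ∃ t ∈ rough T D, |t - t₀| < δ ∧ t ∉ N ∧ ∀ n, t ∉ F n := by
  intro t₀ ht₀ δ hδ
  have : CompleteSpace (rough T D) := (rough_closed T D).completeSpace_coe
  have : Countable N := hN.to_subtype
  set f : ℕ ⊕ N → Set (rough T D) := fun i =>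
    Sum.elim (fun n => {x : rough T D | x.1 ∉ F n}) (fun a => {x : rough T D | x.1 ≠ a.1}) i with hf
  have ho : ∀ i, IsOpen (f i) := by
    rintro (n | a)
    · exact (hF n).isOpen_compl.preimage continuous_subtype_val
    · exact (isClosed_singleton (x := a.1)).isOpen_compl.preimage continuous_subtype_val
  have hd : ∀ i, Dense (f i) := by
    rintro (n | a)
    · rw [Metric.dense_iff]
      intro x r hr
      obtain ⟨t, ht, ht1, ht2⟩ := h1 n x.1 x.2 r hr
      refine ⟨⟨t, ht⟩, ?_, ht2⟩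
      rw [Metric.mem_ball, Subtype.dist_eq, Real.dist_eq]
      exact ht1
    · rw [Metric.dense_iff]
      intro x r hr
      by_cases hx : x.1 = a.1
      · obtain ⟨t, ht, ht1, ht2⟩ := h2 x.1 x.2 (hx ▸ a.2) r hr
        refine ⟨⟨t, ht⟩, ?_, fun h => ht2 (h.trans hx.symm)⟩
        rw [Metric.mem_ball, Subtype.dist_eq, Real.dist_eq]
        exact ht1
      · exact ⟨x, Metric.mem_ball_self hr, hx⟩
  have hD := dense_iInter_of_isOpen ho hd
  rw [Metric.dense_iff] at hD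
  obtain ⟨x, hx1, hx2⟩ := hD ⟨t₀, ht₀⟩ δ hδ
  rw [mem_iInter] at hx2
  refine ⟨x.1, x.2, ?_, fun h => hx2 (Sum.inr ⟨x.1, h⟩) rfl, fun n => hx2 (Sum.inl n)⟩
  rw [Metric.mem_ball, Subtype.dist_eq, Real.dist_eq] at hx1
  exact hx1

end Pool.Agent.TH301.EQ
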