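import Pool.Agent.TH301.EQ.PubMain

/-!
Special cases: directions of the velocity where it is large, and direction fields.
-/

set_option autoImplicit false
set_option linter.unusedSectionVars false

open MeasureTheory Set Filter Topology
open scoped InnerProductSpace ENNReal ContDiff NNReal

namespace Pool.Agent.TH301.EQ

open H772R2.NS.Pub

theorem alt_smul_left (c : ℝ) (a b : H772R2.NS.E3) : alt (c • a) b = c • alt a b := by
  ext p
  simp only [alt_apply, PiLp.smul_apply, smul_eq_mul]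
  ring

theorem alt_smul_right (c : ℝ) (a b : H772R2.NS.E3) : alt a (c • b) = c • alt a b := by
  ext p
  simp only [alt_apply, PiLp.smul_apply, smul_eq_mul]
  ring

theorem alt_add_left (a a' b : H772R2.NS.E3) : alt (a + a') b = alt a b + alt a' b := by
  ext p
  simp only [alt_apply, PiLp.add_apply]
  ring

theorem alt_add_right (a b b' : H772R2.NS.E3) : alt a (b + b') = alt a b + alt a b' := by
  ext p
  simp only [alt_apply, PiLp.add_apply]
  ring

theorem norm_alt_unit {d d' : H772R2.NS.E3} (h : ‖d‖ = 1) (h' : ‖d'‖ = 1) :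
    ‖alt d d'‖ ≤ 2 * ‖d - d'‖ := by
  have h1 := norm_sq_alt d d'
  have h2 : ‖d - d'‖ ^ 2 = 2 - 2 * ⟪d, d'⟫_ℝ := by
    rw [norm_sub_sq_real, h, h']; ring
  have h3 : |⟪d, d'⟫_ℝ| ≤ 1 := by
    have := abs_real_inner_le_norm d d'
    rwa [h, h', one_mul] at this
  have h4 := (abs_le.1 h3).1
  have h5 := (abs_le.1 h3).2
  rw [h, h'] at h1
  refine abs_le_of_sq_le_sq' ?_ (by positivity) |>.2
  rw [h1, mul_pow, h2]
  nlinarith

/-- the alternating product of two vectors which are nearly parallel to unit vectors -/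
theorem norm_alt_dir {d d' a b : H772R2.NS.E3} (h : ‖d‖ = 1) (h' : ‖d'‖ = 1) {k : ℝ}
    (hk : ‖d - d'‖ ≤ k) :
    ‖alt a b‖ ≤ 2 * k * ‖a‖ * ‖b‖ + 2 * ‖a - ⟪a, d⟫_ℝ • d‖ * ‖b‖
      + ‖a‖ * (2 * ‖b - ⟪b, d'⟫_ℝ • d'‖) := by
  set α := ⟪a, d⟫_ℝ with hα
  set β := ⟪b, d'⟫_ℝ with hβ
  set a' := a - α • d with ha'
  set b' := b - β • d' with hb'
  have e1 : alt a b = alt a' b + α • (β • alt d d' + alt d b') := by
    have h1 : a = a' + α • d := by rw [ha']; abel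
    have h2 : b = b' + β • d' := by rw [hb']; abel
    calc alt a b = alt (a' + α • d) b := by rw [← h1]
      _ = alt a' b + α • alt d b := by rw [alt_add_left, alt_smul_left]
      _ = alt a' b + α • alt d (b' + β • d') := by rw [← h2]
      _ = _ := by rw [alt_add_right, alt_smul_right, add_comm (alt d b')]
  have hαa : |α| ≤ ‖a‖ := by
    have := abs_real_inner_le_norm a d
    rwa [h, mul_one] at this
  have hβb : |β| ≤ ‖b‖ := by
    have := abs_real_inner_le_norm b d'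
    rwa [h', mul_one] at this
  have n1 : ‖alt a' b‖ ≤ 2 * (‖a'‖ * ‖b‖) := norm_alt_le a' b
  have n2 : ‖alt d b'‖ ≤ 2 * ‖b'‖ := by
    have := norm_alt_le d b'
    rwa [h, one_mul] at this
  have n3 : ‖alt d d'‖ ≤ 2 * k := (norm_alt_unit h h').trans (by linarith)
  have hk0 : 0 ≤ k := (norm_nonneg _).trans hk
  rw [e1]
  calc ‖alt a' b + α • (β • alt d d' + alt d b')‖
      ≤ ‖alt a' b‖ + ‖α • (β • alt d d' + alt d b')‖ := norm_add_le _ _
    _ = ‖alt a' b‖ + |α| * ‖β • alt d d' + alt d b'‖ := by rw [norm_smul, Real.norm_eq_abs]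
    _ ≤ ‖alt a' b‖ + |α| * (|β| * ‖alt d d'‖ + ‖alt d b'‖) := by
        gcongr
        refine (norm_add_le _ _).trans ?_
        rw [norm_smul, Real.norm_eq_abs]
    _ ≤ 2 * (‖a'‖ * ‖b‖) + ‖a‖ * (‖b‖ * (2 * k) + 2 * ‖b'‖) := by gcongr
    _ = _ := by ring

theorem abs_trip_le (z : Mat) (a b : R3) {c : ℝ} (h : ‖alt a b‖ ≤ c) :
    |⟪z, wedge a b⟫_ℝ| ≤ ‖z‖ * c := by
  refine (abs_real_inner_le_norm z (wedge a b)).trans ?_
  refine mul_le_mul_of_nonneg_left ?_ (norm_nonneg _)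
  have h2 : ‖wedge a b‖ = ‖alt a b‖ := congrArg (fun y : H772R2.NS.M3 => ‖y‖) (wedge_eq a b)
  rw [h2]
  exact h

theorem norm_alt_cross (a b : R3) : ‖alt a b‖ ≤ 2 * cross a b := norm_alt_le_cr a b

theorem Serrin.two_mul {Ω : Set R3} {T : ℝ} {a b : ℝ≥0∞} {v : ℝ → R3 → ℝ}
    (h : Serrin Ω T a b v) : Serrin Ω T a b (fun t x => 2 * v t x) := by
  obtain ⟨hab, B, hB, hv⟩ := h
  refine ⟨hab, fun t => 2 * B t, hB.const_mul 2, ?_⟩
  filter_upwards [hv] with t ht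
  refine ⟨ht.1.const_mul 2, ?_⟩
  have h1 := eLpNorm_const_smul (2 : ℝ) (v t) b (volume.restrict Ω)
  have h2 : eLpNorm (fun x => 2 * v t x) b (volume.restrict Ω)
      = ENNReal.ofReal 2 * eLpNorm (v t) b (volume.restrict Ω) := by
    rw [Real.enorm_eq_ofReal zero_le_two] at h1
    exact h1
  rw [h2, ENNReal.ofReal_mul zero_le_two]
  exact mul_le_mul_right ht.2 _

theorem Serrin.norm {E : Type} [NormedAddCommGroup E] {Ω : Set R3} {T : ℝ} {a b : ℝ≥0∞}
    {v : ℝ → R3 → E} (h : Serrin Ω T a b v) : Serrin Ω T a b (fun t x => ‖v t x‖) := by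
  obtain ⟨hab, B, hB, hv⟩ := h
  refine ⟨hab, B, hB, ?_⟩
  filter_upwards [hv] with t ht
  refine ⟨ht.1.norm, ?_⟩
  rw [eLpNorm_norm]
  exact ht.2

/-- the part of the velocity of length at most `R` is in a Serrin class -/
theorem serrin_small {Ω : Set R3} {T : ℝ} (u : ℝ → L2 Ω R3) {R : ℝ → ℝ}
    (hR : MemLp R 2 (volume.restrict (Ioo 0 T))) :
    Serrin Ω T 2 ⊤ (fun t x => if ‖(u t).fn x‖ ≤ R t then ‖(u t).fn x‖ else 0) := by
  refine ⟨?_, R, hR, Eventually.of_forall fun t => ⟨?_, ?_⟩⟩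
  · rw [ENNReal.div_top, add_zero]
    exact ENNReal.div_self (by norm_num) (by norm_num)
  · have h1 : AEStronglyMeasurable (u t).fn (volume.restrict Ω) :=
      (Lp.memLp (show Lp R3 2 ((volume : Measure R3).restrict Ω) from u t)).aestronglyMeasurable
    have h2 : Measurable (fun r : ℝ => if r ≤ R t then r else 0) :=
      Measurable.ite measurableSet_Iic measurable_id measurable_const
    exact (h2.comp_aemeasurable h1.norm.aemeasurable).aestronglyMeasurable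
  · rw [eLpNorm_exponent_top]
    show eLpNormEssSup (fun x => if ‖(u t).fn x‖ ≤ R t then ‖(u t).fn x‖ else 0)
      (volume.restrict Ω) ≤ _
    rcases le_or_gt 0 (R t) with h0 | h0
    · refine eLpNormEssSup_le_of_ae_bound (Eventually.of_forall fun x => ?_)
      show ‖(if ‖(u t).fn x‖ ≤ R t then ‖(u t).fn x‖ else (0 : ℝ))‖ ≤ R t
      split_ifs with h
      · rwa [norm_norm]
      · rw [norm_zero]; exact h0
    · have : (fun x => if ‖(u t).fn x‖ ≤ R t then ‖(u t).fn x‖ else 0) = fun _ => (0 : ℝ) := by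
        funext x
        rw [if_neg]
        have := norm_nonneg ((u t).fn x)
        linarith
      rw [this]
      have h2 := eLpNormEssSup_le_of_ae_bound (C := 0) (f := fun _ : R3 => (0 : ℝ))
        (μ := volume.restrict Ω) (Eventually.of_forall fun x => by rw [norm_zero])
      refine h2.trans ?_
      rw [ENNReal.ofReal_zero]
      exact bot_le

/-- directions where the velocity is large -/
theorem pub_large {Ω : Set R3} (hΩ : IsOpen Ω) {ν T : ℝ} (hν : 0 ≤ ν) (hT : 0 < T)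
    {u : ℝ → L2 Ω R3} {G : ℝ → L2 Ω Mat} {f : ℝ → L2 Ω R3} (hu : IsWeakSolution Ω ν T u G f)
    {K p : ℝ} (hK : 0 ≤ K) (hp : 8 / 3 ≤ p) (hp4 : p ≤ 4)
    (h4 : p ≠ 8 / 3 → ∫⁻ t in Ioo 0 T, norm4 (u t) ^ p ≠ ⊤)
    {R : ℝ → ℝ} (hR : MemLp R 2 (volume.restrict (Ioo 0 T)))
    (hyp : ∀ᵐ t ∂(volume.restrict (Ioo 0 T)), ∀ᵐ s ∂(volume.restrict (Ioo 0 T)),
      ∀ᵐ x ∂(volume.restrict Ω), R s < ‖(u s).fn x‖ → R t < ‖(u t).fn x‖ →
        cross ((u s).fn x) ((u t).fn x)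
          ≤ K * modulus p u s t * ‖(u s).fn x‖ * ‖(u t).fn x‖) :
    ∀ t ∈ Icc 0 T, energyDefect ν u G f t = 0 := by
  refine pub_trip hΩ hν hT hu (K := 2 * K) (by linarith) hp hp4 h4 (serrin_small u hR).two_mul ?_
  filter_upwards [hyp] with t ht
  filter_upwards [ht] with s hs
  filter_upwards [hs] with x hx
  refine abs_trip_le _ _ _ ?_
  have n1 := norm_nonneg ((u s).fn x)
  have n2 := norm_nonneg ((u t).fn x)
  have hk : 0 ≤ 2 * K * modulus p u s t * ‖(u s).fn x‖ * ‖(u t).fn x‖ := by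
    have := modulus_nonneg p u s t
    positivity
  have n3 : ‖alt ((u s).fn x) ((u t).fn x)‖ ≤ 2 * (‖(u s).fn x‖ * ‖(u t).fn x‖) :=
    norm_alt_le _ _
  by_cases h1 : ‖(u s).fn x‖ ≤ R s
  · rw [if_pos h1]
    have h3 : 0 ≤ ‖(u s).fn x‖ * (2 * if ‖(u t).fn x‖ ≤ R t then ‖(u t).fn x‖ else 0) := by
      refine mul_nonneg n1 (mul_nonneg zero_le_two ?_)
      split_ifs
      · exact n2
      · exact le_rfl
    linarith
  · by_cases h2 : ‖(u t).fn x‖ ≤ R t
    · rw [if_pos h2, if_neg h1]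
      have : 0 ≤ 2 * (0 : ℝ) * ‖(u t).fn x‖ := by positivity
      linarith
    · rw [if_neg h1, if_neg h2]
      have h3 := hx (not_le.1 h1) (not_le.1 h2)
      have h4 := norm_alt_cross ((u s).fn x) ((u t).fn x)
      refine h4.trans ?_
      have e1 : 2 * K * modulus p u s t * ‖(u s).fn x‖ * ‖(u t).fn x‖
          + 2 * 0 * ‖(u t).fn x‖ + ‖(u s).fn x‖ * (2 * 0)
          = 2 * (K * modulus p u s t * ‖(u s).fn x‖ * ‖(u t).fn x‖) := by ring
      rw [e1]
      linarith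

/-- direction fields -/
theorem pub_dir {Ω : Set R3} (hΩ : IsOpen Ω) {ν T : ℝ} (hν : 0 ≤ ν) (hT : 0 < T)
    {u : ℝ → L2 Ω R3} {G : ℝ → L2 Ω Mat} {f : ℝ → L2 Ω R3} (hu : IsWeakSolution Ω ν T u G f)
    {K p : ℝ} (hK : 0 ≤ K) (hp : 8 / 3 ≤ p) (hp4 : p ≤ 4)
    (h4 : p ≠ 8 / 3 → ∫⁻ t in Ioo 0 T, norm4 (u t) ^ p ≠ ⊤)
    {d : ℝ → R3 → R3} (hd : ∀ t ∈ Ioo 0 T, ∀ x ∈ Ω, ‖d t x‖ = 1)
    (hd2 : ∀ s ∈ Ioo 0 T, ∀ t ∈ Ioo 0 T, ∀ x ∈ Ω,
      ‖d s x - d t x‖ ≤ K * modulus p u s t)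
    {a b : ℝ≥0∞} (hv : Serrin Ω T a b (fun t x => perp (d t x) ((u t).fn x))) :
    ∀ t ∈ Icc 0 T, energyDefect ν u G f t = 0 := by
  refine pub_trip hΩ hν hT hu (K := 2 * K) (by linarith) hp hp4 h4 hv.norm.two_mul ?_
  have hΩm : MeasurableSet Ω := IsOpen.measurableSet (α := H772R2.NS.E3) hΩ
  filter_upwards [ae_restrict_mem measurableSet_Ioo] with t ht
  filter_upwards [ae_restrict_mem measurableSet_Ioo] with s hs
  filter_upwards [ae_restrict_mem hΩm] with x hx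
  refine abs_trip_le _ _ _ ?_
  have h1 := norm_alt_dir (a := (u s).fn x) (b := (u t).fn x) (hd s hs x hx) (hd t ht x hx)
    (hd2 s hs t ht x hx)
  refine h1.trans (le_of_eq ?_)
  have e1 : 2 * (K * modulus p u s t) = 2 * K * modulus p u s t := by ring
  rw [e1]
  rfl

end Pool.Agent.TH301.EQ
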