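import Pool.Agent.TH301.EQ.PubOne

/-!
Good times: of type I, or tame for one of countably many weights.
-/

set_option autoImplicit false
set_option linter.unusedSectionVars false

open MeasureTheory Set Filter Topology
open scoped InnerProductSpace ENNReal ContDiff NNReal

namespace Pool.Agent.TH301.EQ

open H772R2.NS.Pub

/-- `t` is good: it is of type I, `∫_J g ≤ C |J|^{1/2}` for all short intervals `J ⊆ [0,T]` which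
contain `t`, or tame for one of the weights `θ n`. -/
def Good (T : ℝ) (g : ℝ → ℝ) (θ : ℕ → ℝ → ℝ) (t : ℝ) : Prop :=
  (∃ C δ : ℝ, 0 < δ ∧ ∀ x y, 0 ≤ x → x ≤ t → t ≤ y → y ≤ T → y - x ≤ δ →
    ∫ τ in x..y, g τ ≤ C * Real.sqrt (y - x)) ∨ ∃ n, TameAt T g (θ n) t

/-- `t` is good to the right: it is of forward type I, `∫_t^y g ≤ C (y - t)^{1/2}` for `y` close to
`t`, or tame to the right for one of the weights `θ n`. -/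
def GoodRight (T : ℝ) (g : ℝ → ℝ) (θ : ℕ → ℝ → ℝ) (t : ℝ) : Prop :=
  (∃ C δ : ℝ, 0 < δ ∧ ∀ y, t < y → y ≤ T → y - t ≤ δ →
    ∫ τ in t..y, g τ ≤ C * Real.sqrt (y - t)) ∨ ∃ n, TameRight T g (θ n) t

/-- `t` is good from the left: it is of backward type I, `∫_x^t g ≤ C (t - x)^{1/2}` for `x` close to
`t`, or tame from the left for one of the weights `θ n`. -/
def GoodLeft (g : ℝ → ℝ) (θ : ℕ → ℝ → ℝ) (t : ℝ) : Prop :=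
  (∃ C δ : ℝ, 0 < δ ∧ ∀ x, 0 ≤ x → x < t → t - x ≤ δ →
    ∫ τ in x..t, g τ ≤ C * Real.sqrt (t - x)) ∨ ∃ n, TameLeft g (θ n) t

/-- the weights `g, θ 0, θ 1, …` -/
def consW (g : ℝ → ℝ) (θ : ℕ → ℝ → ℝ) : ℕ → ℝ → ℝ
  | 0 => g
  | n + 1 => θ n

theorem consW_nonneg {g : ℝ → ℝ} {θ : ℕ → ℝ → ℝ} (hg : ∀ t, 0 ≤ g t) (hθ : ∀ n t, 0 ≤ θ n t) :
    ∀ n t, 0 ≤ consW g θ n t
  | 0, t => hg t
  | n + 1, t => hθ n t

theorem consW_int {g : ℝ → ℝ} {θ : ℕ → ℝ → ℝ} {S : Set ℝ} (hg : IntegrableOn g S)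
    (hθ : ∀ n, IntegrableOn (θ n) S) : ∀ n, IntegrableOn (consW g θ n) S
  | 0 => hg
  | n + 1 => hθ n

theorem good_tame {T : ℝ} {g : ℝ → ℝ} {θ : ℕ → ℝ → ℝ} (hg0 : ∀ t, 0 ≤ g t)
    (hgi : IntervalIntegrable g volume 0 T) {t : ℝ} (ht : t ∈ Icc 0 T) (h : Good T g θ t) :
    ∃ n, TameAt T g (consW g θ n) t := by
  rcases h with ⟨C, δ, hδ, h⟩ | ⟨n, h⟩
  · exact ⟨0, tameAt_of_typeI hg0 hgi ht hδ h⟩
  · exact ⟨n + 1, h⟩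

theorem good_right {T : ℝ} {g : ℝ → ℝ} {θ : ℕ → ℝ → ℝ} (hg0 : ∀ t, 0 ≤ g t)
    (hgi : IntervalIntegrable g volume 0 T) {t : ℝ} (ht : t ∈ Icc 0 T) (h : GoodRight T g θ t) :
    ∃ n, TameRight T g (consW g θ n) t := by
  rcases h with ⟨C, δ, hδ, h⟩ | ⟨n, h⟩
  · exact ⟨0, tameRight_of_typeI hg0 hgi ht hδ h⟩
  · exact ⟨n + 1, h⟩

theorem good_left {T : ℝ} {g : ℝ → ℝ} {θ : ℕ → ℝ → ℝ} (hg0 : ∀ t, 0 ≤ g t)
    (hgi : IntervalIntegrable g volume 0 T) {t : ℝ} (ht : t ∈ Icc 0 T) (h : GoodLeft g θ t) :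
    ∃ n, TameLeft g (consW g θ n) t := by
  rcases h with ⟨C, δ, hδ, h⟩ | ⟨n, h⟩
  · exact ⟨0, tameLeft_of_typeI hg0 hgi ht hδ h⟩
  · exact ⟨n + 1, h⟩

variable {Ω : Set R3} {ν T : ℝ} {u : ℝ → L2 Ω R3} {G : ℝ → L2 Ω Mat} {f : ℝ → L2 Ω R3}
  {θ : ℕ → ℝ → ℝ} {N : Set ℝ}

theorem good_null (hΩ : IsOpen Ω) (hν : 0 ≤ ν) (hT : 0 < T) (hu : IsWeakSolution Ω ν T u G f)
    (hθ0 : ∀ n t, 0 ≤ θ n t) (hθ : ∀ n, IntegrableOn (θ n) (Ioo 0 T)) :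
    volume (energyDefect ν u G f '' {t | t ∈ Icc 0 T ∧ (u t ∈ H10sigma Ω ∨
      Good T (fun τ => ‖G τ‖ ^ 2) θ t)}) = 0 := by
  have hg0 : ∀ t, 0 ≤ (fun τ => ‖G τ‖ ^ 2) t := fun t => by positivity
  have hgi := ii_of_on hT (pub_G2 hu)
  refine measure_mono_null (image_mono ?_) (pub_null hΩ hν hT hu (consW_nonneg hg0 hθ0)
    (consW_int (pub_G2 hu) hθ))
  rintro t ⟨ht, h | h⟩
  · exact ⟨ht, Or.inl h⟩
  · exact ⟨ht, Or.inr (good_tame hg0 hgi ht h)⟩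

theorem good_dense (hΩ : IsOpen Ω) (hν : 0 ≤ ν) (hT : 0 < T) (hu : IsWeakSolution Ω ν T u G f)
    (hθ0 : ∀ n t, 0 ≤ θ n t) (hθ : ∀ n, IntegrableOn (θ n) (Ioo 0 T))
    (hN : N.Countable) (hJ : ∀ t ∈ N, NoJump T u t) :
    ∀ t₀ ∈ rough T (energyDefect ν u G f), ∀ δ > 0, ∃ t ∈ rough T (energyDefect ν u G f),
      |t - t₀| < δ ∧ t ∉ N ∧ ¬ Good T (fun τ => ‖G τ‖ ^ 2) θ t := by
  have hg0 : ∀ t, 0 ≤ (fun τ => ‖G τ‖ ^ 2) t := fun t => by positivity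
  have hgi := ii_of_on hT (pub_G2 hu)
  intro t₀ ht₀ δ hδ
  obtain ⟨t, ht, h1, h2, h3⟩ := pub_dense hΩ hν hT hu (consW_nonneg hg0 hθ0)
    (consW_int (pub_G2 hu) hθ) hN hJ t₀ ht₀ δ hδ
  refine ⟨t, ht, h1, h2, fun h => ?_⟩
  obtain ⟨n, hn⟩ := good_tame hg0 hgi ht.1 h
  exact h3 n hn

theorem good_eq (hΩ : IsOpen Ω) (hν : 0 ≤ ν) (hT : 0 < T) (hu : IsWeakSolution Ω ν T u G f)
    (hθ0 : ∀ n t, 0 ≤ θ n t) (hθ : ∀ n, IntegrableOn (θ n) (Ioo 0 T))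
    (hN : N.Countable) (hJ : ∀ t ∈ N, NoJump T u t)
    (hall : ∀ t ∈ rough T (energyDefect ν u G f), t ∈ N ∨ Good T (fun τ => ‖G τ‖ ^ 2) θ t) :
    ∀ t ∈ Icc 0 T, energyDefect ν u G f t = 0 := by
  have hg0 : ∀ t, 0 ≤ (fun τ => ‖G τ‖ ^ 2) t := fun t => by positivity
  have hgi := ii_of_on hT (pub_G2 hu)
  refine pub_tame_eq hΩ hν hT hu (consW_nonneg hg0 hθ0) (consW_int (pub_G2 hu) hθ) hN hJ
    fun t ht => ?_
  rcases hall t ht with h | h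
  · exact Or.inl h
  · exact Or.inr (good_tame hg0 hgi ht.1 h)

theorem good_forward (hΩ : IsOpen Ω) (hν : 0 ≤ ν) (hT : 0 < T) (hu : IsWeakSolution Ω ν T u G f)
    (hθ0 : ∀ n t, 0 ≤ θ n t) (hθ : ∀ n, IntegrableOn (θ n) (Ioo 0 T))
    (hN : N.Countable) (hJ : ∀ t ∈ N, NoJumpRight T u t)
    (hL : ∀ t ∈ rising T (energyDefect ν u G f), NoJumpLeft u t)
    (hall : ∀ t ∈ rising T (energyDefect ν u G f),
      t ∈ N ∨ GoodRight T (fun τ => ‖G τ‖ ^ 2) θ t) :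
    ∀ s t, 0 ≤ s → s ≤ t → t ≤ T → energyDefect ν u G f t ≤ energyDefect ν u G f s := by
  have hg0 : ∀ t, 0 ≤ (fun τ => ‖G τ‖ ^ 2) t := fun t => by positivity
  have hgi := ii_of_on hT (pub_G2 hu)
  refine pub_forward hΩ hν hT hu (consW_nonneg hg0 hθ0) (consW_int (pub_G2 hu) hθ) hN hJ hL
    fun t ht => ?_
  rcases hall t ht with h | h
  · exact Or.inl h
  · exact Or.inr (good_right hg0 hgi ht.1 h)

theorem good_backward (hΩ : IsOpen Ω) (hν : 0 ≤ ν) (hT : 0 < T)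
    (hu : IsWeakSolution Ω ν T u G f)
    (hθ0 : ∀ n t, 0 ≤ θ n t) (hθ : ∀ n, IntegrableOn (θ n) (Ioo 0 T))
    (hN : N.Countable) (hJ : ∀ t ∈ N, NoJumpLeft u t)
    (hR : ∀ t ∈ falling T (energyDefect ν u G f), NoJumpRight T u t)
    (hall : ∀ t ∈ falling T (energyDefect ν u G f),
      t ∈ N ∨ GoodLeft (fun τ => ‖G τ‖ ^ 2) θ t) :
    ∀ s t, 0 ≤ s → s ≤ t → t ≤ T → energyDefect ν u G f s ≤ energyDefect ν u G f t := by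
  have hg0 : ∀ t, 0 ≤ (fun τ => ‖G τ‖ ^ 2) t := fun t => by positivity
  have hgi := ii_of_on hT (pub_G2 hu)
  refine pub_backward hΩ hν hT hu (consW_nonneg hg0 hθ0) (consW_int (pub_G2 hu) hθ) hN hJ hR
    fun t ht => ?_
  rcases hall t ht with h | h
  · exact Or.inl h
  · exact Or.inr (good_left hg0 hgi ht.1 h)

end Pool.Agent.TH301.EQ
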