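import Pool.Agent.TH301.EQ.Max
import Pool.Agent.TH301.EQ.Time
import Pool.Agent.H772R2.NS.PubBridge

/-!
The increment criterion, and the criteria in terms of the public definitions.
-/

set_option autoImplicit false
set_option linter.unusedSectionVars false

open MeasureTheory Set Filter Topology
open scoped InnerProductSpace ENNReal ContDiff NNReal

namespace Pool.Agent.TH301.EQ

section

open H772R2.NS

theorem young_inc {a c D K L : ℝ} (ha : 0 ≤ a) (hc : 0 ≤ c) (hD : 0 ≤ D) (hK : 0 ≤ K)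
    (hL : 0 ≤ L) (h : D ≤ K * (Real.sqrt L + a⁻¹ + c⁻¹)) :
    a * c * Real.sqrt (a + c) * Real.sqrt D
      ≤ (1 + K) * (a ^ 2 + c ^ 2 + L * (a ^ 2 * c ^ 2)) := by
  rcases eq_or_lt_of_le ha with h0 | ha0
  · rw [← h0]; simp; positivity
  rcases eq_or_lt_of_le hc with h0 | hc0
  · rw [← h0]; simp; positivity
  refine le_of_pow_le_pow_left₀ (n := 4) (by norm_num) (by positivity) ?_
  have h1 : (a * c * Real.sqrt (a + c) * Real.sqrt D) ^ 4 = a ^ 4 * c ^ 4 * (a + c) ^ 2 * D ^ 2 := by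
    have e1 : Real.sqrt (a + c) ^ 4 = (a + c) ^ 2 := by
      rw [show (4 : ℕ) = 2 * 2 from rfl, pow_mul, Real.sq_sqrt (by positivity)]
    have e2 : Real.sqrt D ^ 4 = D ^ 2 := by
      rw [show (4 : ℕ) = 2 * 2 from rfl, pow_mul, Real.sq_sqrt hD]
    rw [mul_pow, mul_pow, mul_pow, e1, e2]
  rw [h1]
  set q := Real.sqrt L with hq
  have hq0 : 0 ≤ q := Real.sqrt_nonneg _
  have hqL : L = q ^ 2 := (Real.sq_sqrt hL).symm
  have h2 : a * c * D ≤ K * (q * (a * c) + c + a) := by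
    have : a * c * (K * (q + a⁻¹ + c⁻¹)) = K * (q * (a * c) + c + a) := by field_simp
    rw [← this]
    exact mul_le_mul_of_nonneg_left h (by positivity)
  have h3 : (a * c * D) ^ 2 ≤ (K * (q * (a * c) + c + a)) ^ 2 :=
    pow_le_pow_left₀ (by positivity) h2 2
  set s := a ^ 2 + c ^ 2 with hs
  set z := L * (a ^ 2 * c ^ 2) with hz
  have hs0 : 0 ≤ s := by positivity
  have hz0 : 0 ≤ z := by positivity
  have h4 : (q * (a * c) + c + a) ^ 2 ≤ 3 * (z + s) := by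
    have e1 : z = (q * (a * c)) ^ 2 := by rw [hz, hqL]; ring
    rw [e1, hs]
    nlinarith [sq_nonneg (q * (a * c) - c), sq_nonneg (q * (a * c) - a), sq_nonneg (a - c)]
  have h5 : (a + c) ^ 2 ≤ 2 * s := by rw [hs]; nlinarith [sq_nonneg (a - c)]
  have h6 : (a * c) ^ 2 ≤ s ^ 2 / 4 := by
    rw [hs]; nlinarith [sq_nonneg (a ^ 2 - c ^ 2)]
  have h7 : a ^ 4 * c ^ 4 * (a + c) ^ 2 * D ^ 2
      ≤ s ^ 2 / 4 * (2 * s) * (K ^ 2 * (3 * (z + s))) := by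
    have e1 : a ^ 4 * c ^ 4 * (a + c) ^ 2 * D ^ 2
        = (a * c) ^ 2 * (a + c) ^ 2 * (a * c * D) ^ 2 := by ring
    rw [e1]
    have e2 : (K * (q * (a * c) + c + a)) ^ 2 ≤ K ^ 2 * (3 * (z + s)) := by
      rw [mul_pow]
      exact mul_le_mul_of_nonneg_left h4 (by positivity)
    exact mul_le_mul (mul_le_mul h6 h5 (by positivity) (by positivity)) (h3.trans e2)
      (by positivity) (by positivity)
  refine h7.trans ?_
  have h8 : s ^ 2 / 4 * (2 * s) * (K ^ 2 * (3 * (z + s))) = 3 / 2 * K ^ 2 * (s ^ 3 * (s + z)) := by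
    ring
  rw [h8, mul_pow]
  have h9 : 3 / 2 * K ^ 2 ≤ (1 + K) ^ 4 := by
    have : 0 ≤ 1 + 4 * K + 9 / 2 * K ^ 2 + 4 * K ^ 3 + K ^ 4 := by positivity
    nlinarith
  have h10 : s ^ 3 * (s + z) ≤ (s + z) ^ 4 := by
    have : s ^ 3 ≤ (s + z) ^ 3 := pow_le_pow_left₀ hs0 (by linarith) 3
    calc s ^ 3 * (s + z) ≤ (s + z) ^ 3 * (s + z) := by gcongr
      _ = _ := by ring
  exact mul_le_mul h9 h10 (by positivity) (by positivity)

/-- the increment criterion -/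
theorem energy_eq_inc {Ω : Set E3} (hΩ : IsOpen Ω) {ν T K : ℝ} (hν : 0 ≤ ν) (hT : 0 < T)
    (hK : 0 ≤ K) {u : ℝ → L2V Ω} {G : ℝ → L2M Ω} {f : ℝ → L2V Ω}
    (h : IsWeakSolution Ω ν T u G f)
    (hp : ∀ᵐ t ∂(volume.restrict (Ioo 0 T)), ∀ᵐ s ∂(volume.restrict (Ioo 0 T)),
      ‖u s - u t‖ ≤ K * (Real.sqrt |s - t| + ‖G s‖⁻¹ + ‖G t‖⁻¹)) :
    ∀ t ∈ Icc 0 T, energyDefect ν u G f t = 0 := by
  obtain ⟨M, hM⟩ := h.bdd
  have hG2 : Integrable (fun t => ‖G t‖ ^ 2) (volume.restrict (Ioo 0 T)) :=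
    (memLp_two_iff_integrable_sq_norm h.gradL2.aestronglyMeasurable).mp h.gradL2
  have hc := c0_nonneg
  set C : ℝ := c0 * (1 + K) with hC
  have hC0 : 0 ≤ C := by positivity
  refine energy_eq_two hΩ hν hT h hM (ψ := fun t => (1 + C) * ‖G t‖ ^ 2)
    (fun t => by positivity) (hG2.const_mul (1 + C)) ?_
  filter_upwards [h.grad, hp] with t ht hpt
  filter_upwards [h.grad, hpt] with s hs hps
  have k1 := tri_inc hΩ.measurableSet (mem_graphW.mpr hs) (mem_graphW.mpr ht)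
  simp only at k1
  have k2 := young_inc (norm_nonneg (G s)) (norm_nonneg (G t)) (norm_nonneg (u s - u t)) hK
    (abs_nonneg (s - t)) hps
  have k3 := k1.trans (mul_le_mul_of_nonneg_left k2 hc)
  refine k3.trans ?_
  set X := ‖G s‖ ^ 2 with hX
  set Y := ‖G t‖ ^ 2 with hY
  have hX0 : 0 ≤ X := by positivity
  have hY0 : 0 ≤ Y := by positivity
  have hL0 : 0 ≤ |s - t| := abs_nonneg _
  have e1 : c0 * ((1 + K) * (X + Y + |s - t| * (X * Y))) = C * X + C * Y + C * (|s - t| * (X * Y)) := by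
    rw [hC]; ring
  rw [e1]
  have hXY : 0 ≤ |s - t| * (X * Y) := by positivity
  have z3 : C * (|s - t| * (X * Y)) ≤ |s - t| * ((1 + C) * X * ((1 + C) * Y)) := by
    have e2 : |s - t| * ((1 + C) * X * ((1 + C) * Y)) = (1 + C) ^ 2 * (|s - t| * (X * Y)) := by ring
    rw [e2]
    refine mul_le_mul_of_nonneg_right ?_ hXY
    nlinarith
  have z1 : C * X ≤ (1 + C) * X := mul_le_mul_of_nonneg_right (by linarith) hX0
  have z2 : C * Y ≤ (1 + C) * Y := mul_le_mul_of_nonneg_right (by linarith) hY0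
  exact add_le_add (add_le_add z1 z2) z3

end

open H772R2.NS.Pub

/-- the constant of the local estimate, which depends on nothing -/
noncomputable def locC : ℝ := 2 * C2

/-- the local estimate, for all weak solutions -/
theorem pub_local {Ω : Set R3} (hΩ : IsOpen Ω) {ν T M : ℝ} (hν : 0 ≤ ν) (hT : 0 < T)
    {u : ℝ → L2 Ω R3} {G : ℝ → L2 Ω Mat} {f : ℝ → L2 Ω R3} (hu : IsWeakSolution Ω ν T u G f)
    (hM : ∀ t ∈ Icc 0 T, ‖u t‖ ≤ M) {x y : ℝ} (hx : 0 ≤ x) (hxy : x < y) (hy : y ≤ T) :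
    ∀ᵐ r ∂(volume.restrict (Ioo x y)), ∀ s ∈ Icc x y, |⟪u r - u s, u r⟫_ℝ|
      ≤ (locC * ((∫ τ in x..y, ‖G τ‖ ^ 2) ^ 2 / (y - x)) ^ (1 / 3 : ℝ) + ν)
          * ((∫ τ in x..y, ‖G τ‖ ^ 2) + (y - x) * ‖G r‖ ^ 2)
        + 2 * M * ∫ τ in x..y, ‖f τ‖ := by
  have hu' := toNS hu
  have hC2 := C2_nonneg
  have hℓ : 0 < y - x := by linarith
  rw [ae_restrict_iff' measurableSet_Ioo]
  set I := ∫ τ in x..y, ‖G τ‖ ^ 2 with hI
  have hI0 : 0 ≤ I := intervalIntegral.integral_nonneg hxy.le fun τ _ => by positivity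
  have hM0 : 0 ≤ M := (norm_nonneg _).trans (hM 0 ⟨le_rfl, hT.le⟩)
  have hF0 : 0 ≤ ∫ τ in x..y, ‖f τ‖ :=
    intervalIntegral.integral_nonneg hxy.le fun τ _ => norm_nonneg _
  set μ : ℝ := (I ^ 2 / (y - x)) ^ (1 / 3 : ℝ) with hμ
  have hμ0 : 0 ≤ μ := by positivity
  have hμ3 : μ ^ 3 * (y - x) = I ^ 2 := by
    rw [hμ, ← Real.rpow_natCast, ← Real.rpow_mul (by positivity)]
    norm_num
    field_simp
  rcases eq_or_lt_of_le hI0 with h0 | h0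
  · have k1 : ∀ᵐ r : ℝ, r ∈ Ioc x y → ∀ s ∈ Icc x y,
        |⟪u r - u s, u r⟫_ℝ| ≤ M * ∫ τ in x..y, ‖f τ‖ :=
      loop0 (Ω := (Ω : Set H772R2.NS.E3)) hΩ hν hT hu' hM hx hxy hy h0.symm
    filter_upwards [k1] with r hr hrI s hs
    refine (hr (Ioo_subset_Ioc_self hrI) s hs).trans ?_
    have e1 : 0 ≤ (locC * μ + ν) * (I + (y - x) * ‖G r‖ ^ 2) := by
      have : 0 ≤ locC := by unfold locC; positivity
      positivity
    have e2 : 0 ≤ M * ∫ τ in x..y, ‖f τ‖ := by positivity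
    linarith
  · have k1 : ∀ᵐ r : ℝ, r ∈ Ioc x y → ∀ s ∈ Icc x y, |⟪u r - u s, u r⟫_ℝ|
        ≤ 2 * ((C2 * μ + ν / 2) * (I + (y - x) * ‖G r‖ ^ 2) + M * ∫ τ in x..y, ‖f τ‖) :=
      loop (Ω := (Ω : Set H772R2.NS.E3)) hΩ hν hT hu' hM hx hxy hy hI.symm h0 hμ0 hμ3.ge
    filter_upwards [k1] with r hr hrI s hs
    refine (hr (Ioo_subset_Ioc_self hrI) s hs).trans (le_of_eq ?_)
    unfold locC
    ring

/-- the maximal function criterion -/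
theorem pub_max {Ω : Set R3} (hΩ : IsOpen Ω) {ν T : ℝ} (hν : 0 ≤ ν) (hT : 0 < T)
    {u : ℝ → L2 Ω R3} {G : ℝ → L2 Ω Mat} {f : ℝ → L2 Ω R3} (hu : IsWeakSolution Ω ν T u G f)
    {m : ℝ → ℝ} (hm0 : ∀ t, 0 ≤ m t) (hmi : IntegrableOn (fun t => m t * ‖G t‖ ^ 2) (Ioo 0 T))
    (hm : ∀ᵐ t ∂(volume.restrict (Ioo 0 T)), ∀ x y, 0 ≤ x → x ≤ t → t ≤ y → y ≤ T →
      (∫ τ in x..y, ‖G τ‖ ^ 2) ^ 2 ≤ m t ^ 3 * (y - x)) :
    ∀ t ∈ Icc 0 T, energyDefect ν u G f t = 0 :=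
  energy_eq_max (Ω := (Ω : Set H772R2.NS.E3)) hΩ hν hT (toNS hu) hm0 hmi hm

/-- the increment criterion -/
theorem pub_inc {Ω : Set R3} (hΩ : IsOpen Ω) {ν T K : ℝ} (hν : 0 ≤ ν) (hT : 0 < T) (hK : 0 ≤ K)
    {u : ℝ → L2 Ω R3} {G : ℝ → L2 Ω Mat} {f : ℝ → L2 Ω R3} (hu : IsWeakSolution Ω ν T u G f)
    (hp : ∀ᵐ t ∂(volume.restrict (Ioo 0 T)), ∀ᵐ s ∂(volume.restrict (Ioo 0 T)),
      ‖u s - u t‖ ≤ K * (Real.sqrt |s - t| + ‖G s‖⁻¹ + ‖G t‖⁻¹)) :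
    ∀ t ∈ Icc 0 T, energyDefect ν u G f t = 0 :=
  energy_eq_inc (Ω := (Ω : Set H772R2.NS.E3)) hΩ hν hT hK (toNS hu) hp

/-- uniform type I, in the sense of Morrey -/
theorem pub_morrey {Ω : Set R3} (hΩ : IsOpen Ω) {ν T c : ℝ} (hν : 0 ≤ ν) (hT : 0 < T)
    {u : ℝ → L2 Ω R3} {G : ℝ → L2 Ω Mat} {f : ℝ → L2 Ω R3} (hu : IsWeakSolution Ω ν T u G f)
    (hc : ∀ x y, 0 ≤ x → x ≤ y → y ≤ T → ∫ τ in x..y, ‖G τ‖ ^ 2 ≤ c * Real.sqrt (y - x)) :
    ∀ t ∈ Icc 0 T, energyDefect ν u G f t = 0 := by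
  have hG2 : Integrable (fun t => ‖G t‖ ^ 2) (volume.restrict (Ioo 0 T)) :=
    (memLp_two_iff_integrable_sq_norm hu.gradL2.aestronglyMeasurable).mp hu.gradL2
  refine pub_max hΩ hν hT hu (m := fun _ => 1 + c ^ 2) (fun _ => by positivity)
    (hG2.const_mul (1 + c ^ 2)) (Eventually.of_forall fun t x y hx hxt hty hy => ?_)
  have h1 := hc x y hx (hxt.trans hty) hy
  have h0 : 0 ≤ ∫ τ in x..y, ‖G τ‖ ^ 2 :=
    intervalIntegral.integral_nonneg (hxt.trans hty) fun τ _ => by positivity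
  have h2 := pow_le_pow_left₀ h0 h1 2
  have hd : 0 ≤ y - x := by linarith
  rw [mul_pow, Real.sq_sqrt hd] at h2
  refine h2.trans (mul_le_mul_of_nonneg_right ?_ hd)
  have h3 : 0 ≤ c ^ 2 := by positivity
  nlinarith [mul_nonneg h3 h3, mul_nonneg h3 (mul_nonneg h3 h3)]

end Pool.Agent.TH301.EQ
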