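import Pool.Agent.TH301.EQ.Main2
import Pool.Agent.TH301.EQ.Corr
import Pool.Agent.H772R2.NS.PubBridge

/-!
The criterion in terms of the public definitions.
-/

set_option autoImplicit false
set_option linter.unusedSectionVars false

open MeasureTheory Set Filter Topology
open scoped InnerProductSpace ENNReal ContDiff NNReal

namespace Pool.Agent.TH301.EQ

open H772R2.NS.Pub

/-- The matrix `a ⊗ b - b ⊗ a`, with the entries `a_i b_j - b_i a_j`. -/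
noncomputable def wedge (a b : R3) : Mat :=
  WithLp.toLp 2 fun p : Fin 3 × Fin 3 => ⟪e p.1, a⟫_ℝ * ⟪e p.2, b⟫_ℝ - ⟪e p.1, b⟫_ℝ * ⟪e p.2, a⟫_ℝ

/-- The length `|a × b|` of the vector product. -/
noncomputable def cross (a b : R3) : ℝ := Real.sqrt (‖a‖ ^ 2 * ‖b‖ ^ 2 - ⟪a, b⟫_ℝ ^ 2)

/-- The part of `a` perpendicular to the unit vector `d`. -/
noncomputable def perp (d a : R3) : R3 := a - ⟪a, d⟫_ℝ • d

/-- The admissible change of the direction of the velocity between the times `s` and `t`,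
`|s - t|^{2/p - 1/2} + ‖u(s)‖^{p/2 - 2} + ‖u(t)‖^{p/2 - 2}`, with the norm of `L⁴(Ω)`. -/
noncomputable def modulus {Ω : Set R3} (p : ℝ) (u : ℝ → L2 Ω R3) (s t : ℝ) : ℝ :=
  |s - t| ^ (2 / p - 1 / 2) + (norm4 (u s)).toReal ^ (p / 2 - 2)
    + (norm4 (u t)).toReal ^ (p / 2 - 2)

theorem modulus_nonneg {Ω : Set R3} (p : ℝ) (u : ℝ → L2 Ω R3) (s t : ℝ) : 0 ≤ modulus p u s t :=
  add_nonneg (add_nonneg (Real.rpow_nonneg (abs_nonneg _) _)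
    (Real.rpow_nonneg ENNReal.toReal_nonneg _)) (Real.rpow_nonneg ENNReal.toReal_nonneg _)

/-- `v` belongs to a Serrin class on `Ω × (0,T)`: `‖v(t)‖_{L^b(Ω)} ≤ B(t)` for almost every `t`,
where `B ∈ L^a(0,T)` and `2/a + 3/b = 1` (so that `2 ≤ a ≤ ∞` and `3 ≤ b ≤ ∞`). -/
def Serrin {E : Type} [NormedAddCommGroup E] (Ω : Set R3) (T : ℝ) (a b : ℝ≥0∞)
    (v : ℝ → R3 → E) : Prop :=
  2 / a + 3 / b = 1 ∧ ∃ B : ℝ → ℝ, MemLp B a (volume.restrict (Ioo 0 T)) ∧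
    ∀ᵐ t ∂(volume.restrict (Ioo 0 T)), AEStronglyMeasurable (v t) (volume.restrict Ω) ∧
      eLpNorm (v t) b (volume.restrict Ω) ≤ ENNReal.ofReal (B t)

theorem wedge_eq (a b : H772R2.NS.E3) : (wedge a b : H772R2.NS.M3) = alt a b := by
  have h : ∀ p : Fin 3 × Fin 3, ⟪(e p.1 : H772R2.NS.E3), a⟫_ℝ * ⟪(e p.2 : H772R2.NS.E3), b⟫_ℝ
      - ⟪(e p.1 : H772R2.NS.E3), b⟫_ℝ * ⟪(e p.2 : H772R2.NS.E3), a⟫_ℝ
      = a p.1 * b p.2 - b p.1 * a p.2 := by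
    intro p
    rw [inner_e, inner_e, inner_e, inner_e]
  show WithLp.toLp 2 (fun p : Fin 3 × Fin 3 =>
    ⟪(e p.1 : H772R2.NS.E3), a⟫_ℝ * ⟪(e p.2 : H772R2.NS.E3), b⟫_ℝ
      - ⟪(e p.1 : H772R2.NS.E3), b⟫_ℝ * ⟪(e p.2 : H772R2.NS.E3), a⟫_ℝ) = _
  rw [funext h]
  rfl

/-- the correlation criterion -/
theorem pub_corr {Ω : Set R3} (hΩ : IsOpen Ω) {ν T : ℝ} (hν : 0 ≤ ν) (hT : 0 < T)
    {u : ℝ → L2 Ω R3} {G : ℝ → L2 Ω Mat} {f : ℝ → L2 Ω R3} (hu : IsWeakSolution Ω ν T u G f)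
    {ψ : ℝ → ℝ} (hψ0 : ∀ t, 0 ≤ ψ t) (hψ : IntegrableOn ψ (Ioo 0 T))
    (hp : ∀ᵐ t ∂(volume.restrict (Ioo 0 T)), ∀ s ∈ Icc 0 T,
      |⟪u t - u s, u t⟫_ℝ| ≤ |∫ r in s..t, ψ r| + |s - t| * ψ t) :
    ∀ t ∈ Icc 0 T, energyDefect ν u G f t = 0 :=
  energy_eq_corr (Ω := (Ω : Set H772R2.NS.E3)) hΩ hν hT (toNS hu) hψ0 hψ hp

/-- the criterion for the triple product -/
theorem pub_trip {Ω : Set R3} (hΩ : IsOpen Ω) {ν T : ℝ} (hν : 0 ≤ ν) (hT : 0 < T)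
    {u : ℝ → L2 Ω R3} {G : ℝ → L2 Ω Mat} {f : ℝ → L2 Ω R3} (hu : IsWeakSolution Ω ν T u G f)
    {K p : ℝ} (hK : 0 ≤ K) (hp : 8 / 3 ≤ p) (hp4 : p ≤ 4)
    (h4 : p ≠ 8 / 3 → ∫⁻ t in Ioo 0 T, norm4 (u t) ^ p ≠ ⊤)
    {a b : ℝ≥0∞} {v : ℝ → R3 → ℝ} (hv : Serrin Ω T a b v)
    (hyp : ∀ᵐ t ∂(volume.restrict (Ioo 0 T)), ∀ᵐ s ∂(volume.restrict (Ioo 0 T)),
      ∀ᵐ x ∂(volume.restrict Ω), |⟪(G s).fn x, wedge ((u s).fn x) ((u t).fn x)⟫_ℝ|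
        ≤ ‖(G s).fn x‖ * (K * modulus p u s t * ‖(u s).fn x‖ * ‖(u t).fn x‖
          + v s x * ‖(u t).fn x‖ + ‖(u s).fn x‖ * v t x)) :
    ∀ t ∈ Icc 0 T, energyDefect ν u G f t = 0 := by
  have hu' := toNS hu
  obtain ⟨hab, B, hB, hvB⟩ := hv
  have h4' : IntegrableOn (fun t => H772R2.NS.n4 (Ω := (Ω : Set H772R2.NS.E3)) (u t) ^ p)
      (Ioo 0 T) := by
    rcases eq_or_ne p (8 / 3) with h | h
    · rw [h]
      exact n4_auto (Ω := (Ω : Set H772R2.NS.E3)) hΩ hu'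
    · exact n4_int (Ω := (Ω : Set H772R2.NS.E3)) hΩ hu' (h4 h)
  refine main (Ω := (Ω : Set H772R2.NS.E3)) hΩ hν hT hu' hK hp hp4 h4' hab hB hvB ?_
  filter_upwards [hyp] with t ht
  filter_upwards [ht] with s hs
  filter_upwards [hs] with x hx
  have h2 := wedge_eq ((u s).fn x) ((u t).fn x)
  have h3 : ⟪alt ((u s).fn x) ((u t).fn x), (G s).fn x⟫_ℝ
      = ⟪(G s).fn x, wedge ((u s).fn x) ((u t).fn x)⟫_ℝ := by
    rw [← h2]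
    exact real_inner_comm _ _
  exact (le_of_eq (congrArg abs h3)).trans hx

end Pool.Agent.TH301.EQ
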