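import Pool.Agent.TH301.EQ.PubTame
import Pool.Agent.TH301.EQ.Backward

/-!
One-sided conditions: the theorems in terms of the public definitions.
-/

set_option autoImplicit false
set_option linter.unusedSectionVars false

open MeasureTheory Set Filter Topology
open scoped InnerProductSpace ENNReal ContDiff NNReal

namespace Pool.Agent.TH301.EQ

open H772R2.NS.Pub

theorem rising_congr {T : ℝ} {D D' : ℝ → ℝ} (h : ∀ t ∈ Icc 0 T, D t = D' t) :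
    rising T D = rising T D' := by
  ext t
  constructor
  · rintro ⟨ht, h1⟩
    refine ⟨ht, fun δ hδ => ?_⟩
    obtain ⟨s₁, a1, s₂, a2, a3, a4, a5, a6⟩ := h1 δ hδ
    exact ⟨s₁, a1, s₂, a2, a3, a4, a5, by rwa [← h s₁ a1, ← h s₂ a2]⟩
  · rintro ⟨ht, h1⟩
    refine ⟨ht, fun δ hδ => ?_⟩
    obtain ⟨s₁, a1, s₂, a2, a3, a4, a5, a6⟩ := h1 δ hδ
    exact ⟨s₁, a1, s₂, a2, a3, a4, a5, by rwa [h s₁ a1, h s₂ a2]⟩

theorem falling_congr {T : ℝ} {D D' : ℝ → ℝ} (h : ∀ t ∈ Icc 0 T, D t = D' t) :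
    falling T D = falling T D' := by
  ext t
  constructor
  · rintro ⟨ht, h1⟩
    refine ⟨ht, fun δ hδ => ?_⟩
    obtain ⟨s₁, a1, s₂, a2, a3, a4, a5, a6⟩ := h1 δ hδ
    exact ⟨s₁, a1, s₂, a2, a3, a4, a5, by rwa [← h s₁ a1, ← h s₂ a2]⟩
  · rintro ⟨ht, h1⟩
    refine ⟨ht, fun δ hδ => ?_⟩
    obtain ⟨s₁, a1, s₂, a2, a3, a4, a5, a6⟩ := h1 δ hδ
    exact ⟨s₁, a1, s₂, a2, a3, a4, a5, by rwa [h s₁ a1, h s₂ a2]⟩

variable {Ω : Set R3} {ν T : ℝ} {u : ℝ → L2 Ω R3} {G : ℝ → L2 Ω Mat} {f : ℝ → L2 Ω R3}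

theorem pub_forward_dense (hΩ : IsOpen Ω) (hν : 0 ≤ ν) (hT : 0 < T)
    (hu : IsWeakSolution Ω ν T u G f)
    {θ : ℕ → ℝ → ℝ} (hθ0 : ∀ n t, 0 ≤ θ n t) (hθ : ∀ n, IntegrableOn (θ n) (Ioo 0 T))
    {N : Set ℝ} (hN : N.Countable) (hJ : ∀ t ∈ N, NoJumpRight T u t)
    (hL : ∀ t ∈ rising T (energyDefect ν u G f), NoJumpLeft u t) :
    ∀ t₀ ∈ rising T (energyDefect ν u G f), ∀ δ > 0, ∃ t ∈ rising T (energyDefect ν u G f),
      |t - t₀| < δ ∧ t ∉ N ∧ ∀ n, ¬ TameRight T (fun τ => ‖G τ‖ ^ 2) (θ n) t := by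
  rw [rising_congr fun _ ht => pub_defect_eq hΩ hν hT hu ht] at hL ⊢
  exact forward_dense (Ω := (Ω : Set H772R2.NS.E3)) hΩ hν hT (toNS hu) hθ0
    (fun n => ii_of_on hT (hθ n)) hN hJ hL

theorem pub_backward_dense (hΩ : IsOpen Ω) (hν : 0 ≤ ν) (hT : 0 < T)
    (hu : IsWeakSolution Ω ν T u G f)
    {θ : ℕ → ℝ → ℝ} (hθ0 : ∀ n t, 0 ≤ θ n t) (hθ : ∀ n, IntegrableOn (θ n) (Ioo 0 T))
    {N : Set ℝ} (hN : N.Countable) (hJ : ∀ t ∈ N, NoJumpLeft u t)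
    (hR : ∀ t ∈ falling T (energyDefect ν u G f), NoJumpRight T u t) :
    ∀ t₀ ∈ falling T (energyDefect ν u G f), ∀ δ > 0, ∃ t ∈ falling T (energyDefect ν u G f),
      |t - t₀| < δ ∧ t ∉ N ∧ ∀ n, ¬ TameLeft (fun τ => ‖G τ‖ ^ 2) (θ n) t := by
  rw [falling_congr fun _ ht => pub_defect_eq hΩ hν hT hu ht] at hR ⊢
  exact backward_dense (Ω := (Ω : Set H772R2.NS.E3)) hΩ hν hT (toNS hu) hθ0
    (fun n => ii_of_on hT (hθ n)) hN hJ hR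

theorem pub_forward (hΩ : IsOpen Ω) (hν : 0 ≤ ν) (hT : 0 < T)
    (hu : IsWeakSolution Ω ν T u G f)
    {θ : ℕ → ℝ → ℝ} (hθ0 : ∀ n t, 0 ≤ θ n t) (hθ : ∀ n, IntegrableOn (θ n) (Ioo 0 T))
    {N : Set ℝ} (hN : N.Countable) (hJ : ∀ t ∈ N, NoJumpRight T u t)
    (hL : ∀ t ∈ rising T (energyDefect ν u G f), NoJumpLeft u t)
    (hall : ∀ t ∈ rising T (energyDefect ν u G f), t ∈ N ∨
      ∃ n, TameRight T (fun τ => ‖G τ‖ ^ 2) (θ n) t) :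
    ∀ s t, 0 ≤ s → s ≤ t → t ≤ T → energyDefect ν u G f t ≤ energyDefect ν u G f s := by
  intro s t hs hst ht
  rw [rising_congr fun _ ht => pub_defect_eq hΩ hν hT hu ht] at hL hall
  rw [pub_defect_eq hΩ hν hT hu ⟨hs, hst.trans ht⟩, pub_defect_eq hΩ hν hT hu ⟨hs.trans hst, ht⟩]
  exact forward_anti (Ω := (Ω : Set H772R2.NS.E3)) hΩ hν hT (toNS hu) hθ0
    (fun n => ii_of_on hT (hθ n)) hN hJ hL hall s t hs hst ht

theorem pub_backward (hΩ : IsOpen Ω) (hν : 0 ≤ ν) (hT : 0 < T)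
    (hu : IsWeakSolution Ω ν T u G f)
    {θ : ℕ → ℝ → ℝ} (hθ0 : ∀ n t, 0 ≤ θ n t) (hθ : ∀ n, IntegrableOn (θ n) (Ioo 0 T))
    {N : Set ℝ} (hN : N.Countable) (hJ : ∀ t ∈ N, NoJumpLeft u t)
    (hR : ∀ t ∈ falling T (energyDefect ν u G f), NoJumpRight T u t)
    (hall : ∀ t ∈ falling T (energyDefect ν u G f), t ∈ N ∨
      ∃ n, TameLeft (fun τ => ‖G τ‖ ^ 2) (θ n) t) :
    ∀ s t, 0 ≤ s → s ≤ t → t ≤ T → energyDefect ν u G f s ≤ energyDefect ν u G f t := by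
  intro s t hs hst ht
  rw [falling_congr fun _ ht => pub_defect_eq hΩ hν hT hu ht] at hR hall
  rw [pub_defect_eq hΩ hν hT hu ⟨hs, hst.trans ht⟩, pub_defect_eq hΩ hν hT hu ⟨hs.trans hst, ht⟩]
  exact backward_mono (Ω := (Ω : Set H772R2.NS.E3)) hΩ hν hT (toNS hu) hθ0
    (fun n => ii_of_on hT (hθ n)) hN hJ hR hall s t hs hst ht

theorem pub_defect_zero (ν : ℝ) (u : ℝ → L2 Ω R3) (G : ℝ → L2 Ω Mat) (f : ℝ → L2 Ω R3) :
    energyDefect ν u G f 0 = 0 := by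
  unfold energyDefect
  simp

theorem eq_of_anti (h : ∀ s t, 0 ≤ s → s ≤ t → t ≤ T →
      energyDefect ν u G f t ≤ energyDefect ν u G f s) (hD : 0 ≤ energyDefect ν u G f T) :
    ∀ t ∈ Icc 0 T, energyDefect ν u G f t = 0 := by
  intro t ht
  have h1 := h 0 t le_rfl ht.1 ht.2
  have h2 := h t T ht.1 ht.2 le_rfl
  rw [pub_defect_zero] at h1
  linarith

/-- forward type I -/
theorem pub_forwardI (hΩ : IsOpen Ω) (hν : 0 ≤ ν) (hT : 0 < T)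
    (hu : IsWeakSolution Ω ν T u G f)
    {N : Set ℝ} (hN : N.Countable) (hJ : ∀ t ∈ N, NoJumpRight T u t)
    (hL : ∀ t ∈ Ioc 0 T, NoJumpLeft u t)
    (hall : ∀ t ∈ Ico 0 T, t ∉ N → ∃ C δ : ℝ, 0 < δ ∧ ∀ y, t < y → y ≤ T → y - t ≤ δ →
      ∫ τ in t..y, ‖G τ‖ ^ 2 ≤ C * Real.sqrt (y - t)) :
    ∀ s t, 0 ≤ s → s ≤ t → t ≤ T → energyDefect ν u G f t ≤ energyDefect ν u G f s := by
  refine pub_forward hΩ hν hT hu (θ := fun _ τ => ‖G τ‖ ^ 2) (fun _ _ => by positivity)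
    (fun _ => pub_G2 hu) hN hJ (fun t ht => ?_) fun t ht => ?_
  · rcases eq_or_lt_of_le ht.1.1 with h0 | h0
    · intro ε _ h1
      exact absurd h1 (by rw [← h0]; exact lt_irrefl _)
    · exact hL t ⟨h0, ht.1.2⟩
  · by_cases htN : t ∈ N
    · exact Or.inl htN
    · right
      refine ⟨0, ?_⟩
      rcases eq_or_lt_of_le ht.1.2 with h0 | h0
      · exact tameRight_of_typeI (C := 0) (δ := 1) (fun τ => by positivity)
          (ii_of_on hT (pub_G2 hu)) ht.1 one_pos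
          (fun y h1 h2 _ => absurd (h1.trans_le h2) (by rw [h0]; exact lt_irrefl _))
      · obtain ⟨C, δ, hδ, h⟩ := hall t ⟨ht.1.1, h0⟩ htN
        exact tameRight_of_typeI (fun τ => by positivity) (ii_of_on hT (pub_G2 hu)) ht.1 hδ h

/-- backward type I -/
theorem pub_backwardI (hΩ : IsOpen Ω) (hν : 0 ≤ ν) (hT : 0 < T)
    (hu : IsWeakSolution Ω ν T u G f)
    {N : Set ℝ} (hN : N.Countable) (hJ : ∀ t ∈ N, NoJumpLeft u t)
    (hR : ∀ t ∈ Ico 0 T, NoJumpRight T u t)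
    (hall : ∀ t ∈ Ioc 0 T, t ∉ N → ∃ C δ : ℝ, 0 < δ ∧ ∀ x, 0 ≤ x → x < t → t - x ≤ δ →
      ∫ τ in x..t, ‖G τ‖ ^ 2 ≤ C * Real.sqrt (t - x)) :
    ∀ s t, 0 ≤ s → s ≤ t → t ≤ T → energyDefect ν u G f s ≤ energyDefect ν u G f t := by
  refine pub_backward hΩ hν hT hu (θ := fun _ τ => ‖G τ‖ ^ 2) (fun _ _ => by positivity)
    (fun _ => pub_G2 hu) hN hJ (fun t ht => ?_) fun t ht => ?_
  · rcases eq_or_lt_of_le ht.1.2 with h0 | h0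
    · intro ε _ h1
      exact absurd h1 (by rw [h0]; exact lt_irrefl _)
    · exact hR t ⟨ht.1.1, h0⟩
  · by_cases htN : t ∈ N
    · exact Or.inl htN
    · right
      refine ⟨0, ?_⟩
      rcases eq_or_lt_of_le ht.1.1 with h0 | h0
      · exact tameLeft_of_typeI (C := 0) (δ := 1) (fun τ => by positivity)
          (ii_of_on hT (pub_G2 hu)) ht.1 one_pos
          (fun x h1 h2 _ => absurd (h1.trans_lt h2) (by rw [← h0]; exact lt_irrefl _))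
      · obtain ⟨C, δ, hδ, h⟩ := hall t ⟨h0, ht.1.2⟩ htN
        exact tameLeft_of_typeI (fun τ => by positivity) (ii_of_on hT (pub_G2 hu)) ht.1 hδ h

end Pool.Agent.TH301.EQ
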