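import Pool.Agent.TH301.EQ.TameMain
import Pool.Agent.H772R2.NS.PubBridge

/-!
Tame times: the theorems in terms of the public definitions.
-/

set_option autoImplicit false
set_option linter.unusedSectionVars false

open MeasureTheory Set Filter Topology
open scoped InnerProductSpace ENNReal ContDiff NNReal

namespace Pool.Agent.TH301.EQ

open H772R2.NS.Pub

variable {Ω : Set R3} {ν T : ℝ} {u : ℝ → L2 Ω R3} {G : ℝ → L2 Ω Mat} {f : ℝ → L2 Ω R3}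

theorem ii_of_on {T : ℝ} (hT : 0 < T) {θ : ℝ → ℝ} (h : IntegrableOn θ (Ioo 0 T)) :
    IntervalIntegrable θ volume 0 T := by
  rw [intervalIntegrable_iff_integrableOn_Ioo_of_le hT.le]
  exact h

theorem pub_defect_eq (hΩ : IsOpen Ω) (hν : 0 ≤ ν) (hT : 0 < T)
    (hu : IsWeakSolution Ω ν T u G f) {t : ℝ} (ht : t ∈ Icc 0 T) :
    energyDefect ν u G f t = H772R2.NS.defect (H := H772R2.NS.L2V (Ω : Set H772R2.NS.E3))
      (K := H772R2.NS.L2M (Ω : Set H772R2.NS.E3)) ν u G f t :=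
  H772R2.NS.energyDefect_eq (Ω := (Ω : Set H772R2.NS.E3)) hΩ hν hT (toNS hu) ht

theorem pub_rough (hΩ : IsOpen Ω) (hν : 0 ≤ ν) (hT : 0 < T) (hu : IsWeakSolution Ω ν T u G f) :
    rough T (energyDefect ν u G f)
      = rough T (H772R2.NS.defect (H := H772R2.NS.L2V (Ω : Set H772R2.NS.E3))
      (K := H772R2.NS.L2M (Ω : Set H772R2.NS.E3)) ν u G f) :=
  rough_congr fun _ ht => pub_defect_eq hΩ hν hT hu ht

theorem pub_null (hΩ : IsOpen Ω) (hν : 0 ≤ ν) (hT : 0 < T) (hu : IsWeakSolution Ω ν T u G f)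
    {θ : ℕ → ℝ → ℝ} (hθ0 : ∀ n t, 0 ≤ θ n t) (hθ : ∀ n, IntegrableOn (θ n) (Ioo 0 T)) :
    volume (energyDefect ν u G f '' {t | t ∈ Icc 0 T ∧ (u t ∈ H10sigma Ω ∨
      ∃ n, TameAt T (fun τ => ‖G τ‖ ^ 2) (θ n) t)}) = 0 := by
  have key := tame_null (Ω := (Ω : Set H772R2.NS.E3)) hΩ hν hT (toNS hu) hθ0
    (fun n => ii_of_on hT (hθ n))
  refine measure_mono_null ?_ key
  rintro _ ⟨t, ⟨ht, h1⟩, rfl⟩
  refine ⟨t, ⟨ht, ?_⟩, (pub_defect_eq hΩ hν hT hu ht).symm⟩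
  rcases h1 with ⟨z, hz⟩ | h1
  · left
    exact ⟨z, (H772R2.NS.mem_graphW).mp (mem_pub.mpr hz)⟩
  · exact Or.inr h1

theorem pub_dense (hΩ : IsOpen Ω) (hν : 0 ≤ ν) (hT : 0 < T) (hu : IsWeakSolution Ω ν T u G f)
    {θ : ℕ → ℝ → ℝ} (hθ0 : ∀ n t, 0 ≤ θ n t) (hθ : ∀ n, IntegrableOn (θ n) (Ioo 0 T))
    {N : Set ℝ} (hN : N.Countable) (hJ : ∀ t ∈ N, NoJump T u t) :
    ∀ t₀ ∈ rough T (energyDefect ν u G f), ∀ δ > 0, ∃ t ∈ rough T (energyDefect ν u G f),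
      |t - t₀| < δ ∧ t ∉ N ∧ ∀ n, ¬ TameAt T (fun τ => ‖G τ‖ ^ 2) (θ n) t := by
  rw [pub_rough hΩ hν hT hu]
  exact tame_dense (Ω := (Ω : Set H772R2.NS.E3)) hΩ hν hT (toNS hu) hθ0
    (fun n => ii_of_on hT (hθ n)) hN hJ

theorem pub_tame_eq (hΩ : IsOpen Ω) (hν : 0 ≤ ν) (hT : 0 < T) (hu : IsWeakSolution Ω ν T u G f)
    {θ : ℕ → ℝ → ℝ} (hθ0 : ∀ n t, 0 ≤ θ n t) (hθ : ∀ n, IntegrableOn (θ n) (Ioo 0 T))
    {N : Set ℝ} (hN : N.Countable) (hJ : ∀ t ∈ N, NoJump T u t)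
    (hall : ∀ t ∈ rough T (energyDefect ν u G f), t ∈ N ∨
      ∃ n, TameAt T (fun τ => ‖G τ‖ ^ 2) (θ n) t) :
    ∀ t ∈ Icc 0 T, energyDefect ν u G f t = 0 := by
  intro t ht
  rw [pub_defect_eq hΩ hν hT hu ht]
  rw [pub_rough hΩ hν hT hu] at hall
  exact tame_eq (Ω := (Ω : Set H772R2.NS.E3)) hΩ hν hT (toNS hu) hθ0
    (fun n => ii_of_on hT (hθ n)) hN hJ hall t ht

theorem pub_G2 (hu : IsWeakSolution Ω ν T u G f) :
    IntegrableOn (fun τ => ‖G τ‖ ^ 2) (Ioo 0 T) :=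
  (memLp_two_iff_integrable_sq_norm hu.gradL2.aestronglyMeasurable).mp hu.gradL2

theorem pub_typeI (hΩ : IsOpen Ω) (hν : 0 ≤ ν) (hT : 0 < T) (hu : IsWeakSolution Ω ν T u G f)
    {N : Set ℝ} (hN : N.Countable) (hJ : ∀ t ∈ N, NoJump T u t)
    (hall : ∀ t ∈ Icc 0 T, t ∉ N → ∃ C δ : ℝ, 0 < δ ∧ ∀ x y, 0 ≤ x → x ≤ t → t ≤ y → y ≤ T →
      y - x ≤ δ → ∫ τ in x..y, ‖G τ‖ ^ 2 ≤ C * Real.sqrt (y - x)) :
    ∀ t ∈ Icc 0 T, energyDefect ν u G f t = 0 := by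
  refine pub_tame_eq hΩ hν hT hu (θ := fun _ τ => ‖G τ‖ ^ 2) (fun _ _ => by positivity)
    (fun _ => pub_G2 hu) hN hJ fun t ht => ?_
  by_cases htN : t ∈ N
  · exact Or.inl htN
  · obtain ⟨C, δ, hδ, h⟩ := hall t ht.1 htN
    exact Or.inr ⟨0, tameAt_of_typeI (fun τ => by positivity) (ii_of_on hT (pub_G2 hu)) ht.1 hδ h⟩

end Pool.Agent.TH301.EQ
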