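import Pool.Agent.TH301.EQ.Max
import Pool.Agent.TH301.EQ.Chain
import Pool.Agent.TH301.EQ.Portion
import Pool.Agent.TH301.EQ.NullImage

/-!
Tame times of a weak solution.
-/

set_option autoImplicit false
set_option linter.unusedSectionVars false

open MeasureTheory Set Filter Topology
open scoped InnerProductSpace ENNReal ContDiff NNReal

namespace Pool.Agent.TH301.EQ

open H772R2.NS Pool.Agent.TH340.FF

/-- the times `t` of `[0,T]` such that `(∫_J g)^5 ≤ |J| (∫_J θ)^3` for all intervals `J ⊆ [0,T]`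
with `t ∈ 3J` -/
def tame (T : ℝ) (g θ : ℝ → ℝ) : Set ℝ :=
  {t | t ∈ Icc 0 T ∧ ∀ x y, 0 ≤ x → x < y → y ≤ T → 2 * x - y < t → t < 2 * y - x →
    (∫ τ in x..y, g τ) ^ 5 ≤ (y - x) * (∫ τ in x..y, θ τ) ^ 3}

theorem tame_closed (T : ℝ) (g θ : ℝ → ℝ) : IsClosed (tame T g θ) := by
  refine isClosed_of_closure_subset fun t ht => ?_
  refine ⟨?_, fun x y hx hxy hy h1 h2 => ?_⟩
  · have h1 : t ∈ closure (Icc 0 T) := closure_mono (fun s hs => hs.1) ht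
    rwa [isClosed_Icc.closure_eq] at h1
  · rw [mem_closure_iff] at ht
    obtain ⟨b, hb1, hb2⟩ := ht (Ioo (2 * x - y) (2 * y - x)) isOpen_Ioo ⟨h1, h2⟩
    exact hb2.2 x y hx hxy hy hb1.1 hb1.2

/-- The pointwise condition: `(∫_J g)^5 ≤ C |J| (∫_J θ)^3` for all short intervals `J` with
`t ∈ 3J`. -/
def TameAt (T : ℝ) (g θ : ℝ → ℝ) (t : ℝ) : Prop :=
  ∃ C δ : ℝ, 0 < δ ∧ ∀ x y, 0 ≤ x → x < y → y ≤ T → y - x ≤ δ → 2 * x - y < t → t < 2 * y - x →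
    (∫ τ in x..y, g τ) ^ 5 ≤ C * (y - x) * (∫ τ in x..y, θ τ) ^ 3

theorem tame_of_tameAt {T : ℝ} {g θ : ℝ → ℝ} (hg0 : ∀ t, 0 ≤ g t)
    (hgi : IntervalIntegrable g volume 0 T) (hθ0 : ∀ t, 0 ≤ θ t)
    (hθi : IntervalIntegrable θ volume 0 T) {t : ℝ} (ht : t ∈ Icc 0 T)
    (h : TameAt T g θ t) : ∃ m : ℕ, t ∈ tame T g (fun τ => m * (θ τ + 1)) := by
  obtain ⟨C, δ, hδ, h⟩ := h
  set IT := ∫ τ in (0 : ℝ)..T, g τ with hIT
  obtain ⟨m, hm⟩ := exists_nat_ge (max 1 (max C (IT ^ 5 / δ ^ 4)))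
  have m1 : (1 : ℝ) ≤ m := (le_max_left _ _).trans hm
  have m2 : C ≤ m := ((le_max_left _ _).trans (le_max_right _ _)).trans hm
  have m3 : IT ^ 5 / δ ^ 4 ≤ m := ((le_max_right _ _).trans (le_max_right _ _)).trans hm
  have m4 : (m : ℝ) ≤ (m : ℝ) ^ 3 := by
    have : (1 : ℝ) ≤ (m : ℝ) ^ 2 := one_le_pow₀ m1
    nlinarith
  have m0 : (0 : ℝ) ≤ m := by linarith
  refine ⟨m, ht, fun x y hx hxy hy h1 h2 => ?_⟩
  have hyx : 0 < y - x := by linarith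
  have hθxy := sub_int hθi hx hxy.le hy
  have e1 : ∫ τ in x..y, (m : ℝ) * (θ τ + 1) = m * ((∫ τ in x..y, θ τ) + (y - x)) := by
    rw [intervalIntegral.integral_const_mul, intervalIntegral.integral_add hθxy
      intervalIntegrable_const, intervalIntegral.integral_const, smul_eq_mul, mul_one]
  rw [e1]
  set Θ := ∫ τ in x..y, θ τ with hΘ
  have hΘ0 : 0 ≤ Θ := intervalIntegral.integral_nonneg hxy.le fun τ _ => hθ0 τ
  rcases le_total (y - x) δ with h3 | h3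
  · refine (h x y hx hxy hy h3 h1 h2).trans ?_
    have a1 : C * (y - x) * Θ ^ 3 ≤ m ^ 3 * (y - x) * Θ ^ 3 :=
      mul_le_mul_of_nonneg_right (mul_le_mul_of_nonneg_right (m2.trans m4) hyx.le) (by positivity)
    have a2 : Θ ^ 3 ≤ (Θ + (y - x)) ^ 3 := pow_le_pow_left₀ hΘ0 (by linarith) 3
    have a3 : m ^ 3 * (y - x) * Θ ^ 3 ≤ m ^ 3 * (y - x) * (Θ + (y - x)) ^ 3 :=
      mul_le_mul_of_nonneg_left a2 (by positivity)
    calc _ ≤ _ := a1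
      _ ≤ _ := a3
      _ = _ := by ring
  · have b0 : 0 ≤ ∫ τ in x..y, g τ := intervalIntegral.integral_nonneg hxy.le fun τ _ => hg0 τ
    have b1 : ∫ τ in x..y, g τ ≤ IT := int_mono_set hgi hg0 le_rfl hx hxy.le hy le_rfl
    have b2 := pow_le_pow_left₀ b0 b1 5
    have b3 : IT ^ 5 ≤ m ^ 3 * δ ^ 4 := by
      rw [div_le_iff₀ (by positivity)] at m3
      exact m3.trans (mul_le_mul_of_nonneg_right m4 (by positivity))
    have b4 : (m : ℝ) * δ ≤ m * (Θ + (y - x)) := mul_le_mul_of_nonneg_left (by linarith) m0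
    have b5 := pow_le_pow_left₀ (by positivity) b4 3
    calc (∫ τ in x..y, g τ) ^ 5 ≤ m ^ 3 * δ ^ 4 := b2.trans b3
      _ = δ * (m * δ) ^ 3 := by ring
      _ ≤ (y - x) * (m * (Θ + (y - x))) ^ 3 := by gcongr

/-- type I implies tame, for the weight `g` -/
theorem tameAt_of_typeI {T : ℝ} {g : ℝ → ℝ} (hg0 : ∀ t, 0 ≤ g t)
    (hgi : IntervalIntegrable g volume 0 T) {t C δ : ℝ} (ht : t ∈ Icc 0 T) (hδ : 0 < δ)
    (h : ∀ x y, 0 ≤ x → x ≤ t → t ≤ y → y ≤ T → y - x ≤ δ →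
      ∫ τ in x..y, g τ ≤ C * Real.sqrt (y - x)) : TameAt T g g t := by
  refine ⟨2 * C ^ 2, δ / 2, by positivity, fun x y hx hxy hy h0 h1 h2 => ?_⟩
  have k1 := h (min x t) (max y t) (le_min hx ht.1) (min_le_right _ _) (le_max_right _ _)
    (max_le hy ht.2)
  have hyx : 0 < y - x := by linarith
  have k2 : max y t - min x t ≤ 2 * (y - x) := by
    rcases le_total y t with a | a
    · rw [max_eq_right a, min_eq_left (hxy.le.trans a)]; linarith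
    · rw [max_eq_left a]
      rcases le_total x t with b | b
      · rw [min_eq_left b]; linarith
      · rw [min_eq_right b]; linarith
  have k0 : 0 ≤ max y t - min x t := by
    have := le_max_left y t
    have := min_le_left x t
    linarith
  have k3 := k1 (by linarith)
  have k4 : ∫ τ in x..y, g τ ≤ ∫ τ in (min x t)..(max y t), g τ :=
    int_mono_set hgi hg0 (le_min hx ht.1) (min_le_left _ _) hxy.le (le_max_left _ _)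
      (max_le hy ht.2)
  have b0 : 0 ≤ ∫ τ in x..y, g τ := intervalIntegral.integral_nonneg hxy.le fun τ _ => hg0 τ
  have k5 := pow_le_pow_left₀ b0 (k4.trans k3) 2
  rw [mul_pow, Real.sq_sqrt k0] at k5
  have k6 : C ^ 2 * (max y t - min x t) ≤ C ^ 2 * (2 * (y - x)) :=
    mul_le_mul_of_nonneg_left k2 (by positivity)
  calc (∫ τ in x..y, g τ) ^ 5 = (∫ τ in x..y, g τ) ^ 2 * (∫ τ in x..y, g τ) ^ 3 := by ring
    _ ≤ (C ^ 2 * (2 * (y - x))) * (∫ τ in x..y, g τ) ^ 3 :=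
      mul_le_mul_of_nonneg_right (k5.trans k6) (by positivity)
    _ = _ := by ring

variable {Ω : Set E3}

theorem loopI (hΩ : IsOpen Ω) {ν T M : ℝ} (hν : 0 ≤ ν) (hT : 0 < T)
    {u : ℝ → L2V Ω} {G : ℝ → L2M Ω} {f : ℝ → L2V Ω} (h : IsWeakSolution Ω ν T u G f)
    (hM : ∀ t ∈ Icc 0 T, ‖u t‖ ≤ M) {x y μ : ℝ} (hx : 0 ≤ x) (hxy : x < y) (hy : y ≤ T)
    (hμ0 : 0 ≤ μ) (hμ : (∫ τ in x..y, ‖G τ‖ ^ 2) ^ 2 ≤ μ ^ 3 * (y - x)) :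
    ∀ᵐ r : ℝ, r ∈ Ioc x y → ∀ s ∈ Icc x y, |⟪u r - u s, u r⟫_ℝ|
      ≤ 2 * ((C2 * μ + ν / 2) * ((∫ τ in x..y, ‖G τ‖ ^ 2) + (y - x) * ‖G r‖ ^ 2)
        + M * ∫ τ in x..y, ‖f τ‖) := by
  have hM0 : 0 ≤ M := (norm_nonneg _).trans (hM 0 ⟨le_rfl, hT.le⟩)
  have hC2 := C2_nonneg
  have hI0 : 0 ≤ ∫ τ in x..y, ‖G τ‖ ^ 2 :=
    intervalIntegral.integral_nonneg hxy.le fun τ _ => by positivity
  have hF0 : 0 ≤ ∫ τ in x..y, ‖f τ‖ :=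
    intervalIntegral.integral_nonneg hxy.le fun τ _ => norm_nonneg _
  have hℓ : 0 ≤ y - x := by linarith
  rcases eq_or_lt_of_le hI0 with h0 | h0
  · filter_upwards [loop0 hΩ hν hT h hM hx hxy hy h0.symm] with r hr hrI s hs
    refine (hr hrI s hs).trans ?_
    have e1 : 0 ≤ (C2 * μ + ν / 2) * ((∫ τ in x..y, ‖G τ‖ ^ 2) + (y - x) * ‖G r‖ ^ 2) := by
      positivity
    have e2 : 0 ≤ M * ∫ τ in x..y, ‖f τ‖ := by positivity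
    linarith
  · exact loop hΩ hν hT h hM hx hxy hy rfl h0 hμ0 hμ

/-- the weight -/
noncomputable def wt1 (ν M : ℝ) (G : ℝ → L2M Ω) (f : ℝ → L2V Ω) (θ : ℝ → ℝ) (τ : ℝ) : ℝ :=
  2 * C2 * θ τ + ν * ‖G τ‖ ^ 2 + 2 * M * ‖f τ‖

section

variable {ν T M : ℝ} {u : ℝ → L2V Ω} {G : ℝ → L2M Ω} {f : ℝ → L2V Ω} {θ : ℝ → ℝ}

theorem G2_ii (hΩ : IsOpen Ω) (hν : 0 ≤ ν) (hT : 0 < T) (h : IsWeakSolution Ω ν T u G f)
    (hM : ∀ t ∈ Icc 0 T, ‖u t‖ ≤ M) : IntervalIntegrable (fun t => ‖G t‖ ^ 2) volume 0 T := by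
  have S := h.toSol hΩ hν hT hM
  rw [intervalIntegrable_iff_integrableOn_Ioc_of_le hT.le]
  exact S.G2

theorem f_ii (hΩ : IsOpen Ω) (hν : 0 ≤ ν) (hT : 0 < T) (h : IsWeakSolution Ω ν T u G f)
    (hM : ∀ t ∈ Icc 0 T, ‖u t‖ ≤ M) : IntervalIntegrable (fun t => ‖f t‖) volume 0 T := by
  have S := h.toSol hΩ hν hT hM
  rw [intervalIntegrable_iff_integrableOn_Ioc_of_le hT.le]
  exact S.fint.norm

theorem wt1_nonneg (hν : 0 ≤ ν) (hT : 0 < T) (hM : ∀ t ∈ Icc 0 T, ‖u t‖ ≤ M)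
    (hθ0 : ∀ t, 0 ≤ θ t) (τ : ℝ) : 0 ≤ wt1 ν M G f θ τ := by
  have hM0 : 0 ≤ M := (norm_nonneg _).trans (hM 0 ⟨le_rfl, hT.le⟩)
  have hC2 := C2_nonneg
  have := hθ0 τ
  unfold wt1
  positivity

theorem wt1_ii (hΩ : IsOpen Ω) (hν : 0 ≤ ν) (hT : 0 < T) (h : IsWeakSolution Ω ν T u G f)
    (hM : ∀ t ∈ Icc 0 T, ‖u t‖ ≤ M) (hθ : IntervalIntegrable θ volume 0 T) :
    IntervalIntegrable (wt1 ν M G f θ) volume 0 T :=
  ((hθ.const_mul _).add ((G2_ii hΩ hν hT h hM).const_mul _)).add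
    ((f_ii hΩ hν hT h hM).const_mul (2 * M))

theorem loc_of_ineq (hΩ : IsOpen Ω) (hν : 0 ≤ ν) (hT : 0 < T) (h : IsWeakSolution Ω ν T u G f)
    (hM : ∀ t ∈ Icc 0 T, ‖u t‖ ≤ M) (hθ0 : ∀ t, 0 ≤ θ t)
    (hθ : IntervalIntegrable θ volume 0 T)
    {x y : ℝ} (hx : 0 ≤ x) (hxy : x < y) (hy : y ≤ T)
    (k1 : (∫ τ in x..y, ‖G τ‖ ^ 2) ^ 5 ≤ (y - x) * (∫ τ in x..y, θ τ) ^ 3) :
    Loc (fun r q => ⟪u r - u q, u r⟫_ℝ) (fun τ => ‖G τ‖ ^ 2) (wt1 ν M G f θ) x y := by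
  have hM0 : 0 ≤ M := (norm_nonneg _).trans (hM 0 ⟨le_rfl, hT.le⟩)
  have hC2 := C2_nonneg
  have hGi := G2_ii hΩ hν hT h hM
  have hfi := f_ii hΩ hν hT h hM
  have hyx : 0 < y - x := by linarith
  have e1 : ∫ τ in x..y, wt1 ν M G f θ τ = 2 * C2 * (∫ τ in x..y, θ τ)
      + ν * (∫ τ in x..y, ‖G τ‖ ^ 2) + 2 * M * ∫ τ in x..y, ‖f τ‖ := by
    simp only [wt1]
    rw [intervalIntegral.integral_add (((sub_int hθ hx hxy.le hy).const_mul _).add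
      ((sub_int hGi hx hxy.le hy).const_mul _)) ((sub_int hfi hx hxy.le hy).const_mul (2 * M)),
      intervalIntegral.integral_add ((sub_int hθ hx hxy.le hy).const_mul _)
      ((sub_int hGi hx hxy.le hy).const_mul _),
      intervalIntegral.integral_const_mul, intervalIntegral.integral_const_mul,
      intervalIntegral.integral_const_mul]
  have hI0 : 0 ≤ ∫ τ in x..y, ‖G τ‖ ^ 2 :=
    intervalIntegral.integral_nonneg hxy.le fun τ _ => by positivity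
  have hF0 : 0 ≤ ∫ τ in x..y, ‖f τ‖ :=
    intervalIntegral.integral_nonneg hxy.le fun τ _ => norm_nonneg _
  have hΘ0 : 0 ≤ ∫ τ in x..y, θ τ := intervalIntegral.integral_nonneg hxy.le fun τ _ => hθ0 τ
  set I := ∫ τ in x..y, ‖G τ‖ ^ 2 with hI
  set Θ := ∫ τ in x..y, θ τ with hΘ
  set F := ∫ τ in x..y, ‖f τ‖ with hF
  set μ : ℝ := (I ^ 2 / (y - x)) ^ (1 / 3 : ℝ) with hμ
  have hμ0 : 0 ≤ μ := by positivity
  have hμ3 : μ ^ 3 * (y - x) = I ^ 2 := by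
    rw [hμ, ← Real.rpow_natCast, ← Real.rpow_mul (by positivity)]
    norm_num
    field_simp
  have k2 : μ * I ≤ Θ := by
    refine le_of_pow_le_pow_left₀ (n := 3) (by norm_num) hΘ0 ?_
    refine le_of_mul_le_mul_left ?_ hyx
    calc (y - x) * (μ * I) ^ 3 = (μ ^ 3 * (y - x)) * I ^ 3 := by ring
      _ = I ^ 5 := by rw [hμ3]; ring
      _ ≤ _ := k1
  refine ⟨2 * (C2 * μ + ν / 2), by positivity, ?_, ?_⟩
  · rw [e1]
    have a1 : 2 * C2 * (μ * I) ≤ 2 * C2 * Θ := mul_le_mul_of_nonneg_left k2 (by positivity)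
    have a2 : 0 ≤ 2 * M * F := by positivity
    linarith
  · filter_upwards [loopI hΩ hν hT h hM hx hxy hy hμ0 hμ3.ge] with r hr hrI q hq
    refine (hr (Ioo_subset_Ioc_self hrI) q hq).trans ?_
    rw [e1]
    have a1 : 0 ≤ 2 * C2 * Θ := by positivity
    have a2 : 0 ≤ ν * I := by positivity
    linarith

theorem loc_tame (hΩ : IsOpen Ω) (hν : 0 ≤ ν) (hT : 0 < T) (h : IsWeakSolution Ω ν T u G f)
    (hM : ∀ t ∈ Icc 0 T, ‖u t‖ ≤ M) (hθ0 : ∀ t, 0 ≤ θ t)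
    (hθ : IntervalIntegrable θ volume 0 T) {t : ℝ} (ht : t ∈ tame T (fun τ => ‖G τ‖ ^ 2) θ)
    {x y : ℝ} (hx : 0 ≤ x) (hxy : x < y) (hy : y ≤ T) (h1 : 2 * x - y < t) (h2 : t < 2 * y - x) :
    Loc (fun r q => ⟪u r - u q, u r⟫_ℝ) (fun τ => ‖G τ‖ ^ 2) (wt1 ν M G f θ) x y :=
  loc_of_ineq hΩ hν hT h hM hθ0 hθ hx hxy hy (ht.2 x y hx hxy hy h1 h2)

theorem ec_norm (u : ℝ → L2V Ω) (r q : ℝ) : ‖u r‖ ^ 2 / 2 - ‖u q‖ ^ 2 / 2
    = (⟪u r - u q, u r⟫_ℝ - ⟪u q - u r, u q⟫_ℝ) / 2 := by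
  rw [inner_sub_left, inner_sub_left, real_inner_self_eq_norm_sq,
    real_inner_self_eq_norm_sq, real_inner_comm (u r) (u q)]
  ring

theorem lim_norm (h : IsWeakSolution Ω ν T u G f) {s : ℝ} (hs : s ∈ Icc 0 T) :
    Tendsto (fun q => ⟪u s - u q, u s⟫_ℝ) (𝓝[Icc 0 T] s) (𝓝 0) := by
  have h1 := (h.wcont (u s)) s hs
  have h2 := (h1.tendsto.const_sub (⟪u s, u s⟫_ℝ))
  rw [sub_self] at h2
  refine h2.congr fun q => ?_
  rw [inner_sub_left]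

theorem chR_tame (hΩ : IsOpen Ω) (hν : 0 ≤ ν) (hT : 0 < T) (h : IsWeakSolution Ω ν T u G f)
    (hM : ∀ t ∈ Icc 0 T, ‖u t‖ ≤ M) (hθ0 : ∀ t, 0 ≤ θ t)
    (hθ : IntervalIntegrable θ volume 0 T) {t : ℝ} (ht : t ∈ tame T (fun τ => ‖G τ‖ ^ 2) θ) :
    ChR T (fun t => ‖u t‖ ^ 2 / 2) (fun r q => ⟪u r - u q, u r⟫_ℝ) (fun τ => ‖G τ‖ ^ 2)
      (wt1 ν M G f θ) t where
  ec := ec_norm u
  γ0 := fun τ => by positivity
  γi := G2_ii hΩ hν hT h hM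
  ψ0 := wt1_nonneg hν hT hM hθ0
  ψi := wt1_ii hΩ hν hT h hM hθ
  lim := lim_norm h ht.1
  loc := fun _ _ h1 h2 h3 h4 => loc_tame hΩ hν hT h hM hθ0 hθ ht (ht.1.1.trans h1) h2 h3
    (by linarith) (by linarith)

theorem chL_tame (hΩ : IsOpen Ω) (hν : 0 ≤ ν) (hT : 0 < T) (h : IsWeakSolution Ω ν T u G f)
    (hM : ∀ t ∈ Icc 0 T, ‖u t‖ ≤ M) (hθ0 : ∀ t, 0 ≤ θ t)
    (hθ : IntervalIntegrable θ volume 0 T) {t : ℝ} (ht : t ∈ tame T (fun τ => ‖G τ‖ ^ 2) θ) :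
    ChL T (fun t => ‖u t‖ ^ 2 / 2) (fun r q => ⟪u r - u q, u r⟫_ℝ) (fun τ => ‖G τ‖ ^ 2)
      (wt1 ν M G f θ) t where
  ec := ec_norm u
  γ0 := fun τ => by positivity
  γi := G2_ii hΩ hν hT h hM
  ψ0 := wt1_nonneg hν hT hM hθ0
  ψi := wt1_ii hΩ hν hT h hM hθ
  lim := lim_norm h ht.1
  loc := fun _ _ h1 h2 h3 h4 => loc_tame hΩ hν hT h hM hθ0 hθ ht h1 h2 (h3.trans ht.1.2)
    (by linarith) (by linarith)

/-- the weight of the defect -/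
noncomputable def wt2 (ν M : ℝ) (u : ℝ → L2V Ω) (G : ℝ → L2M Ω) (f : ℝ → L2V Ω) (θ : ℝ → ℝ)
    (τ : ℝ) : ℝ :=
  |pow ν u G f τ| + 20 * wt1 ν M G f θ τ

theorem wt2_nonneg (hν : 0 ≤ ν) (hT : 0 < T) (hM : ∀ t ∈ Icc 0 T, ‖u t‖ ≤ M)
    (hθ0 : ∀ t, 0 ≤ θ t) (τ : ℝ) : 0 ≤ wt2 ν M u G f θ τ :=
  add_nonneg (abs_nonneg _) (mul_nonneg (by norm_num) (wt1_nonneg hν hT hM hθ0 τ))

theorem pow_ii (hΩ : IsOpen Ω) (hν : 0 ≤ ν) (hT : 0 < T) (h : IsWeakSolution Ω ν T u G f)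
    (hM : ∀ t ∈ Icc 0 T, ‖u t‖ ≤ M) : IntervalIntegrable (pow ν u G f) volume 0 T := by
  have S := h.toSol hΩ hν hT hM
  rw [intervalIntegrable_iff_integrableOn_Ioc_of_le hT.le]
  exact S.pow_int

theorem wt2_ii (hΩ : IsOpen Ω) (hν : 0 ≤ ν) (hT : 0 < T) (h : IsWeakSolution Ω ν T u G f)
    (hM : ∀ t ∈ Icc 0 T, ‖u t‖ ≤ M) (hθ : IntervalIntegrable θ volume 0 T) :
    IntervalIntegrable (wt2 ν M u G f θ) volume 0 T :=
  (pow_ii hΩ hν hT h hM).abs.add ((wt1_ii hΩ hν hT h hM hθ).const_mul 20)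

theorem wt2_eq (hΩ : IsOpen Ω) (hν : 0 ≤ ν) (hT : 0 < T) (h : IsWeakSolution Ω ν T u G f)
    (hM : ∀ t ∈ Icc 0 T, ‖u t‖ ≤ M) (hθ : IntervalIntegrable θ volume 0 T) {s t : ℝ}
    (h0 : 0 ≤ s) (hst : s ≤ t) (htT : t ≤ T) :
    ∫ τ in s..t, wt2 ν M u G f θ τ = (∫ τ in s..t, |pow ν u G f τ|)
      + 20 * ∫ τ in s..t, wt1 ν M G f θ τ := by
  unfold wt2
  rw [intervalIntegral.integral_add (sub_int (pow_ii hΩ hν hT h hM).abs h0 hst htT)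
    ((sub_int (wt1_ii hΩ hν hT h hM hθ) h0 hst htT).const_mul 20),
    intervalIntegral.integral_const_mul]

/-- the increments of the defect -/
theorem defect_inc (hΩ : IsOpen Ω) (hν : 0 ≤ ν) (hT : 0 < T) (h : IsWeakSolution Ω ν T u G f)
    (hM : ∀ t ∈ Icc 0 T, ‖u t‖ ≤ M) {s t e : ℝ} (h0 : 0 ≤ s) (hst : s ≤ t) (htT : t ≤ T)
    (he : |‖u t‖ ^ 2 / 2 - ‖u s‖ ^ 2 / 2| ≤ e) :
    |defect ν u G f t - defect ν u G f s| ≤ (∫ τ in s..t, |pow ν u G f τ|) + e := by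
  have S := h.toSol hΩ hν hT hM
  rw [S.defect_sub h0 hst htT]
  have h1 : |∫ τ in s..t, pow ν u G f τ| ≤ ∫ τ in s..t, |pow ν u G f τ| :=
    intervalIntegral.abs_integral_le_integral_abs hst
  have h2 := abs_sub (∫ τ in s..t, pow ν u G f τ) ((‖u t‖ ^ 2 - ‖u s‖ ^ 2) / 2)
  have h3 : (‖u t‖ ^ 2 - ‖u s‖ ^ 2) / 2 = ‖u t‖ ^ 2 / 2 - ‖u s‖ ^ 2 / 2 := by ring
  rw [h3] at h2
  rw [h3]
  linarith

theorem defect_bound (hΩ : IsOpen Ω) (hν : 0 ≤ ν) (hT : 0 < T) (h : IsWeakSolution Ω ν T u G f)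
    (hM : ∀ t ∈ Icc 0 T, ‖u t‖ ≤ M) (hθ0 : ∀ t, 0 ≤ θ t)
    (hθ : IntervalIntegrable θ volume 0 T) {s t : ℝ} (hs : s ∈ tame T (fun τ => ‖G τ‖ ^ 2) θ)
    (ht : t ∈ tame T (fun τ => ‖G τ‖ ^ 2) θ) (h0 : 0 ≤ s) (hst : s ≤ t) (htT : t ≤ T) :
    |defect ν u G f t - defect ν u G f s| ≤ ∫ τ in s..t, wt2 ν M u G f θ τ := by
  have h1 := ch_bound (chR_tame hΩ hν hT h hM hθ0 hθ hs)
    (chL_tame hΩ hν hT h hM hθ0 hθ ht) h0 hst htT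
  have h2 := defect_inc hΩ hν hT h hM h0 hst htT h1
  rw [wt2_eq hΩ hν hT h hM hθ h0 hst htT]
  exact h2

/-- primitives are continuous -/
theorem small_prim {T : ℝ} {θ : ℝ → ℝ} (hθ : IntervalIntegrable θ volume 0 T) (hT : 0 ≤ T)
    {t : ℝ} (ht : t ∈ Icc 0 T) {ε : ℝ} (hε : 0 < ε) :
    ∃ δ > 0, ∀ x ∈ Icc 0 T, |x - t| < δ → |∫ τ in t..x, θ τ| < ε := by
  have hc : ContinuousOn (fun x => ∫ τ in t..x, θ τ) (uIcc 0 T) :=
    intervalIntegral.continuousOn_primitive_interval' hθ (by rwa [uIcc_of_le hT])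
  rw [uIcc_of_le hT, Metric.continuousOn_iff] at hc
  obtain ⟨δ, hδ, h1⟩ := hc t ht ε hε
  refine ⟨δ, hδ, fun x hx hxt => ?_⟩
  have h2 := h1 x hx (by rwa [Real.dist_eq])
  rw [Real.dist_eq, intervalIntegral.integral_same, sub_zero] at h2
  exact h2

theorem right_of_ch (hΩ : IsOpen Ω) (hν : 0 ≤ ν) (hT : 0 < T) (h : IsWeakSolution Ω ν T u G f)
    (hM : ∀ t ∈ Icc 0 T, ‖u t‖ ≤ M) (hθ0 : ∀ t, 0 ≤ θ t)
    (hθ : IntervalIntegrable θ volume 0 T) {t : ℝ} (ht : t ∈ Icc 0 T)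
    (H : ChR T (fun t => ‖u t‖ ^ 2 / 2) (fun r q => ⟪u r - u q, u r⟫_ℝ) (fun τ => ‖G τ‖ ^ 2)
      (wt1 ν M G f θ) t) : RightOK T (defect ν u G f) t := by
  intro ε hε htT
  obtain ⟨δ, hδ, h1⟩ := small_prim (wt2_ii hΩ hν hT h hM hθ) hT.le ht hε
  set x := min T (t + min δ ε / 2) with hx
  have hm : 0 < min δ ε := lt_min hδ hε
  have htx : t < x := lt_min htT (by linarith)
  have hxT : x ≤ T := min_le_left _ _
  have hxm : x ≤ t + min δ ε / 2 := min_le_right _ _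
  have hmδ : min δ ε ≤ δ := min_le_left _ _
  have hmε : min δ ε ≤ ε := min_le_right _ _
  obtain ⟨σ, a1, a3, a4⟩ := H.right ht.1 htx hxT
  have htσ : t < σ := by linarith [a1.1]
  have hσT : σ ≤ T := a1.2.le.trans hxT
  refine ⟨σ, ⟨htσ, by linarith [a1.2]⟩, hσT, ?_⟩
  have b1 := defect_inc hΩ hν hT h hM ht.1 htσ.le hσT a4
  refine b1.trans_lt ?_
  have b2 := h1 x ⟨ht.1.trans htx.le, hxT⟩ (by rw [abs_of_pos (by linarith)]; linarith)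
  have b3 : ∫ τ in t..σ, |pow ν u G f τ| ≤ ∫ τ in t..x, |pow ν u G f τ| :=
    int_mono_set (pow_ii hΩ hν hT h hM).abs (fun τ => abs_nonneg _) ht.1 le_rfl htσ.le a1.2.le
      hxT
  have b5 : 0 ≤ ∫ τ in t..x, wt1 ν M G f θ τ :=
    intervalIntegral.integral_nonneg htx.le fun τ _ => wt1_nonneg hν hT hM hθ0 τ
  rw [wt2_eq hΩ hν hT h hM hθ ht.1 htx.le hxT] at b2
  have b6 := (le_abs_self _).trans_lt b2
  linarith

theorem right_tame (hΩ : IsOpen Ω) (hν : 0 ≤ ν) (hT : 0 < T) (h : IsWeakSolution Ω ν T u G f)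
    (hM : ∀ t ∈ Icc 0 T, ‖u t‖ ≤ M) (hθ0 : ∀ t, 0 ≤ θ t)
    (hθ : IntervalIntegrable θ volume 0 T) {t : ℝ} (ht : t ∈ tame T (fun τ => ‖G τ‖ ^ 2) θ) :
    RightOK T (defect ν u G f) t :=
  right_of_ch hΩ hν hT h hM hθ0 hθ ht.1 (chR_tame hΩ hν hT h hM hθ0 hθ ht)

theorem left_of_ch (hΩ : IsOpen Ω) (hν : 0 ≤ ν) (hT : 0 < T) (h : IsWeakSolution Ω ν T u G f)
    (hM : ∀ t ∈ Icc 0 T, ‖u t‖ ≤ M) (hθ0 : ∀ t, 0 ≤ θ t)
    (hθ : IntervalIntegrable θ volume 0 T) {t : ℝ} (ht : t ∈ Icc 0 T)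
    (H : ChL T (fun t => ‖u t‖ ^ 2 / 2) (fun r q => ⟪u r - u q, u r⟫_ℝ) (fun τ => ‖G τ‖ ^ 2)
      (wt1 ν M G f θ) t) : LeftOK (defect ν u G f) t := by
  intro ε hε ht0
  obtain ⟨δ, hδ, h1⟩ := small_prim (wt2_ii hΩ hν hT h hM hθ) hT.le ht hε
  set x := max 0 (t - min δ ε / 2) with hx
  have hm : 0 < min δ ε := lt_min hδ hε
  have hxt : x < t := max_lt ht0 (by linarith)
  have hx0 : 0 ≤ x := le_max_left _ _
  have hxm : t - min δ ε / 2 ≤ x := le_max_right _ _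
  have hmδ : min δ ε ≤ δ := min_le_left _ _
  have hmε : min δ ε ≤ ε := min_le_right _ _
  obtain ⟨ρ, a1, a3, a4⟩ := H.left hx0 hxt ht.2
  have hρt : ρ < t := by linarith [a1.2]
  have hρ0 : 0 ≤ ρ := hx0.trans a1.1.le
  refine ⟨ρ, ⟨by linarith [a1.1], hρt⟩, hρ0, ?_⟩
  rw [abs_sub_comm] at a4
  have b1 := defect_inc hΩ hν hT h hM hρ0 hρt.le ht.2 a4
  rw [abs_sub_comm]
  refine b1.trans_lt ?_
  have b2 := h1 x ⟨hx0, hxt.le.trans ht.2⟩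
    (by rw [abs_sub_comm, abs_of_pos (by linarith)]; linarith)
  rw [intervalIntegral.integral_symm, abs_neg] at b2
  have b3 : ∫ τ in ρ..t, |pow ν u G f τ| ≤ ∫ τ in x..t, |pow ν u G f τ| :=
    int_mono_set (pow_ii hΩ hν hT h hM).abs (fun τ => abs_nonneg _) hx0 a1.1.le hρt.le le_rfl
      ht.2
  have b5 : 0 ≤ ∫ τ in x..t, wt1 ν M G f θ τ :=
    intervalIntegral.integral_nonneg hxt.le fun τ _ => wt1_nonneg hν hT hM hθ0 τ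
  rw [wt2_eq hΩ hν hT h hM hθ hx0 hxt.le ht.2] at b2
  have b6 := (le_abs_self _).trans_lt b2
  linarith

theorem left_tame (hΩ : IsOpen Ω) (hν : 0 ≤ ν) (hT : 0 < T) (h : IsWeakSolution Ω ν T u G f)
    (hM : ∀ t ∈ Icc 0 T, ‖u t‖ ≤ M) (hθ0 : ∀ t, 0 ≤ θ t)
    (hθ : IntervalIntegrable θ volume 0 T) {t : ℝ} (ht : t ∈ tame T (fun τ => ‖G τ‖ ^ 2) θ) :
    LeftOK (defect ν u G f) t :=
  left_of_ch hΩ hν hT h hM hθ0 hθ ht.1 (chL_tame hΩ hν hT h hM hθ0 hθ ht)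

end

end Pool.Agent.TH301.EQ
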