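import Pool.Agent.TH301.EQ.Tame

/-!
The energy defect and the tame times.
-/

set_option autoImplicit false
set_option linter.unusedSectionVars false

open MeasureTheory Set Filter Topology
open scoped InnerProductSpace ENNReal ContDiff NNReal

namespace Pool.Agent.TH301.EQ

open H772R2.NS Pool.Agent.TH340.FF

/-- The norm does not jump at `t` from the left: the lower limit of `‖u(s)‖` as `s` tends to `t` from
the left is at most `‖u(t)‖`. -/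
def NoJumpLeft {X : Type*} [NormedAddCommGroup X] (u : ℝ → X) (t : ℝ) : Prop :=
  ∀ ε > 0, 0 < t → ∃ s ∈ Ioo (t - ε) t, 0 ≤ s ∧ ‖u s‖ ≤ ‖u t‖ + ε

/-- The norm does not jump at `t` to the right: the lower limit of `‖u(s)‖` as `s` tends to `t` from
the right is at most `‖u(t)‖`. -/
def NoJumpRight {X : Type*} [NormedAddCommGroup X] (T : ℝ) (u : ℝ → X) (t : ℝ) : Prop :=
  ∀ ε > 0, t < T → ∃ s ∈ Ioo t (t + ε), s ≤ T ∧ ‖u s‖ ≤ ‖u t‖ + ε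

/-- The norm does not jump at `t`: the lower limits of `‖u(s)‖` at `t` from the left and from the
right are at most `‖u(t)‖`. -/
def NoJump {X : Type*} [NormedAddCommGroup X] (T : ℝ) (u : ℝ → X) (t : ℝ) : Prop :=
  NoJumpLeft u t ∧ NoJumpRight T u t

theorem rough_congr {T : ℝ} {D D' : ℝ → ℝ} (h : ∀ t ∈ Icc 0 T, D t = D' t) :
    rough T D = rough T D' := by
  ext t
  constructor
  · rintro ⟨ht, h1⟩
    refine ⟨ht, fun δ hδ => ?_⟩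
    obtain ⟨s, hs, a, b⟩ := h1 δ hδ
    exact ⟨s, hs, a, by rwa [← h s hs, ← h t ht]⟩
  · rintro ⟨ht, h1⟩
    refine ⟨ht, fun δ hδ => ?_⟩
    obtain ⟨s, hs, a, b⟩ := h1 δ hδ
    exact ⟨s, hs, a, by rwa [h s hs, h t ht]⟩

variable {Ω : Set E3} {ν T M : ℝ} {u : ℝ → L2V Ω} {G : ℝ → L2M Ω} {f : ℝ → L2V Ω}

theorem energy_close (h : IsWeakSolution Ω ν T u G f) (hM0 : 0 ≤ M)
    (hM : ∀ t ∈ Icc 0 T, ‖u t‖ ≤ M) {t : ℝ} (ht : t ∈ Icc 0 T) {ε : ℝ} (hε : 0 < ε) :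
    ∃ η > 0, ∀ s ∈ Icc 0 T, |s - t| < η → ‖u s‖ ≤ ‖u t‖ + η →
      |‖u s‖ ^ 2 / 2 - ‖u t‖ ^ 2 / 2| < ε := by
  have h1 := lim_norm h ht
  rw [Metric.tendsto_nhdsWithin_nhds] at h1
  obtain ⟨δ, hδ, h1⟩ := h1 ε hε
  set η := min δ (min 1 (ε / (2 * (M + 1)))) with hη
  have hη0 : 0 < η := lt_min hδ (lt_min one_pos (by positivity))
  have a1 : η ≤ δ := min_le_left _ _
  have a2 : η ≤ 1 := (min_le_right _ _).trans (min_le_left _ _)
  have a3 : η ≤ ε / (2 * (M + 1)) := (min_le_right _ _).trans (min_le_right _ _)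
  have a4 : η * (M + 1) ≤ ε / 2 := by
    calc η * (M + 1) ≤ ε / (2 * (M + 1)) * (M + 1) := by gcongr
      _ = ε / 2 := by field_simp
  refine ⟨η, hη0, fun s hs hst hn => ?_⟩
  have h2 := h1 hs (by rw [Real.dist_eq]; linarith)
  rw [Real.dist_eq, sub_zero, abs_lt] at h2
  have h3 : 0 ≤ ‖u t - u s‖ ^ 2 := by positivity
  rw [norm_sub_sq_real] at h3
  have h4 : ⟪u t - u s, u t⟫_ℝ = ‖u t‖ ^ 2 - ⟪u t, u s⟫_ℝ := by
    rw [inner_sub_left, real_inner_self_eq_norm_sq, real_inner_comm]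
  rw [h4] at h2
  have h5 : ‖u s‖ ^ 2 ≤ (‖u t‖ + η) ^ 2 := pow_le_pow_left₀ (norm_nonneg _) hn 2
  have h6 := hM t ht
  have h7 : 0 ≤ ‖u t‖ := norm_nonneg _
  have h8 : (‖u t‖ + η) ^ 2 ≤ ‖u t‖ ^ 2 + 2 * (η * (M + 1)) := by nlinarith
  rw [abs_lt]
  constructor <;> linarith [h2.1, h2.2]

theorem right_nojump (hΩ : IsOpen Ω) (hν : 0 ≤ ν) (hT : 0 < T) (h : IsWeakSolution Ω ν T u G f)
    (hM : ∀ t ∈ Icc 0 T, ‖u t‖ ≤ M) {t : ℝ} (ht : t ∈ Icc 0 T) (hN : NoJumpRight T u t) :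
    RightOK T (defect ν u G f) t := by
  intro ε hε htT
  have hM0 : 0 ≤ M := (norm_nonneg _).trans (hM 0 ⟨le_rfl, hT.le⟩)
  obtain ⟨δ, hδ, h1⟩ := small_prim (pow_ii hΩ hν hT h hM).abs hT.le ht (half_pos hε)
  obtain ⟨η, hη, h2⟩ := energy_close h hM0 hM ht (half_pos hε)
  have hm : 0 < min ε (min δ η) := lt_min hε (lt_min hδ hη)
  have m1 : min ε (min δ η) ≤ ε := min_le_left _ _
  have m2 : min ε (min δ η) ≤ δ := (min_le_right _ _).trans (min_le_left _ _)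
  have m3 : min ε (min δ η) ≤ η := (min_le_right _ _).trans (min_le_right _ _)
  obtain ⟨s, hs, hsT, hn⟩ := hN _ hm htT
  have hs1 := hs.1
  have hs2 := hs.2
  have hsI : s ∈ Icc 0 T := ⟨ht.1.trans hs1.le, hsT⟩
  have hst : |s - t| = s - t := abs_of_pos (by linarith)
  refine ⟨s, ⟨hs1, by linarith⟩, hsT, ?_⟩
  have b1 := defect_inc hΩ hν hT h hM ht.1 hs1.le hsT le_rfl
  have b2 := h1 s hsI (by rw [hst]; linarith)
  have b3 := h2 s hsI (by rw [hst]; linarith) (by linarith)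
  have b4 := (le_abs_self _).trans_lt b2
  linarith

theorem left_nojump (hΩ : IsOpen Ω) (hν : 0 ≤ ν) (hT : 0 < T) (h : IsWeakSolution Ω ν T u G f)
    (hM : ∀ t ∈ Icc 0 T, ‖u t‖ ≤ M) {t : ℝ} (ht : t ∈ Icc 0 T) (hN : NoJumpLeft u t) :
    LeftOK (defect ν u G f) t := by
  intro ε hε ht0
  have hM0 : 0 ≤ M := (norm_nonneg _).trans (hM 0 ⟨le_rfl, hT.le⟩)
  obtain ⟨δ, hδ, h1⟩ := small_prim (pow_ii hΩ hν hT h hM).abs hT.le ht (half_pos hε)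
  obtain ⟨η, hη, h2⟩ := energy_close h hM0 hM ht (half_pos hε)
  have hm : 0 < min ε (min δ η) := lt_min hε (lt_min hδ hη)
  have m1 : min ε (min δ η) ≤ ε := min_le_left _ _
  have m2 : min ε (min δ η) ≤ δ := (min_le_right _ _).trans (min_le_left _ _)
  have m3 : min ε (min δ η) ≤ η := (min_le_right _ _).trans (min_le_right _ _)
  obtain ⟨s, hs, hs0, hn⟩ := hN _ hm ht0
  have hs1 := hs.1
  have hs2 := hs.2
  have hsI : s ∈ Icc 0 T := ⟨hs0, hs2.le.trans ht.2⟩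
  have hst : |s - t| = t - s := by rw [abs_sub_comm]; exact abs_of_pos (by linarith)
  refine ⟨s, ⟨by linarith, hs2⟩, hs0, ?_⟩
  have b1 := defect_inc hΩ hν hT h hM hs0 hs2.le ht.2 le_rfl
  have b2 := h1 s hsI (by rw [hst]; linarith)
  have b3 := h2 s hsI (by rw [hst]; linarith) (by linarith)
  rw [intervalIntegral.integral_symm, abs_neg] at b2
  have b4 := (le_abs_self _).trans_lt b2
  rw [abs_sub_comm] at b3
  rw [abs_sub_comm]
  linarith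

/-- the weights of the index `k` -/
noncomputable def wk (θ : ℕ → ℝ → ℝ) (k : ℕ) (τ : ℝ) : ℝ :=
  (k.unpair.2 : ℝ) * (θ k.unpair.1 τ + 1)

theorem wk_nonneg {θ : ℕ → ℝ → ℝ} (hθ0 : ∀ n t, 0 ≤ θ n t) (k : ℕ) (t : ℝ) : 0 ≤ wk θ k t := by
  have := hθ0 k.unpair.1 t
  unfold wk
  positivity

theorem wk_ii {θ : ℕ → ℝ → ℝ} {T : ℝ} (hθ : ∀ n, IntervalIntegrable (θ n) volume 0 T) (k : ℕ) :
    IntervalIntegrable (wk θ k) volume 0 T :=
  ((hθ _).add intervalIntegrable_const).const_mul _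

theorem mem_tame_wk (hΩ : IsOpen Ω) (hν : 0 ≤ ν) (hT : 0 < T) (h : IsWeakSolution Ω ν T u G f)
    (hM : ∀ t ∈ Icc 0 T, ‖u t‖ ≤ M) {θ : ℕ → ℝ → ℝ} (hθ0 : ∀ n t, 0 ≤ θ n t)
    (hθ : ∀ n, IntervalIntegrable (θ n) volume 0 T) {t : ℝ} (ht : t ∈ Icc 0 T) {n : ℕ}
    (hn : TameAt T (fun τ => ‖G τ‖ ^ 2) (θ n) t) :
    ∃ k, t ∈ tame T (fun τ => ‖G τ‖ ^ 2) (wk θ k) := by
  obtain ⟨m, hm⟩ := tame_of_tameAt (fun τ => by positivity) (G2_ii hΩ hν hT h hM) (hθ0 n) (hθ n)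
    ht hn
  refine ⟨Nat.pair n m, ?_⟩
  have e : wk θ (Nat.pair n m) = fun τ => (m : ℝ) * (θ n τ + 1) := by
    funext τ
    unfold wk
    rw [Nat.unpair_pair]
  rw [e]
  exact hm

/-- **Sard.** The image of the tame times and of the times of finite enstrophy is a null set. -/
theorem tame_null (hΩ : IsOpen Ω) (hν : 0 ≤ ν) (hT : 0 < T) (h : IsWeakSolution Ω ν T u G f)
    {θ : ℕ → ℝ → ℝ} (hθ0 : ∀ n t, 0 ≤ θ n t) (hθ : ∀ n, IntervalIntegrable (θ n) volume 0 T) :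
    volume (defect ν u G f '' {t | t ∈ Icc 0 T ∧ ((∃ z, (u t, z) ∈ H1graph Ω) ∨
      ∃ n, TameAt T (fun τ => ‖G τ‖ ^ 2) (θ n) t)}) = 0 := by
  obtain ⟨M, hM⟩ := h.bdd
  have S := h.toSol hΩ hν hT hM
  have hsub : {t | t ∈ Icc 0 T ∧ ((∃ z, (u t, z) ∈ H1graph Ω) ∨
      ∃ n, TameAt T (fun τ => ‖G τ‖ ^ 2) (θ n) t)}
      ⊆ {t ∈ Icc 0 T | ∃ z, (u t, z) ∈ graphW Ω} ∪
        ⋃ k, (tame T (fun τ => ‖G τ‖ ^ 2) (wk θ k) ∩ {t | ¬ ∃ z, (u t, z) ∈ graphW Ω}) := by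
    rintro t ⟨ht, h1⟩
    by_cases hz : ∃ z, (u t, z) ∈ graphW Ω
    · exact Or.inl ⟨ht, hz⟩
    · right
      rcases h1 with ⟨z, hz'⟩ | ⟨n, hn⟩
      · exact absurd ⟨z, mem_graphW.mpr hz'⟩ hz
      · obtain ⟨k, hk⟩ := mem_tame_wk hΩ hν hT h hM hθ0 hθ ht hn
        exact mem_iUnion.mpr ⟨k, hk, hz⟩
  refine measure_mono_null (image_mono hsub) ?_
  rw [image_union, image_iUnion]
  refine measure_union_null S.sard (measure_iUnion_null fun k => ?_)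
  refine image_null (T := T) (ψ := wt2 ν M u G f (wk θ k))
    (F := tame T (fun τ => ‖G τ‖ ^ 2) (wk θ k)) hT.le
    (wt2_nonneg hν hT hM (wk_nonneg hθ0 k)) (wt2_ii hΩ hν hT h hM (wk_ii hθ k)) ?_
    (fun t ht => ht.1) inter_subset_left ?_
  · intro s hs t ht h0 hst htT
    exact defect_bound hΩ hν hT h hM (wk_nonneg hθ0 k) (wk_ii hθ k) hs ht h0 hst htT
  · have hmem : ∀ᵐ t : ℝ, t ∈ Ioc 0 T → (u t, G t) ∈ graphW Ω := by
      have := S.memW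
      rwa [ae_restrict_iff' measurableSet_Ioc] at this
    have hne : ∀ᵐ t : ℝ, t ≠ 0 := by simp [ae_iff, measure_singleton]
    have hae : ∀ᵐ t : ℝ, t ∉ tame T (fun τ => ‖G τ‖ ^ 2) (wk θ k)
        ∩ {t | ¬ ∃ z, (u t, z) ∈ graphW Ω} := by
      filter_upwards [hmem, hne] with t h1 h2 h3
      exact h3.2 ⟨G t, h1 ⟨lt_of_le_of_ne h3.1.1.1 (Ne.symm h2), h3.1.1.2⟩⟩
    rw [ae_iff] at hae
    refine measure_mono_null ?_ hae
    intro t ht h3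
    exact h3 ht

/-- **Category.** The times which are not tame are dense in the set of the times near which the
energy equality fails. -/
theorem tame_dense (hΩ : IsOpen Ω) (hν : 0 ≤ ν) (hT : 0 < T) (h : IsWeakSolution Ω ν T u G f)
    {θ : ℕ → ℝ → ℝ} (hθ0 : ∀ n t, 0 ≤ θ n t) (hθ : ∀ n, IntervalIntegrable (θ n) volume 0 T)
    {N : Set ℝ} (hN : N.Countable) (hJ : ∀ t ∈ N, NoJump T u t) :
    ∀ t₀ ∈ rough T (defect ν u G f), ∀ δ > 0, ∃ t ∈ rough T (defect ν u G f),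
      |t - t₀| < δ ∧ t ∉ N ∧ ∀ n, ¬ TameAt T (fun τ => ‖G τ‖ ^ 2) (θ n) t := by
  obtain ⟨M, hM⟩ := h.bdd
  have S := h.toSol hΩ hν hT hM
  have key := rough_dense (T := T) (D := defect ν u G f)
    (F := fun k => tame T (fun τ => ‖G τ‖ ^ 2) (wk θ k)) hN (fun k => tame_closed _ _ _) ?_ ?_
  · intro t₀ ht₀ δ hδ
    obtain ⟨t, ht, h1, h2, h3⟩ := key t₀ ht₀ δ hδ
    refine ⟨t, ht, h1, h2, fun n hn => ?_⟩
    obtain ⟨k, hk⟩ := mem_tame_wk hΩ hν hT h hM hθ0 hθ ht.1 hn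
    exact h3 k hk
  · intro k t₀ ht₀ δ hδ
    by_contra hcon
    push Not at hcon
    refine no_portion (ψ := wt2 ν M u G f (wk θ k)) (wt2_nonneg hν hT hM (wk_nonneg hθ0 k))
      (wt2_ii hΩ hν hT h hM (wk_ii hθ k)) ?_ ?_ ?_ S.deriv_zero ht₀.1 hδ hcon ht₀
    · intro s hs t ht h0 hst htT
      exact defect_bound hΩ hν hT h hM (wk_nonneg hθ0 k) (wk_ii hθ k) hs ht h0 hst htT
    · intro p hp _
      exact left_tame hΩ hν hT h hM (wk_nonneg hθ0 k) (wk_ii hθ k) hp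
    · intro p hp _
      exact right_tame hΩ hν hT h hM (wk_nonneg hθ0 k) (wk_ii hθ k) hp
  · intro t₀ ht₀ hN₀ δ hδ
    by_contra hcon
    push Not at hcon
    exact no_isolated ht₀.1 hδ (left_nojump hΩ hν hT h hM ht₀.1 (hJ t₀ hN₀).1)
      (right_nojump hΩ hν hT h hM ht₀.1 (hJ t₀ hN₀).2) hcon ht₀

/-- **Energy equality.** -/
theorem tame_eq (hΩ : IsOpen Ω) (hν : 0 ≤ ν) (hT : 0 < T) (h : IsWeakSolution Ω ν T u G f)
    {θ : ℕ → ℝ → ℝ} (hθ0 : ∀ n t, 0 ≤ θ n t) (hθ : ∀ n, IntervalIntegrable (θ n) volume 0 T)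
    {N : Set ℝ} (hN : N.Countable) (hJ : ∀ t ∈ N, NoJump T u t)
    (hall : ∀ t ∈ rough T (defect ν u G f), t ∈ N ∨
      ∃ n, TameAt T (fun τ => ‖G τ‖ ^ 2) (θ n) t) :
    ∀ t ∈ Icc 0 T, defect ν u G f t = 0 := by
  have hempty : ∀ t, t ∉ rough T (defect ν u G f) := by
    intro t₀ ht₀
    obtain ⟨t, ht, _, h2, h3⟩ := tame_dense hΩ hν hT h hθ0 hθ hN hJ t₀ ht₀ 1 one_pos
    rcases hall t ht with h4 | ⟨n, h4⟩
    · exact h2 h4
    · exact h3 n h4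
  intro t ht
  rw [const_of_flat le_rfl ht.1 ht.2 (fun s _ => hempty s)]
  exact Sol.defect_zero

end Pool.Agent.TH301.EQ
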